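import Pool.Agent.Lib.MP_7bc51d_an_marg.Marg

set_option autoImplicit false

namespace Pool.Agent.Lib.BilS

open Complex MeasureTheory Set Filter
open scoped ComplexConjugate Topology ENNReal
open Pool.Agent.Lib.Bil Pool.Agent.Lib.BilM

variable {n : ℕ} {v : Fin n → ℂ}

/-- A direction in which all vertices have different heights. -/
theorem exists_generic (hv : ConvexIndependent ℝ v) :
    ∃ w : ℂ, ∀ i j : Fin n, i ≠ j → cr w (v j - v i) ≠ 0 := by
  have h : ∀ᵐ w : ℂ, ∀ i j : Fin n,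
      w ∉ (Submodule.span ℝ {v j - v i} : Submodule ℝ ℂ) := by
    rw [ae_all_iff]; intro i
    rw [ae_all_iff]; intro j
    exact ae_not_mem_line _
  obtain ⟨w, hw⟩ := h.exists
  refine ⟨w, fun i j hij h0 => ?_⟩
  have hne : v j - v i ≠ 0 := v_sub_ne hv hij
  rw [cr_swap, neg_eq_zero] at h0
  obtain ⟨t, ht⟩ := (cr_eq_zero_iff hne).1 h0
  apply hw i j
  rw [Submodule.mem_span_singleton]
  exact ⟨t, by rw [real_smul, ht]⟩

/-- A local maximum of a height is a global maximum. -/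
theorem local_max (hn : 3 ≤ n) {w : ℂ} {p s q : Fin n} (hps : IsSide v p s) (hsq : IsSide v s q)
    (h1 : cr w (v q - v s) < 0) (h2 : cr w (v p - v s) < 0) (x : Fin n) (hx : x ≠ s) :
    cr w (v x - v s) < 0 := by
  by_cases hxq : x = q
  · rw [hxq]; exact h1
  by_cases hxp : x = p
  · rw [hxp]; exact h2
  have hpq : p ≠ q := by
    rintro rfl
    exact not_both_sides hn hps hsq
  have k1 : 0 < cr (v q - v s) (v x - v s) := hsq.2 x hx hxq
  have k2 : 0 < cr (v s - v p) (v x - v p) := hps.2 x hxp hx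
  have k3 : 0 < cr (v q - v s) (v p - v s) := hsq.2 p hps.1 hpq
  set e1 := v q - v s with he1
  set e2 := v p - v s with he2
  set z := v x - v s with hz
  have k4 : cr z e2 > 0 := by
    have e3 : v s - v p = -e2 := by rw [he2]; ring
    have e4 : v x - v p = z - e2 := by rw [hz, he2]; ring
    rw [e3, e4, cr_neg_left, cr_sub_right, cr_self] at k2
    rw [cr_swap]
    linarith
  have hc := cramer (a := e1) (b := e2) k3.ne' z
  have h5 : cr w z = (cr z e2 / cr e1 e2) * cr w e1 + (cr e1 z / cr e1 e2) * cr w e2 := by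
    conv_lhs => rw [← hc]
    rw [cr_add_right, cr_smul_right, cr_smul_right]
  rw [h5]
  have a1 : 0 < cr z e2 / cr e1 e2 := div_pos k4 k3
  have a2 : 0 < cr e1 z / cr e1 e2 := div_pos k1 k3
  nlinarith [mul_neg_of_pos_of_neg a1 h1, mul_neg_of_pos_of_neg a2 h2]

/-- A nonempty set of vertices invariant under `nxt` contains the highest vertex. -/
theorem inv_set_max (hn : 3 ≤ n) (hv : ConvexIndependent ℝ v) {w : ℂ}
    (hw : ∀ i j : Fin n, i ≠ j → cr w (v j - v i) ≠ 0) {S : Set (Fin n)} (hS : S.Nonempty)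
    (hinv : ∀ x, x ∈ S ↔ nxt hn hv x ∈ S) :
    ∃ s ∈ S, ∀ x, x ≠ s → cr w (v x - v s) < 0 := by
  classical
  obtain ⟨s, hsS, hmax⟩ := Set.exists_max_image S (fun i => cr w (v i)) (Set.toFinite S) hS
  refine ⟨s, hsS, ?_⟩
  obtain ⟨p, hp⟩ := (nxt_bijective hn hv).2 s
  have hps : IsSide v p s := by rw [← hp]; exact nxt_side hn hv p
  have hpS : p ∈ S := by rw [hinv, hp]; exact hsS
  have hsq := nxt_side hn hv s
  have hqS : nxt hn hv s ∈ S := (hinv s).1 hsS
  have g1 : cr w (v (nxt hn hv s) - v s) < 0 := by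
    have h : cr w (v (nxt hn hv s)) ≤ cr w (v s) := hmax _ hqS
    have h2 := hw s (nxt hn hv s) hsq.1
    rw [cr_sub_right] at h2 ⊢
    exact lt_of_le_of_ne (by linarith) h2
  have g2 : cr w (v p - v s) < 0 := by
    have h : cr w (v p) ≤ cr w (v s) := hmax _ hpS
    have h2 := hw s p hps.1.symm
    rw [cr_sub_right] at h2 ⊢
    exact lt_of_le_of_ne (by linarith) h2
  exact fun x hx => local_max hn hps hsq g1 g2 x hx

/-- The successor map of the vertices has a single cycle. -/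
theorem nxt_orbit (hn : 3 ≤ n) (hv : ConvexIndependent ℝ v) (a b : Fin n) :
    ∃ m : ℕ, (nxt hn hv)^[m] a = b := by
  by_contra hcon
  push Not at hcon
  set S : Set (Fin n) := {x | ∃ m : ℕ, (nxt hn hv)^[m] a = x} with hSdef
  have hfwd : ∀ x, x ∈ S → nxt hn hv x ∈ S := by
    rintro x ⟨m, rfl⟩
    exact ⟨m + 1, Function.iterate_succ_apply' _ _ _⟩
  have himg : (nxt hn hv) '' S = S := by
    have h1 : (nxt hn hv) '' S ⊆ S := by
      rintro _ ⟨x, hx, rfl⟩
      exact hfwd x hx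
    exact Set.eq_of_subset_of_ncard_le h1
      (by rw [Set.ncard_image_of_injective _ (nxt_bijective hn hv).1]) (Set.toFinite S)
  have hinv : ∀ x, x ∈ S ↔ nxt hn hv x ∈ S := by
    intro x
    refine ⟨hfwd x, fun h => ?_⟩
    rw [← himg] at h
    obtain ⟨y, hy, hyx⟩ := h
    rw [← (nxt_bijective hn hv).1 hyx]
    exact hy
  obtain ⟨w, hw⟩ := exists_generic hv
  have haS : a ∈ S := ⟨0, rfl⟩
  obtain ⟨s, hs, hs'⟩ := inv_set_max hn hv hw ⟨a, haS⟩ hinv
  have hinv' : ∀ x, x ∈ Sᶜ ↔ nxt hn hv x ∈ Sᶜ := by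
    intro x
    rw [Set.mem_compl_iff, Set.mem_compl_iff, hinv x]
  have hb : b ∈ Sᶜ := by
    rintro ⟨m, hm⟩
    exact hcon m hm
  obtain ⟨t, ht, ht'⟩ := inv_set_max hn hv hw ⟨b, hb⟩ hinv'
  have hst : s ≠ t := by
    rintro rfl
    exact ht hs
  have h1 := hs' t hst.symm
  have h2 := ht' s hst
  rw [cr_sub_right] at h1 h2
  linarith

/-- Bound for the potential along a path of good sides. -/
theorem path_bound (hn : 3 ≤ n) (hv : ConvexIndependent ℝ v) {a b : Fin n} (hab : a ≠ b) :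
    ∃ C : ℝ, 0 ≤ C ∧ ∀ (γ : Fin n → ℂ) (μ : ℝ),
      (∀ i, i ≠ a → i ≠ b → ‖γ (nxt hn hv i) - γ i‖ ≤ μ) → 0 ≤ μ →
      ‖γ b - γ (nxt hn hv a)‖ ≤ C * μ := by
  classical
  have hex : ∃ m : ℕ, (nxt hn hv)^[m + 1] a = b := by
    obtain ⟨m, hm⟩ := nxt_orbit hn hv a b
    cases m with
    | zero => exact absurd hm hab
    | succ m => exact ⟨m, hm⟩
  set m := Nat.find hex with hmdef
  have hm : (nxt hn hv)^[m + 1] a = b := Nat.find_spec hex
  have hmin : ∀ j < m, (nxt hn hv)^[j + 1] a ≠ b := fun j hj => Nat.find_min hex hj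
  have hmin2 : ∀ j < m, (nxt hn hv)^[j + 1] a ≠ a := by
    intro j hj h
    have h1 : (nxt hn hv)^[(m - (j + 1)) + 1] a = b := by
      have e1 : m + 1 = ((m - (j + 1)) + 1) + (j + 1) := by omega
      rw [e1, Function.iterate_add_apply, h] at hm
      exact hm
    exact hmin (m - (j + 1)) (by omega) h1
  refine ⟨m, Nat.cast_nonneg m, fun γ μ hγ hμ => ?_⟩
  have key : ∀ j ≤ m, ‖γ ((nxt hn hv)^[j + 1] a) - γ (nxt hn hv a)‖ ≤ j * μ := by
    intro j
    induction j with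
    | zero => intro _; simp
    | succ j ih =>
      intro hj
      have h1 := ih (by omega)
      have h2 := hγ ((nxt hn hv)^[j + 1] a) (hmin2 j (by omega)) (hmin j (by omega))
      have h3 : (nxt hn hv)^[j + 1 + 1] a = nxt hn hv ((nxt hn hv)^[j + 1] a) :=
        Function.iterate_succ_apply' _ _ _
      rw [h3]
      calc ‖γ (nxt hn hv ((nxt hn hv)^[j + 1] a)) - γ (nxt hn hv a)‖
          = ‖(γ (nxt hn hv ((nxt hn hv)^[j + 1] a)) - γ ((nxt hn hv)^[j + 1] a)) +
              (γ ((nxt hn hv)^[j + 1] a) - γ (nxt hn hv a))‖ := by congr 1; ring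
        _ ≤ μ + j * μ := (norm_add_le _ _).trans (add_le_add h2 h1)
        _ = ((j + 1 : ℕ) : ℝ) * μ := by push_cast; ring
  have := key m le_rfl
  rw [hm] at this
  exact this

/-- Bound for the potential in terms of all sides. -/
theorem all_bound (hn : 3 ≤ n) (hv : ConvexIndependent ℝ v) (a : Fin n) :
    ∃ C : ℝ, 0 ≤ C ∧ ∀ (γ : Fin n → ℂ) (R : ℝ),
      (∀ i, ‖γ (nxt hn hv i) - γ i‖ ≤ R) → 0 ≤ R → ∀ i, ‖γ i - γ a‖ ≤ C * R := by
  classical
  choose m hm using nxt_orbit hn hv a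
  refine ⟨∑ i, (m i : ℝ), Finset.sum_nonneg (fun i _ => Nat.cast_nonneg _),
    fun γ R hγ hR i => ?_⟩
  have key : ∀ j : ℕ, ‖γ ((nxt hn hv)^[j] a) - γ a‖ ≤ j * R := by
    intro j
    induction j with
    | zero => simp
    | succ j ih =>
      have h2 := hγ ((nxt hn hv)^[j] a)
      rw [Function.iterate_succ_apply']
      calc ‖γ (nxt hn hv ((nxt hn hv)^[j] a)) - γ a‖
          = ‖(γ (nxt hn hv ((nxt hn hv)^[j] a)) - γ ((nxt hn hv)^[j] a)) +
              (γ ((nxt hn hv)^[j] a) - γ a)‖ := by congr 1; ring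
        _ ≤ R + j * R := (norm_add_le _ _).trans (add_le_add h2 ih)
        _ = ((j + 1 : ℕ) : ℝ) * R := by push_cast; ring
  have h1 := key (m i)
  rw [hm i] at h1
  refine h1.trans ?_
  gcongr
  exact Finset.single_le_sum (f := fun i => (m i : ℝ)) (fun i _ => Nat.cast_nonneg _)
    (Finset.mem_univ i)

theorem sum_nxt_C (hn : 3 ≤ n) (hv : ConvexIndependent ℝ v) (g : Fin n → ℂ) :
    ∑ i, g (nxt hn hv i) = ∑ i, g i :=
  (Equiv.ofBijective _ (nxt_bijective hn hv)).sum_comp g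

/-- The (twice complex) area of the closed polygon with vertices `γ`. -/
noncomputable def Ar (hn : 3 ≤ n) (hv : ConvexIndependent ℝ v) (γ : Fin n → ℂ) : ℂ :=
  ∑ i, conj (γ (nxt hn hv i) - γ i) * (γ i + γ (nxt hn hv i))

theorem Ar_shift (hn : 3 ≤ n) (hv : ConvexIndependent ℝ v) (γ : Fin n → ℂ) (c : ℂ) :
    Ar hn hv (fun i => γ i - c) = Ar hn hv γ := by
  unfold Ar
  have h0 : ∑ i, conj (γ (nxt hn hv i) - γ i) = 0 := by
    rw [← map_sum, Finset.sum_sub_distrib, sum_nxt_C hn hv γ, sub_self, map_zero]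
  have h1 : ∀ i, conj ((γ (nxt hn hv i) - c) - (γ i - c)) *
      ((γ i - c) + (γ (nxt hn hv i) - c)) =
      conj (γ (nxt hn hv i) - γ i) * (γ i + γ (nxt hn hv i)) -
        conj (γ (nxt hn hv i) - γ i) * (2 * c) := by
    intro i
    have : (γ (nxt hn hv i) - c) - (γ i - c) = γ (nxt hn hv i) - γ i := by ring
    rw [this]
    ring
  simp_rw [h1]
  rw [Finset.sum_sub_distrib, ← Finset.sum_mul, h0, zero_mul, sub_zero]

/-- The area is bounded by the product of the largest side and the largest good side. -/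
theorem area_bound (hn : 3 ≤ n) (hv : ConvexIndependent ℝ v) {a b : Fin n} (hab : a ≠ b) :
    ∃ C : ℝ, 0 ≤ C ∧ ∀ (γ : Fin n → ℂ) (μ R : ℝ), 0 ≤ μ → μ ≤ R →
      (∀ i, i ≠ a → i ≠ b → ‖γ (nxt hn hv i) - γ i‖ ≤ μ) →
      (∀ i, ‖γ (nxt hn hv i) - γ i‖ ≤ R) →
      ‖Ar hn hv γ‖ ≤ C * (μ * R) := by
  classical
  obtain ⟨C1, hC1, h1⟩ := path_bound hn hv hab
  obtain ⟨C2, hC2, h2⟩ := path_bound hn hv hab.symm
  obtain ⟨C3, hC3, h3⟩ := all_bound hn hv a
  refine ⟨n * (2 * C3) + (C1 * (C3 + 1) + C2 * (3 * C3)), by positivity,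
    fun γ μ R hμ hμR hγ hγR => ?_⟩
  have hR : 0 ≤ R := hμ.trans hμR
  have g1 := h1 γ μ hγ hμ
  have g2 := h2 γ μ (fun i hi1 hi2 => hγ i hi2 hi1) hμ
  have g3 := h3 γ R hγR hR
  rw [← Ar_shift hn hv γ (γ a)]
  set p : Fin n → ℂ := fun i => γ i - γ a with hp
  have pd : ∀ i, p (nxt hn hv i) - p i = γ (nxt hn hv i) - γ i := by
    intro i; simp only [hp]; ring
  have pa : p a = 0 := by simp [hp]
  have pn : ∀ i, ‖p i‖ ≤ C3 * R := g3
  unfold Ar
  have hsplit : ∑ i, conj (p (nxt hn hv i) - p i) * (p i + p (nxt hn hv i)) =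
      (conj (p (nxt hn hv a) - p a) * (p a + p (nxt hn hv a)) +
        conj (p (nxt hn hv b) - p b) * (p b + p (nxt hn hv b))) +
      ∑ i ∈ (Finset.univ.erase a).erase b,
        conj (p (nxt hn hv i) - p i) * (p i + p (nxt hn hv i)) := by
    rw [← Finset.add_sum_erase Finset.univ _ (Finset.mem_univ a),
      ← Finset.add_sum_erase (Finset.univ.erase a) _
        (Finset.mem_erase.2 ⟨hab.symm, Finset.mem_univ b⟩), add_assoc]
  rw [hsplit]
  have hoth : ‖∑ i ∈ (Finset.univ.erase a).erase b,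
      conj (p (nxt hn hv i) - p i) * (p i + p (nxt hn hv i))‖ ≤ n * (2 * C3) * (μ * R) := by
    refine (norm_sum_le _ _).trans ?_
    have hb : ∀ i ∈ (Finset.univ.erase a).erase b,
        ‖conj (p (nxt hn hv i) - p i) * (p i + p (nxt hn hv i))‖ ≤ 2 * C3 * (μ * R) := by
      intro i hi
      rw [Finset.mem_erase, Finset.mem_erase] at hi
      rw [norm_mul, RCLike.norm_conj, pd i]
      have k1 := hγ i hi.2.1 hi.1
      have k2 : ‖p i + p (nxt hn hv i)‖ ≤ C3 * R + C3 * R :=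
        (norm_add_le _ _).trans (add_le_add (pn _) (pn _))
      calc _ ≤ μ * (C3 * R + C3 * R) := by gcongr
        _ = _ := by ring
    refine (Finset.sum_le_sum hb).trans ?_
    rw [Finset.sum_const, nsmul_eq_mul]
    have hcard : (((Finset.univ.erase a).erase b : Finset (Fin n)).card : ℝ) ≤ n := by
      have : ((Finset.univ.erase a).erase b : Finset (Fin n)).card ≤ n := by
        refine (Finset.card_le_univ _).trans (by simp)
      exact_mod_cast this
    have h0 : 0 ≤ 2 * C3 * (μ * R) := by positivity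
    nlinarith
  have hab' : ‖conj (p (nxt hn hv a) - p a) * (p a + p (nxt hn hv a)) +
        conj (p (nxt hn hv b) - p b) * (p b + p (nxt hn hv b))‖ ≤
        (C1 * (C3 + 1) + C2 * (3 * C3)) * (μ * R) := by
    set za := p (nxt hn hv a) with hza
    set q := p (nxt hn hv b) with hq
    have k1 : ‖p b - za‖ ≤ C1 * μ := by
      have : p b - za = γ b - γ (nxt hn hv a) := by simp only [hza, hp]; ring
      rw [this]; exact g1
    have k2 : ‖q‖ ≤ C2 * μ := by
      have : q = -(γ a - γ (nxt hn hv b)) := by simp only [hq, hp]; ring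
      rw [this, norm_neg]; exact g2
    have k3 : ‖za‖ ≤ R := by
      have := hγR a
      rw [← pd a, pa, sub_zero] at this
      exact this
    have k4 : ‖p b‖ ≤ C3 * R := pn b
    have e : conj (za - p a) * (p a + za) + conj (q - p b) * (p b + q) =
        (conj za * (za - p b) + conj (za - p b) * p b) +
        (conj q * (p b + q) - conj (p b) * q) := by
      rw [pa]
      simp only [sub_zero, zero_add, map_sub]
      ring
    rw [e]
    have k5 : ‖q‖ ≤ C3 * R := pn _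
    have m1 : ‖conj za * (za - p b) + conj (za - p b) * p b‖ ≤ C1 * (C3 + 1) * (μ * R) := by
      refine (norm_add_le _ _).trans ?_
      rw [norm_mul, norm_mul, RCLike.norm_conj, RCLike.norm_conj, norm_sub_rev za (p b)]
      calc ‖za‖ * ‖p b - za‖ + ‖p b - za‖ * ‖p b‖ ≤ R * (C1 * μ) + C1 * μ * (C3 * R) := by
            gcongr
        _ = _ := by ring
    have m2 : ‖conj q * (p b + q) - conj (p b) * q‖ ≤ C2 * (3 * C3) * (μ * R) := by
      refine (norm_sub_le _ _).trans ?_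
      rw [norm_mul, norm_mul, RCLike.norm_conj, RCLike.norm_conj]
      have k6 : ‖p b + q‖ ≤ C3 * R + C3 * R := (norm_add_le _ _).trans (add_le_add k4 k5)
      calc ‖q‖ * ‖p b + q‖ + ‖p b‖ * ‖q‖ ≤ C2 * μ * (C3 * R + C3 * R) + C3 * R * (C2 * μ) := by
            gcongr
        _ = _ := by ring
    calc _ ≤ C1 * (C3 + 1) * (μ * R) + C2 * (3 * C3) * (μ * R) :=
          (norm_add_le _ _).trans (add_le_add m1 m2)
      _ = _ := by ring
  calc _ ≤ (C1 * (C3 + 1) + C2 * (3 * C3)) * (μ * R) + n * (2 * C3) * (μ * R) :=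
        (norm_add_le _ _).trans (add_le_add hab' hoth)
    _ = _ := by ring

/-- The area is at most quadratic in the largest side. -/
theorem area_bound2 (hn : 3 ≤ n) (hv : ConvexIndependent ℝ v) :
    ∃ C : ℝ, 0 ≤ C ∧ ∀ (γ : Fin n → ℂ) (R : ℝ), 0 ≤ R →
      (∀ i, ‖γ (nxt hn hv i) - γ i‖ ≤ R) → ‖Ar hn hv γ‖ ≤ C * (R * R) := by
  have h0 : (⟨0, by omega⟩ : Fin n) ≠ ⟨1, by omega⟩ := by
    intro h
    rw [Fin.mk.injEq] at h
    omega
  obtain ⟨C, hC, h⟩ := area_bound hn hv h0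
  exact ⟨C, hC, fun γ R hR hγ => h γ R R hR le_rfl (fun i _ _ => hγ i) hγ⟩

end Pool.Agent.Lib.BilS
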