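import Pool.Agent.Lib.MP_7bc51d_an_smooth.SmallDiv

set_option autoImplicit false

namespace Pool.Agent.Lib.BilS

open Complex MeasureTheory Set Filter AddCircle
open scoped ComplexConjugate Topology ENNReal NNReal
open Pool.Agent.Lib.Bil Pool.Agent.Lib.BilM

/-- Bounded measurable Hölder functions on the circle. -/
structure HL (α : ℝ) (f : TT → ℝ) : Prop where
  meas : Measurable f
  bd : ∃ B : ℝ, 0 ≤ B ∧ ∀ t, |f t| ≤ B
  hol : ∃ K : ℝ, 0 ≤ K ∧ ∀ (t : TT) (h : ℝ), |h| ≤ Real.pi →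
    |f (t + (h : TT)) - f t| ≤ K * |h| ^ α

theorem BL.toHL {f : TT → ℝ} (hf : BL f) {α : ℝ} (hα1 : α ≤ 1) : HL α f := by
  obtain ⟨K, hK, hk⟩ := hf.lip
  refine ⟨hf.meas, hf.bd, ⟨K * Real.pi ^ (1 - α), by positivity, fun t h hh => ?_⟩⟩
  refine (hk t h).trans ?_
  rw [mul_assoc]
  apply mul_le_mul_of_nonneg_left _ hK
  by_cases h0 : h = 0
  · subst h0
    simp only [abs_zero]
    positivity
  have hpos : 0 < |h| := abs_pos.2 h0
  calc |h| = |h| ^ (1 - α) * |h| ^ α := by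
        rw [← Real.rpow_add hpos]; simp
    _ ≤ Real.pi ^ (1 - α) * |h| ^ α := by
        gcongr

theorem HL.mul {α : ℝ} {f g : TT → ℝ} (hf : HL α f) (hg : HL α g) :
    HL α (fun t => f t * g t) := by
  obtain ⟨B, hB, hb⟩ := hf.bd
  obtain ⟨B', hB', hb'⟩ := hg.bd
  obtain ⟨K, hK, hk⟩ := hf.hol
  obtain ⟨K', hK', hk'⟩ := hg.hol
  refine ⟨hf.meas.mul hg.meas, ⟨B * B', by positivity, fun t => ?_⟩,
    ⟨K * B' + B * K', by positivity, fun t h hh => ?_⟩⟩
  · rw [abs_mul]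
    exact mul_le_mul (hb t) (hb' t) (abs_nonneg _) hB
  · have e : f (t + (h : TT)) * g (t + (h : TT)) - f t * g t =
        (f (t + (h : TT)) - f t) * g (t + (h : TT)) + f t * (g (t + (h : TT)) - g t) := by ring
    rw [e]
    refine (abs_add_le _ _).trans ?_
    rw [abs_mul, abs_mul]
    have h1 := mul_le_mul (hk t h hh) (hb' (t + (h : TT))) (abs_nonneg _) (by positivity)
    have h2 := mul_le_mul (hb t) (hk' t h hh) (abs_nonneg _) hB
    calc _ ≤ K * |h| ^ α * B' + B * (K' * |h| ^ α) := add_le_add h1 h2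
      _ = _ := by ring

theorem HL.add {α : ℝ} {f g : TT → ℝ} (hf : HL α f) (hg : HL α g) :
    HL α (fun t => f t + g t) := by
  obtain ⟨B, hB, hb⟩ := hf.bd
  obtain ⟨B', hB', hb'⟩ := hg.bd
  obtain ⟨K, hK, hk⟩ := hf.hol
  obtain ⟨K', hK', hk'⟩ := hg.hol
  refine ⟨hf.meas.add hg.meas, ⟨B + B', by positivity, fun t => ?_⟩,
    ⟨K + K', by positivity, fun t h hh => ?_⟩⟩
  · exact (abs_add_le _ _).trans (add_le_add (hb t) (hb' t))
  · have e : f (t + (h : TT)) + g (t + (h : TT)) - (f t + g t) =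
        (f (t + (h : TT)) - f t) + (g (t + (h : TT)) - g t) := by ring
    rw [e]
    refine (abs_add_le _ _).trans ?_
    calc _ ≤ K * |h| ^ α + K' * |h| ^ α := add_le_add (hk t h hh) (hk' t h hh)
      _ = _ := by ring

theorem HL_norm {ψ : ℝ → ℝ} (hc : Continuous ψ) {α C : ℝ} (hα : 0 < α)
    (hC : ∀ x y : ℝ, |ψ x - ψ y| ≤ C * |x - y| ^ α) : HL α (fun t => ψ ‖t‖) := by
  have hC0 : 0 ≤ C := by
    have h := hC 1 0
    rw [sub_zero, abs_one, Real.one_rpow, mul_one] at h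
    exact (abs_nonneg _).trans h
  refine ⟨hc.measurable.comp measurable_norm,
    ⟨|ψ 0| + C * Real.pi ^ α, by positivity, fun t => ?_⟩, ⟨C, hC0, fun t h _ => ?_⟩⟩
  · have h1 := hC ‖t‖ 0
    rw [sub_zero, abs_of_nonneg (norm_nonneg t)] at h1
    have h2 := (norm_mem_Icc t).2
    have h3 : |ψ ‖t‖| ≤ |ψ ‖t‖ - ψ 0| + |ψ 0| := by
      have := abs_add_le (ψ ‖t‖ - ψ 0) (ψ 0)
      rwa [sub_add_cancel] at this
    have h4 : C * ‖t‖ ^ α ≤ C * Real.pi ^ α := by gcongr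
    linarith
  · refine (hC _ _).trans ?_
    have h1 : |‖t + (h : TT)‖ - ‖t‖| ≤ |h| := by
      refine (abs_norm_sub_norm_le (t + (h : TT)) t).trans ?_
      rw [add_sub_cancel_left]
      exact norm_coe_le_abs h
    gcongr

theorem norm_fc_le {m : TT → ℝ} {B : ℝ} (hb : ∀ t, |m t| ≤ B) (k : ℤ) : ‖cm m k‖ ≤ B := by
  unfold cm fourierCoeff
  have h := norm_integral_le_of_norm_le_const (μ := (haarAddCircle : Measure TT)) (C := B)
    (f := fun t : TT => (fourier (-k) t : ℂ) • ((m t : ℝ) : ℂ))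
    (Eventually.of_forall (fun t => by
      rw [norm_smul, norm_fourier_pt, one_mul, norm_real, Real.norm_eq_abs]
      exact hb t))
  simpa using h

theorem HL.decay {α : ℝ} {m : TT → ℝ} (hm : HL α m) : ∃ C : ℝ, 0 ≤ C ∧ ∀ k : ℤ, k ≠ 0 →
    ‖cm m k‖ ≤ C * |(k : ℝ)| ^ (-α) := by
  obtain ⟨B, hB, hb⟩ := hm.bd
  obtain ⟨K, hK, hk⟩ := hm.hol
  refine ⟨K * Real.pi ^ α, by positivity, fun k hk0 => ?_⟩
  have hkr : (k : ℝ) ≠ 0 := by exact_mod_cast hk0
  have hka : 1 ≤ |(k : ℝ)| := by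
    have h4 : (1 : ℤ) ≤ |k| := Int.one_le_abs hk0
    exact_mod_cast h4
  set h : ℝ := Real.pi / k with hh
  have habs : |h| = Real.pi / |(k : ℝ)| := by
    rw [hh, abs_div, abs_of_pos Real.pi_pos]
  have hle : |h| ≤ Real.pi := by
    rw [habs]
    exact div_le_self Real.pi_pos.le hka
  have e1 : (fourier k ((h : ℝ) : TT) : ℂ) = -1 := by
    rw [fourier_real]
    have : (k : ℂ) * I * ((h : ℝ) : ℂ) = Real.pi * I := by
      rw [hh]
      have hkc : (k : ℂ) ≠ 0 := by exact_mod_cast hk0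
      push_cast
      field_simp
    rw [this, Complex.exp_pi_mul_I]
  have e2 := coeff_shift m ((h : ℝ) : TT) k
  rw [e1] at e2
  have i1 : Integrable (fun t : TT => ((m (t + (h : TT)) : ℝ) : ℂ)) haarAddCircle :=
    integrable_bdd (m := fun t => m (t + (h : TT))) (hm.meas.comp (measurable_add_const (h : TT)))
      (B := B) (fun t => hb _)
  have i2 := (integrable_bdd hm.meas hb).const_mul (-1 : ℂ)
  have e3 : cm (fun t => m (t + (h : TT)) - m t) k = -2 * cm m k := by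
    have e4 : (fun t : TT => (((m (t + (h : TT)) - m t : ℝ)) : ℂ)) =
        (fun t : TT => ((m (t + (h : TT)) : ℝ) : ℂ)) +
          (fun t : TT => ((-1 : ℂ) * ((m t : ℝ) : ℂ))) := by
      funext t
      simp only [Pi.add_apply]
      push_cast
      ring
    unfold cm
    rw [e4, fourierCoeff.add i1 i2, Pi.add_apply, fourierCoeff.const_mul, e2]
    ring
  have h5 := norm_fc_le (m := fun t => m (t + (h : TT)) - m t) (B := K * |h| ^ α)
    (fun t => hk t h hle) k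
  rw [e3, norm_mul, norm_neg] at h5
  have h6 : ‖(2 : ℂ)‖ = 2 := by simp
  rw [h6] at h5
  have h7 : K * |h| ^ α = K * Real.pi ^ α * |(k : ℝ)| ^ (-α) := by
    rw [habs, Real.div_rpow Real.pi_pos.le (abs_nonneg _), Real.rpow_neg (abs_nonneg _)]
    ring
  rw [← h7]
  have := norm_nonneg (cm m k)
  linarith

/-- Decay of the flux coefficients when the derivative of `φ` is Hölder. -/
theorem decay_holder {φ : ℝ → ℝ} (hd : Differentiable ℝ φ) {α C : ℝ} (hα : 0 < α) (hα1 : α ≤ 1)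
    (hC : ∀ x y : ℝ, |deriv φ x - deriv φ y| ≤ C * |x - y| ^ α) :
    LipI φ ∧ ∃ C' : ℝ, 0 ≤ C' ∧ ∀ k : ℤ, k ≠ 0 →
      ‖cm (m0 φ) k‖ ≤ C' * |(k : ℝ)| ^ (-(1 + α)) := by
  have hC0 : 0 ≤ C := by
    have h := hC 1 0
    rw [sub_zero, abs_one, Real.one_rpow, mul_one] at h
    exact (abs_nonneg _).trans h
  have hcont : Continuous (deriv φ) := by
    rw [continuous_iff_continuousAt]
    intro y
    rw [ContinuousAt, tendsto_iff_norm_sub_tendsto_zero]
    have h1 : Tendsto (fun x : ℝ => C * |x - y| ^ α) (𝓝 y) (𝓝 0) := by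
      have h2 : Continuous (fun x : ℝ => C * |x - y| ^ α) :=
        continuous_const.mul (((continuous_id.sub continuous_const).abs).rpow_const
          (fun x => Or.inr hα.le))
      have h3 := h2.tendsto y
      rw [sub_self, abs_zero, Real.zero_rpow hα.ne', mul_zero] at h3
      exact h3
    refine squeeze_zero (fun x => norm_nonneg _) (fun x => ?_) h1
    rw [Real.norm_eq_abs]
    exact hC x y
  have hL : LipI φ := by
    refine ⟨hd.continuous, |deriv φ 0| + C * Real.pi ^ α, by positivity, fun a ha b hb => ?_⟩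
    have hbd : ∀ x ∈ Icc (0 : ℝ) Real.pi, ‖deriv φ x‖ ≤ |deriv φ 0| + C * Real.pi ^ α := by
      intro x hx
      have h1 := hC x 0
      rw [sub_zero, abs_of_nonneg hx.1] at h1
      have h2 := abs_add_le (deriv φ x - deriv φ 0) (deriv φ 0)
      rw [sub_add_cancel] at h2
      have h3 : C * x ^ α ≤ C * Real.pi ^ α := by
        have := hx.1
        have := hx.2
        gcongr
      rw [Real.norm_eq_abs]
      linarith
    have h4 := (convex_Icc (0 : ℝ) Real.pi).norm_image_sub_le_of_norm_deriv_le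
      (fun x _ => hd x) hbd hb ha
    rwa [Real.norm_eq_abs, Real.norm_eq_abs] at h4
  refine ⟨hL, ?_⟩
  have hm1 : HL α (m1 φ) :=
    ((BL_re.mul (BL_norm hL)).toHL hα1).add ((BL_im.abs.toHL hα1).mul (HL_norm hcont hα hC))
  obtain ⟨C', hC', hdec⟩ := hm1.decay
  refine ⟨C', hC', fun k hk0 => ?_⟩
  have h1 := cm_deriv hL hcont hd k
  have h2 := hdec k hk0
  have hka : 0 < |(k : ℝ)| := abs_pos.2 (by exact_mod_cast hk0)
  have h3 : |(k : ℝ)| ^ (-(1 + α)) = |(k : ℝ)|⁻¹ * |(k : ℝ)| ^ (-α) := by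
    rw [← Real.rpow_neg_one, ← Real.rpow_add hka]
    congr 1
    ring
  rw [h3]
  calc ‖cm (m0 φ) k‖ = |(k : ℝ)|⁻¹ * (|(k : ℝ)| * ‖cm (m0 φ) k‖) := by field_simp
    _ ≤ |(k : ℝ)|⁻¹ * (C' * |(k : ℝ)| ^ (-α)) := by
        have := h1.trans h2
        gcongr
    _ = _ := by ring

/-- Weighted summability of the flux coefficients with small divisors. -/
theorem summable_sd {t : TT} (ht : t ∈ SD) {c : ℤ → ℂ} {α C : ℝ} (hα : 1 / 2 < α)
    (hc : ∀ k : ℤ, k ≠ 0 → ‖c k‖ ≤ C * |(k : ℝ)| ^ (-(1 + α))) :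
    Summable (fun k : ℤ => (k : ℝ) ^ 2 * |(rho (k • t)).im|⁻¹ * ‖c k‖ ^ 2) := by
  obtain ⟨N, hN⟩ := exists_nat_one_div_lt (show (0 : ℝ) < 2 * α - 1 by linarith)
  have h1 := (ht N).mul_left (C ^ 2)
  refine Summable.of_nonneg_of_le (fun k => by positivity) (fun k => ?_) h1
  by_cases hk0 : k = 0
  · subst hk0
    simp only [Int.cast_zero, ne_eq, OfNat.ofNat_ne_zero, not_false_eq_true, zero_pow, zero_mul]
    exact mul_nonneg (sq_nonneg _) (xk_nonneg _ _ _)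
  have hka : 1 ≤ |(k : ℝ)| := by
    have h4 : (1 : ℤ) ≤ |k| := Int.one_le_abs hk0
    exact_mod_cast h4
  have hka0 : 0 < |(k : ℝ)| := by linarith
  have h2 := hc k hk0
  have h3 : ‖c k‖ ^ 2 ≤ (C * |(k : ℝ)| ^ (-(1 + α))) ^ 2 := by
    have := norm_nonneg (c k)
    gcongr
  unfold xk
  have h4 : (k : ℝ) ^ 2 * (C * |(k : ℝ)| ^ (-(1 + α))) ^ 2 = C ^ 2 * |(k : ℝ)| ^ (-(2 * α)) := by
    have e1 : (k : ℝ) ^ 2 = |(k : ℝ)| ^ (2 : ℝ) := by
      rw [← sq_abs]; norm_cast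
    have e2 : (|(k : ℝ)| ^ (-(1 + α))) ^ 2 = |(k : ℝ)| ^ (-(1 + α) * 2) := by
      rw [Real.rpow_mul hka0.le]; norm_cast
    rw [mul_pow, e1, e2]
    calc |(k : ℝ)| ^ (2 : ℝ) * (C ^ 2 * |(k : ℝ)| ^ (-(1 + α) * 2))
        = C ^ 2 * (|(k : ℝ)| ^ (2 : ℝ) * |(k : ℝ)| ^ (-(1 + α) * 2)) := by ring
      _ = _ := by
          rw [← Real.rpow_add hka0]
          congr 2
          ring
  have h5 : |(k : ℝ)| ^ (-(2 * α)) ≤ |(k : ℝ)| ^ (-(1 + 1 / ((N : ℝ) + 1))) :=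
    Real.rpow_le_rpow_of_exponent_le hka (by linarith)
  calc (k : ℝ) ^ 2 * |(rho (k • t)).im|⁻¹ * ‖c k‖ ^ 2
      ≤ (k : ℝ) ^ 2 * |(rho (k • t)).im|⁻¹ * (C * |(k : ℝ)| ^ (-(1 + α))) ^ 2 := by gcongr
    _ = ((k : ℝ) ^ 2 * (C * |(k : ℝ)| ^ (-(1 + α))) ^ 2) * |(rho (k • t)).im|⁻¹ := by ring
    _ = C ^ 2 * (|(k : ℝ)| ^ (-(2 * α)) * |(rho (k • t)).im|⁻¹) := by rw [h4]; ring
    _ ≤ _ := by gcongr

end Pool.Agent.Lib.BilS
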