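import Pool.Agent.Lib.MP_7bc51d_an_smooth.Flux

set_option autoImplicit false

namespace Pool.Agent.Lib.BilS

open Complex MeasureTheory Set Filter AddCircle
open scoped ComplexConjugate Topology ENNReal NNReal
open Pool.Agent.Lib.Bil Pool.Agent.Lib.BilM

theorem sin_ge_min {x : ℝ} (h0 : 0 < x) (h1 : x < Real.pi) :
    2 / Real.pi * min x (Real.pi - x) ≤ Real.sin x := by
  rcases le_total x (Real.pi / 2) with h | h
  · rw [min_eq_left (by linarith)]
    exact Real.mul_le_sin h0.le h
  · rw [min_eq_right (by linarith), ← Real.sin_pi_sub]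
    exact Real.mul_le_sin (by linarith) (by linarith)

theorem ii_sin_rpow {p : ℝ} (hp0 : 0 < p) (hp1 : p < 1) :
    IntervalIntegrable (fun x : ℝ => |Real.sin x| ^ (-p)) volume 0 Real.pi := by
  have hpi := Real.pi_pos
  have h1 : IntervalIntegrable (fun x : ℝ => x ^ (-p)) volume 0 Real.pi :=
    intervalIntegral.intervalIntegrable_rpow' (by linarith)
  have h2 : IntervalIntegrable (fun x : ℝ => (Real.pi - x) ^ (-p)) volume 0 Real.pi := by
    have := (h1.comp_sub_left Real.pi).symm
    simpa using this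
  have h3 := (h1.add h2).const_mul ((2 / Real.pi) ^ (-p))
  refine h3.mono_fun' ?_ ?_
  · have : Measurable (fun x : ℝ => |Real.sin x| ^ (-p)) :=
      (Real.measurable_sin.abs).pow_const _
    exact this.aestronglyMeasurable
  · rw [uIoc_of_le hpi.le, ← restrict_Ioo_eq_restrict_Ioc]
    rw [EventuallyLE, ae_restrict_iff' measurableSet_Ioo]
    refine Eventually.of_forall (fun x hx => ?_)
    have hs := sin_ge_min hx.1 hx.2
    have hm : 0 < min x (Real.pi - x) := lt_min hx.1 (by linarith [hx.2])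
    have hsp : 0 < Real.sin x := Real.sin_pos_of_pos_of_lt_pi hx.1 hx.2
    rw [Real.norm_eq_abs, abs_of_nonneg (by positivity), abs_of_pos hsp]
    have h4 : Real.sin x ^ (-p) ≤ (2 / Real.pi * min x (Real.pi - x)) ^ (-p) :=
      Real.rpow_le_rpow_of_nonpos (by positivity) hs (by linarith)
    refine h4.trans ?_
    rw [Real.mul_rpow (by positivity) hm.le]
    apply mul_le_mul_of_nonneg_left _ (by positivity)
    have e1 : 0 ≤ x ^ (-p) := Real.rpow_nonneg hx.1.le _
    have e2 : 0 ≤ (Real.pi - x) ^ (-p) := Real.rpow_nonneg (by linarith [hx.2]) _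
    rcases min_choice x (Real.pi - x) with h | h <;> rw [h] <;> linarith

theorem ii_sin_rpow2 {p : ℝ} (hp0 : 0 < p) (hp1 : p < 1) :
    IntervalIntegrable (fun x : ℝ => |Real.sin x| ^ (-p)) volume 0 (2 * Real.pi) := by
  have h1 := ii_sin_rpow hp0 hp1
  have h2 : IntervalIntegrable (fun x : ℝ => |Real.sin x| ^ (-p)) volume Real.pi (2 * Real.pi) := by
    have := h1.comp_sub_right Real.pi
    have e : ∀ x : ℝ, |Real.sin (x - Real.pi)| = |Real.sin x| := by
      intro x
      rw [Real.sin_sub_pi, abs_neg]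
    simp only [e] at this
    have e2 : Real.pi + Real.pi = 2 * Real.pi := by ring
    rw [zero_add, e2] at this
    exact this
  exact h1.trans h2

theorem lint_sin {p : ℝ} (hp0 : 0 < p) (hp1 : p < 1) :
    ∫⁻ t : TT, ENNReal.ofReal (|(rho t).im| ^ (-p)) < ⊤ := by
  rw [← AddCircle.lintegral_preimage (2 * Real.pi) 0]
  have h := (ii_sin_rpow2 hp0 hp1).1
  rw [zero_add]
  have h2 : ∫⁻ a : ℝ in Ioc 0 (2 * Real.pi), ENNReal.ofReal (|(rho (a : TT)).im| ^ (-p)) =
      ∫⁻ a : ℝ in Ioc 0 (2 * Real.pi), ‖|Real.sin a| ^ (-p)‖ₑ := by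
    apply lintegral_congr
    intro a
    rw [rho_coe_im, Real.enorm_eq_ofReal (by positivity)]
  rw [h2]
  exact h.2

/-- The small divisor term. -/
noncomputable def xk (τ : ℝ) (t : TT) (k : ℤ) : ℝ := |(k : ℝ)| ^ (-τ) * |(rho (k • t)).im|⁻¹

theorem xk_nonneg (τ : ℝ) (t : TT) (k : ℤ) : 0 ≤ xk τ t k := by
  unfold xk; positivity

theorem measurable_im_rho (k : ℤ) : Measurable (fun t : TT => |(rho (k • t)).im|) := by
  have h1 : Measurable (fun t : TT => k • t) := (continuous_zsmul k).measurable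
  exact (Complex.measurable_im.comp (measurable_rho.comp h1)).abs

theorem sd_ae {τ : ℝ} (hτ : 1 < τ) : ∀ᵐ t : TT, Summable (fun k : ℤ => xk τ t k) := by
  set p : ℝ := (1 + 1 / τ) / 2 with hp
  have hτ0 : 0 < τ := by linarith
  have hinv : 1 / τ < 1 := by rw [div_lt_one hτ0]; exact hτ
  have hinv0 : 0 < 1 / τ := by positivity
  have hp0 : 0 < p := by rw [hp]; linarith
  have hp1 : p < 1 := by rw [hp]; linarith
  have hpτ : 1 < τ * p := by
    rw [hp]
    have : τ * ((1 + 1 / τ) / 2) = (τ + 1) / 2 := by field_simp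
    rw [this]; linarith
  set I := ∫⁻ t : TT, ENNReal.ofReal (|(rho t).im| ^ (-p)) with hI
  have hIlt : I < ⊤ := lint_sin hp0 hp1
  have h1 : ∀ k : ℤ, ∫⁻ t : TT, ENNReal.ofReal (xk τ t k ^ p) ≤
      ENNReal.ofReal (|(k : ℝ)| ^ (-(τ * p))) * I := by
    intro k
    by_cases hk : k = 0
    · subst hk
      have : ∀ t : TT, xk τ t 0 ^ p = 0 := by
        intro t
        unfold xk
        have : |((0 : ℤ) : ℝ)| ^ (-τ) = 0 := by
          rw [Int.cast_zero, abs_zero, Real.zero_rpow (by linarith)]
        rw [this, zero_mul, Real.zero_rpow hp0.ne']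
      simp [this]
    · have hmp : MeasurePreserving (fun t : TT => k • t) volume volume :=
        Measure.measurePreserving_zsmul volume hk
      have h2 : ∀ t : TT, ENNReal.ofReal (xk τ t k ^ p) =
          ENNReal.ofReal (|(k : ℝ)| ^ (-(τ * p))) *
            ENNReal.ofReal (|(rho (k • t)).im| ^ (-p)) := by
        intro t
        rw [← ENNReal.ofReal_mul (by positivity)]
        congr 1
        unfold xk
        rw [Real.mul_rpow (by positivity) (by positivity), ← Real.rpow_mul (abs_nonneg _),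
          Real.inv_rpow (abs_nonneg _), Real.rpow_neg (abs_nonneg ((rho (k • t)).im))]
        congr 2
        ring
      simp_rw [h2]
      rw [lintegral_const_mul]
      · apply le_of_eq
        congr 1
        exact hmp.lintegral_comp (f := fun t => ENNReal.ofReal (|(rho t).im| ^ (-p)))
          (ENNReal.measurable_ofReal.comp
            ((Complex.measurable_im.comp measurable_rho).abs.pow_const _))
      · exact ENNReal.measurable_ofReal.comp ((measurable_im_rho k).pow_const _)
  have hxm : ∀ k : ℤ, Measurable (fun t : TT => ENNReal.ofReal (xk τ t k ^ p)) := by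
    intro k
    unfold xk
    exact ENNReal.measurable_ofReal.comp
      ((((measurable_im_rho k).inv).const_mul _).pow_const _)
  have hsum : Summable (fun k : ℤ => |(k : ℝ)| ^ (-(τ * p))) := Real.summable_abs_int_rpow hpτ
  have h3 : ∫⁻ t : TT, ∑' k : ℤ, ENNReal.ofReal (xk τ t k ^ p) < ⊤ := by
    rw [lintegral_tsum (fun k => (hxm k).aemeasurable)]
    calc ∑' k : ℤ, ∫⁻ t : TT, ENNReal.ofReal (xk τ t k ^ p)
        ≤ ∑' k : ℤ, ENNReal.ofReal (|(k : ℝ)| ^ (-(τ * p))) * I := ENNReal.tsum_le_tsum h1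
      _ = (∑' k : ℤ, ENNReal.ofReal (|(k : ℝ)| ^ (-(τ * p)))) * I := ENNReal.tsum_mul_right
      _ < ⊤ := ENNReal.mul_lt_top hsum.tsum_ofReal_ne_top.lt_top hIlt
  have h4 := ae_lt_top (Measurable.tsum hxm) h3.ne
  filter_upwards [h4] with t ht
  have h5 : Summable (fun k : ℤ => xk τ t k ^ p) := by
    have := ENNReal.summable_toReal ht.ne
    refine this.congr (fun k => ?_)
    rw [ENNReal.toReal_ofReal (Real.rpow_nonneg (xk_nonneg _ _ _) _)]
  have h6 : ∀ᶠ k : ℤ in cofinite, xk τ t k ^ p ≤ 1 :=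
    (h5.tendsto_cofinite_zero.eventually (gt_mem_nhds zero_lt_one)).mono (fun k hk => hk.le)
  refine Summable.of_norm_bounded_eventually h5 ?_
  filter_upwards [h6] with k hk
  rw [Real.norm_eq_abs, abs_of_nonneg (xk_nonneg _ _ _)]
  have hx0 := xk_nonneg τ t k
  have hx1 : xk τ t k ≤ 1 := by
    by_contra hcon
    push Not at hcon
    have := Real.one_lt_rpow hcon hp0
    linarith
  rcases hx0.eq_or_lt with h | h
  · rw [← h, Real.zero_rpow hp0.ne']
  · calc xk τ t k = xk τ t k ^ (1 : ℝ) := (Real.rpow_one _).symm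
      _ ≤ xk τ t k ^ p := Real.rpow_le_rpow_of_exponent_ge h hx1 hp1.le

theorem measurableSet_sd (τ : ℝ) : MeasurableSet {t : TT | Summable (fun k : ℤ => xk τ t k)} := by
  have e : {t : TT | Summable (fun k : ℤ => xk τ t k)} =
      {t : TT | ∑' k : ℤ, ENNReal.ofReal (xk τ t k) ≠ ⊤} := by
    ext t
    constructor
    · intro h
      exact Summable.tsum_ofReal_ne_top h
    · intro h
      have := ENNReal.summable_toReal h
      refine this.congr (fun k => ?_)
      rw [ENNReal.toReal_ofReal (xk_nonneg _ _ _)]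
  rw [e]
  have hm : Measurable (fun t : TT => ∑' k : ℤ, ENNReal.ofReal (xk τ t k)) := by
    apply Measurable.tsum
    intro k
    unfold xk
    exact ENNReal.measurable_ofReal.comp (((measurable_im_rho k).inv).const_mul _)
  exact (hm (measurableSet_singleton ⊤)).compl

/-- The set of good angles. -/
def SD : Set TT := {t | ∀ N : ℕ, Summable (fun k : ℤ => xk (1 + 1 / ((N : ℝ) + 1)) t k)}

theorem measurableSet_SD : MeasurableSet SD := by
  have : SD = ⋂ N : ℕ, {t : TT | Summable (fun k : ℤ => xk (1 + 1 / ((N : ℝ) + 1)) t k)} := by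
    ext t; simp [SD]
  rw [this]
  exact MeasurableSet.iInter (fun N => measurableSet_sd _)

theorem ae_SD : ∀ᵐ t : TT, t ∈ SD := by
  have : ∀ᵐ t : TT, ∀ N : ℕ, Summable (fun k : ℤ => xk (1 + 1 / ((N : ℝ) + 1)) t k) := by
    rw [ae_all_iff]
    intro N
    apply sd_ae
    have : (0 : ℝ) < 1 / ((N : ℝ) + 1) := by positivity
    linarith
  exact this

/-- Transfer of almost everywhere statements from the circle to the plane. -/
theorem ae_sarg {S : Set TT} (hS : MeasurableSet S) (h : ∀ᵐ t : TT, t ∈ S) :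
    ∀ᵐ z : ℂ, sarg z ∈ S := by
  have hm : MeasurableSet {p : ℂ × TT | sarg (rho p.2 * p.1) ∈ S} := by
    have h1 : Measurable (fun p : ℂ × TT => sarg (rho p.2 * p.1)) :=
      measurable_sarg.comp ((measurable_rho.comp measurable_snd).mul measurable_fst)
    exact h1 hS
  have h1 : ∀ᵐ z : ℂ, ∀ᵐ t : TT, sarg (rho t * z) ∈ S := by
    have hz : ∀ᵐ z : ℂ, z ≠ 0 := by rw [ae_iff]; simp
    filter_upwards [hz] with z hz
    have h2 := (measurePreserving_add_right (volume : Measure TT)
      (sarg z)).quasiMeasurePreserving.ae h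
    filter_upwards [h2] with t ht
    rw [sarg_rot t hz]
    exact ht
  have h2 : ∀ᵐ t : TT, ∀ᵐ z : ℂ, sarg (rho t * z) ∈ S := (Measure.ae_ae_comm hm).1 h1
  obtain ⟨t, ht⟩ := h2.exists
  have h3 := (mp_mul (c := conj (rho t)) (norm_conj' (norm_rho t))).quasiMeasurePreserving.ae ht
  filter_upwards [h3] with z hz
  have e : rho t * (conj (rho t) * z) = z := by
    rw [← mul_assoc, mul_comm (rho t), conj_mul_self' (norm_rho t), one_mul]
  rwa [e] at hz

theorem ae_pair : ∀ᵐ p : ℂ × ℂ, sarg p.1 - sarg p.2 ∈ SD := by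
  have hm : MeasurableSet {p : ℂ × ℂ | sarg p.1 - sarg p.2 ∈ SD} := by
    have h1 : Measurable (fun p : ℂ × ℂ => sarg p.1 - sarg p.2) :=
      (measurable_sarg.comp measurable_fst).sub (measurable_sarg.comp measurable_snd)
    exact h1 measurableSet_SD
  change ∀ᵐ p ∂((volume : Measure ℂ).prod (volume : Measure ℂ)), _
  rw [Measure.ae_prod_iff_ae_ae hm]
  refine Eventually.of_forall (fun a => ?_)
  have h2 : ∀ᵐ t : TT, sarg a - t ∈ SD := by
    have h3 := (Measure.measurePreserving_sub_left (volume : Measure TT)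
      (sarg a)).quasiMeasurePreserving.ae ae_SD
    exact h3
  have hmeas : MeasurableSet {t : TT | sarg a - t ∈ SD} := by
    have h1 : Measurable (fun t : TT => sarg a - t) := measurable_id.const_sub (sarg a)
    exact h1 measurableSet_SD
  exact ae_sarg hmeas h2

theorem ae_SD_v (n : ℕ) : ∀ᵐ v : Fin n → ℂ, ∀ i j k l : Fin n, i ≠ j → k ≠ l →
    ((l ≠ i ∧ l ≠ j) ∨ (k ≠ i ∧ k ≠ j)) →
    sarg (v j - v i) - sarg (v l - v k) ∈ SD := by
  rw [ae_all_iff]; intro i
  rw [ae_all_iff]; intro j
  rw [ae_all_iff]; intro k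
  rw [ae_all_iff]; intro l
  by_cases hij : i ≠ j
  swap
  · exact Eventually.of_forall (fun v h => absurd h hij)
  by_cases hkl : k ≠ l
  swap
  · exact Eventually.of_forall (fun v _ h => absurd h hkl)
  by_cases hd : (l ≠ i ∧ l ≠ j) ∨ (k ≠ i ∧ k ≠ j)
  swap
  · exact Eventually.of_forall (fun v _ _ h => absurd h hd)
  set L : (Fin n → ℂ) →ₗ[ℝ] ℂ × ℂ :=
    { toFun := fun v => (v j - v i, v l - v k)
      map_add' := fun u v => by
        simp only [Pi.add_apply, Prod.mk_add_mk]
        congr 1 <;> ring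
      map_smul' := fun t v => by
        simp only [Pi.smul_apply, RingHom.id_apply, Prod.smul_mk, smul_sub] } with hL
  have hsurj : Function.Surjective L := by
    rintro ⟨a, b⟩
    rcases hd with ⟨h1, h2⟩ | ⟨h1, h2⟩
    · refine ⟨Function.update (Function.update 0 j a) l
        (b + (Function.update (0 : Fin n → ℂ) j a) k), ?_⟩
      simp only [hL, LinearMap.coe_mk, AddHom.coe_mk]
      rw [Function.update_of_ne (Ne.symm h2), Function.update_of_ne (Ne.symm h1),
        Function.update_self, Function.update_self, Function.update_of_ne hkl,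
        Function.update_of_ne hij]
      simp
    · refine ⟨Function.update (Function.update 0 j a) k
        ((Function.update (0 : Fin n → ℂ) j a) l - b), ?_⟩
      simp only [hL, LinearMap.coe_mk, AddHom.coe_mk]
      rw [Function.update_of_ne (Ne.symm h2), Function.update_of_ne (Ne.symm h1),
        Function.update_self, Function.update_self, Function.update_of_ne (Ne.symm hkl),
        Function.update_of_ne hij]
      simp
  have hm : MeasurableSet {p : ℂ × ℂ | sarg p.1 - sarg p.2 ∈ SD} := by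
    have h1 : Measurable (fun p : ℂ × ℂ => sarg p.1 - sarg p.2) :=
      (measurable_sarg.comp measurable_fst).sub (measurable_sarg.comp measurable_snd)
    exact h1 measurableSet_SD
  have h6 := (ae_comp_linearMap_mem_iff L (volume : Measure (Fin n → ℂ))
    ((volume : Measure ℂ).prod (volume : Measure ℂ)) hsurj hm).2 ae_pair
  filter_upwards [h6] with v hv _ _ _
  exact hv

end Pool.Agent.Lib.BilS
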