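import Pool.Agent.Lib.MP_7bc51d_an_smooth.Final
import Pool.Agent.Lib.MP_7bc51d_an_smooth.Holder

set_option autoImplicit false

namespace Pool.Agent.Lib.BilS

open Complex MeasureTheory Set Filter AddCircle
open scoped ComplexConjugate Topology ENNReal NNReal
open Pool.Agent.Lib.Bil Pool.Agent.Lib.BilM

variable {n : ℕ} {v : Fin n → ℂ}

theorem rho_neg (t : TT) : rho (-t) = conj (rho t) := by
  unfold rho
  rw [toCircle_neg, Circle.coe_inv_eq_conj]

theorem rl_rho {e : ℂ} (he : e ≠ 0) (t : TT) :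
    rl e (rho t) = rho (sarg e + sarg e - t) := by
  have hen : (‖e‖ : ℂ) ≠ 0 := by exact_mod_cast norm_ne_zero_iff.2 he
  have h1 := rho_sarg e
  have h6 : conj (rho (sarg e)) * rho (sarg e) = 1 := conj_mul_self' (norm_rho _)
  have hc : conj (rho (sarg e)) ≠ 0 := by simpa using rho_ne (sarg e)
  unfold rl
  rw [sub_eq_add_neg, rho_add, rho_add, rho_neg]
  congr 1
  have hce : conj e ≠ 0 := by simpa using he
  rw [div_eq_iff hce]
  have e1 : conj e = (‖e‖ : ℂ) * conj (rho (sarg e)) := by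
    conv_lhs => rw [← h1]
    rw [map_mul, conj_ofReal]
  calc e = (‖e‖ : ℂ) * rho (sarg e) * 1 := by rw [mul_one, h1]
    _ = (‖e‖ : ℂ) * rho (sarg e) * (conj (rho (sarg e)) * rho (sarg e)) := by rw [h6]
    _ = _ := by rw [e1]; ring

theorem Hom1.rl {M : ℂ → ℝ} (hM : Hom1 M) {e : ℂ} (he : e ≠ 0) :
    Hom1 (fun w => (-1) * M (rl e w)) := by
  obtain ⟨C, hC, hb⟩ := hM.bd
  refine ⟨(hM.meas.comp (continuous_rl e).measurable).const_mul (-1), fun r hr w => ?_,
    ⟨C, hC, fun w => ?_⟩⟩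
  · rw [rl_smul, hM.hom r hr]; ring
  · rw [abs_mul, abs_neg, abs_one, one_mul]
    have := hb (Bil.rl e w)
    rwa [norm_rl he] at this

/-- Phase of the Fourier coefficients of an antisymmetric function. -/
theorem phase {M : ℂ → ℝ} (hM : Hom1 M) {e : ℂ} (he : e ≠ 0)
    (hs : ∀ᵐ w, M (rl e w) = - M w) (k : ℤ) :
    ∃ r : ℝ, cN M k = I * r * fourier (-k) (sarg e) := by
  have h1 : cN (fun w => (-1) * M (rl e w)) k = cN M k := by
    apply cN_congr (hM.rl he) hM
    filter_upwards [hs] with w hw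
    rw [hw]; ring
  set z := cN M k with hz
  set u : ℂ := fourier (-k) (sarg e) with hu
  have hun : u * conj u = 1 := by
    rw [mul_comm, ← Complex.normSq_eq_conj_mul_self, Complex.normSq_eq_norm_sq, hu,
      norm_fourier_pt]
    simp
  have h2 : cN (fun w => (-1) * M (rl e w)) k = -(u * u * conj z) := by
    unfold cN fourierCoeff
    have h3 := integral_sub_left_eq_self
      (fun t : TT => (fourier (-k) (sarg e + sarg e - t) : ℂ) * ((M (rho t) : ℝ) : ℂ))
      haarAddCircle (sarg e + sarg e)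
    have h4 : ∫ t : TT, (fourier (-k) t : ℂ) • ((((-1) * M (rl e (rho t)) : ℝ)) : ℂ)
        ∂haarAddCircle = - ∫ t : TT, (fourier (-k) (sarg e + sarg e - t) : ℂ) *
          ((M (rho t) : ℝ) : ℂ) ∂haarAddCircle := by
      rw [← h3, ← integral_neg]
      apply integral_congr_ae
      refine Eventually.of_forall (fun t => ?_)
      simp only
      rw [rl_rho he, sub_sub_cancel, smul_eq_mul]
      push_cast
      ring
    rw [h4]
    have h5 : ∀ t : TT, (fourier (-k) (sarg e + sarg e - t) : ℂ) * ((M (rho t) : ℝ) : ℂ) =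
        (u * u) * ((fourier k t : ℂ) * ((M (rho t) : ℝ) : ℂ)) := by
      intro t
      rw [sub_eq_add_neg, fourier_add_pt, fourier_add_pt, ← hu]
      have e1 : (fourier (-k) (-t) : ℂ) = fourier k t := by
        rw [fourier_apply, fourier_apply, neg_smul_neg]
      rw [e1]
      ring
    simp_rw [h5]
    rw [integral_const_mul]
    congr 2
    have h6 := cN_neg M k
    rw [← hz] at h6
    rw [← h6]
    unfold cN fourierCoeff
    rw [neg_neg]
    rfl
  rw [h1] at h2
  refine ⟨(z * conj u).im, ?_⟩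
  have h7 : z * conj u = - conj (z * conj u) := by
    have : z * conj u = -(u * conj z * (u * conj u)) := by
      conv_lhs => rw [h2]
      ring
    have e2 : conj (z * conj u) = u * conj z := by rw [map_mul, conj_conj, mul_comm]
    rw [e2, this, hun, mul_one]
  have h8 : (z * conj u).re = 0 := by
    have := congrArg Complex.re h7
    rw [neg_re, conj_re] at this
    linarith
  have h9 : z * conj u = I * ((z * conj u).im : ℝ) := by
    apply Complex.ext
    · simp [h8]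
    · simp
  calc z = z * (u * conj u) := by rw [hun, mul_one]
    _ = (z * conj u) * u := by ring
    _ = _ := by rw [← h9]

/-- The two exceptional sides are controlled by the good sides through the small divisor. -/
theorem bad_bound {ua ub S : ℂ} {ra rb : ℝ} (hub : ‖ub‖ = 1)
    (h : I * ra * ua + I * rb * ub = -S) : |ra| * |(ua * conj ub).im| ≤ ‖S‖ := by
  have h1 : ub * conj ub = 1 := by
    rw [mul_comm, ← Complex.normSq_eq_conj_mul_self, Complex.normSq_eq_norm_sq, hub]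
    simp
  have h2 : I * ra * (ua * conj ub) + I * rb = -(S * conj ub) := by
    calc _ = (I * ra * ua) * conj ub + I * rb * (ub * conj ub) := by rw [h1]; ring
      _ = (I * ra * ua + I * rb * ub) * conj ub := by ring
      _ = _ := by rw [h]; ring
  have h3 := congrArg Complex.re h2
  have h4 : (I * ra * (ua * conj ub) + I * rb).re = - (ra * (ua * conj ub).im) := by
    simp only [add_re, mul_re, mul_im, I_re, I_im, ofReal_re, ofReal_im]
    ring
  rw [h4, neg_re, neg_inj] at h3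
  rw [← abs_mul, h3]
  refine (Complex.abs_re_le_norm _).trans ?_
  rw [norm_mul, RCLike.norm_conj, hub, mul_one]

theorem sum_case3 (hn : 3 ≤ n) (hv : ConvexIndependent ℝ v) {F : ℂ → ℝ → ℝ} (hF : LF F)
    (hhom : HomF F) (hs : ∀ i, SymAt F (v i) (v (nxt hn hv i) - v i)) {a b : Fin n} (hab : a ≠ b)
    (hnz : ∀ k : ℤ, k ≠ 0 → (rho (k • (sarg (ed hn hv a) - sarg (ed hn hv b)))).im ≠ 0)
    (hgood : ∀ i, i ≠ a → i ≠ b →
      Summable (fun k : ℤ => (k : ℝ) ^ 2 *
        |(rho (k • (sarg (ed hn hv a) - sarg (ed hn hv b)))).im|⁻¹ *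
          ‖cN (Mf F (v i) (ed hn hv i)) k‖ ^ 2)) :
    Summable (fun k : ℤ => (k : ℝ) ^ 2 * ‖Ar hn hv (fun i => cN (gam v F i) k)‖) := by
  classical
  obtain ⟨C, hC, hA⟩ := area_bound hn hv hab
  set t : TT := sarg (ed hn hv a) - sarg (ed hn hv b) with ht
  set f : Fin n → ℤ → ℝ := fun i k => ‖cN (Mf F (v i) (ed hn hv i)) k‖ with hf
  set s : Finset (Fin n) := (Finset.univ.erase a).erase b with hs'
  have hmem : ∀ i, i ∈ s ↔ i ≠ b ∧ i ≠ a := by
    intro i
    rw [hs', Finset.mem_erase, Finset.mem_erase]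
    simp
  have hne : ∀ i, ed hn hv i ≠ 0 := fun i => v_sub_ne hv (nxt_side hn hv i).ne
  have s1 : Summable (fun k : ℤ => ((k : ℝ) ^ 2 * |(rho (k • t)).im|⁻¹) * (∑ i ∈ s, f i k) ^ 2) := by
    apply summable_sq_sum s (fun k => by positivity)
    intro i hi
    rw [hmem] at hi
    exact hgood i hi.2 hi.1
  refine Summable.of_nonneg_of_le (fun k => by positivity) (fun k => ?_) (s1.mul_left C)
  by_cases hk0 : k = 0
  · subst hk0
    simp
  have f0 : ∀ i, 0 ≤ f i k := fun i => norm_nonneg _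
  set σ : ℝ := ∑ i ∈ s, f i k with hσ
  have hσ0 : 0 ≤ σ := Finset.sum_nonneg (fun i _ => f0 i)
  set d : ℝ := |(rho (k • t)).im| with hd
  have hd0 : 0 < d := abs_pos.2 (hnz k hk0)
  have hd1 : d ≤ 1 := (Complex.abs_im_le_norm _).trans (norm_rho _).le
  have hσd : σ ≤ σ / d := by
    rw [le_div_iff₀ hd0]
    nlinarith
  -- the closing condition
  have h0 : ∑ j, cN (Mf F (v j) (ed hn hv j)) k = 0 := by
    simp_rw [cN_Mf hn hv hF hhom]
    rw [Finset.sum_sub_distrib, sum_nxt_C hn hv (fun j => cN (gam v F j) k), sub_self]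
  set S : ℂ := ∑ j ∈ s, cN (Mf F (v j) (ed hn hv j)) k with hS
  have hSn : ‖S‖ ≤ σ := norm_sum_le _ _
  rw [← Finset.add_sum_erase Finset.univ _ (Finset.mem_univ a),
      ← Finset.add_sum_erase (Finset.univ.erase a) _
        (Finset.mem_erase.2 ⟨hab.symm, Finset.mem_univ b⟩)] at h0
  have h0' : cN (Mf F (v a) (ed hn hv a)) k + cN (Mf F (v b) (ed hn hv b)) k = -S := by
    linear_combination h0
  obtain ⟨ra, hra⟩ := phase (Mf_hom1 hF hhom (v a) (ed hn hv a)) (hne a)
    (cr_neg_rl (hne a) (hs a)) k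
  obtain ⟨rb, hrb⟩ := phase (Mf_hom1 hF hhom (v b) (ed hn hv b)) (hne b)
    (cr_neg_rl (hne b) (hs b)) k
  rw [hra, hrb] at h0'
  have hfk : ∀ x : TT, (fourier k x : ℂ) = rho (k • x) := fun x => by rw [fourier_apply]; rfl
  have hconj : ∀ x : TT, conj (fourier (-k) x : ℂ) = fourier k x := by
    intro x
    rw [fourier_neg, conj_conj]
  have hfab : (fourier (-k) (sarg (ed hn hv a)) : ℂ) *
      conj (fourier (-k) (sarg (ed hn hv b)) : ℂ) = conj (rho (k • t)) := by
    rw [hconj, ← rho_neg, ← smul_neg, ← hfk, ht, neg_sub, sub_eq_add_neg, fourier_add_pt]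
    have e1 : (fourier k (-sarg (ed hn hv a)) : ℂ) = fourier (-k) (sarg (ed hn hv a)) := by
      rw [fourier_apply, fourier_apply, smul_neg, neg_smul]
    rw [e1]
    ring
  have hba := bad_bound (ua := fourier (-k) (sarg (ed hn hv a)))
    (ub := fourier (-k) (sarg (ed hn hv b))) (norm_fourier_pt _ _) h0'
  have hbb := bad_bound (ua := fourier (-k) (sarg (ed hn hv b)))
    (ub := fourier (-k) (sarg (ed hn hv a))) (norm_fourier_pt _ _)
    (show I * rb * (fourier (-k) (sarg (ed hn hv b)) : ℂ) +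
      I * ra * (fourier (-k) (sarg (ed hn hv a)) : ℂ) = -S by rw [← h0']; ring)
  have hfba : (fourier (-k) (sarg (ed hn hv b)) : ℂ) *
      conj (fourier (-k) (sarg (ed hn hv a)) : ℂ) = rho (k • t) := by
    have := congrArg conj hfab
    rw [map_mul, conj_conj, conj_conj] at this
    rw [← this, mul_comm]
  rw [hfab, conj_im, abs_neg] at hba
  rw [hfba] at hbb
  have hfa : f a k ≤ σ / d := by
    have e1 : f a k = |ra| := by
      simp only [hf]
      rw [hra, norm_mul, norm_mul, norm_I, norm_fourier_pt, one_mul, mul_one, norm_real,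
        Real.norm_eq_abs]
    rw [e1, le_div_iff₀ hd0]
    exact hba.trans hSn
  have hfb : f b k ≤ σ / d := by
    have e1 : f b k = |rb| := by
      simp only [hf]
      rw [hrb, norm_mul, norm_mul, norm_I, norm_fourier_pt, one_mul, mul_one, norm_real,
        Real.norm_eq_abs]
    rw [e1, le_div_iff₀ hd0]
    exact hbb.trans hSn
  have hgoodi : ∀ i, i ≠ a → i ≠ b → f i k ≤ σ := fun i hia hib =>
    Finset.single_le_sum (f := fun i => f i k) (fun i _ => f0 i) ((hmem i).2 ⟨hib, hia⟩)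
  have h1 := hA (fun i => cN (gam v F i) k) σ (σ / d) hσ0 hσd ?_ ?_
  · calc (k : ℝ) ^ 2 * ‖Ar hn hv (fun i => cN (gam v F i) k)‖
        ≤ (k : ℝ) ^ 2 * (C * (σ * (σ / d))) := by gcongr
      _ = C * ((k : ℝ) ^ 2 * d⁻¹ * σ ^ 2) := by
          rw [div_eq_mul_inv]; ring
  · intro i hia hib
    rw [← cN_Mf hn hv hF hhom i k]
    exact hgoodi i hia hib
  · intro i
    rw [← cN_Mf hn hv hF hhom i k]
    change f i k ≤ σ / d
    by_cases hia : i = a
    · rw [hia]; exact hfa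
    · by_cases hib : i = b
      · rw [hib]; exact hfb
      · exact (hgoodi i hia hib).trans hσd

/-- From irrationality of the quotient to nonvanishing of the small divisors. -/
theorem im_ne_of_irr {x y : ℂ} (hx : x ≠ 0) (hy : y ≠ 0)
    (hirr : ∀ m : ℕ, 0 < m → ((x / y) ^ m).im ≠ 0) (k : ℤ) (hk : k ≠ 0) :
    (rho (k • (sarg x - sarg y))).im ≠ 0 := by
  have hxn : (‖x‖ : ℂ) ≠ 0 := by exact_mod_cast norm_ne_zero_iff.2 hx
  have hyn : (‖y‖ : ℂ) ≠ 0 := by exact_mod_cast norm_ne_zero_iff.2 hy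
  have h1 : x / y = ((‖x‖ / ‖y‖ : ℝ) : ℂ) * rho (sarg x - sarg y) := by
    rw [sub_eq_add_neg, rho_add, rho_neg]
    have h6 : conj (rho (sarg y)) * rho (sarg y) = 1 := conj_mul_self' (norm_rho _)
    rw [div_eq_iff hy]
    calc x = (‖x‖ : ℂ) * rho (sarg x) := (rho_sarg x).symm
      _ = ((‖x‖ : ℂ) / ‖y‖) * ‖y‖ * rho (sarg x) * (conj (rho (sarg y)) * rho (sarg y)) := by
          rw [h6, div_mul_cancel₀ _ hyn, mul_one]
      _ = (((‖x‖ / ‖y‖ : ℝ) : ℂ) * (rho (sarg x) * conj (rho (sarg y)))) *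
          ((‖y‖ : ℂ) * rho (sarg y)) := by push_cast; ring
      _ = _ := by rw [rho_sarg y]
  have hnat : ∀ m : ℕ, 0 < m → (rho ((m : ℤ) • (sarg x - sarg y))).im ≠ 0 := by
    intro m hm h
    apply hirr m hm
    have h2 : rho ((m : ℤ) • (sarg x - sarg y)) = rho (sarg x - sarg y) ^ m := by
      unfold rho
      rw [natCast_zsmul, toCircle_nsmul, Circle.coe_pow]
    rw [h1, mul_pow, ← ofReal_pow, ← h2, im_ofReal_mul, h, mul_zero]
  rcases lt_trichotomy k 0 with h | h | h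
  · intro hcon
    obtain ⟨m, hm⟩ := Int.eq_ofNat_of_zero_le (show 0 ≤ -k by omega)
    have hm0 : 0 < m := by omega
    have h3 := hnat m hm0
    apply h3
    rw [← hm, neg_smul, rho_neg, conj_im, hcon, neg_zero]
  · exact absurd h hk
  · obtain ⟨m, hm⟩ := Int.eq_ofNat_of_zero_le h.le
    rw [hm]
    exact hnat m (by omega)

/-- Two exceptional sides at a good angle, Hölder derivatives. -/
theorem holder_case (hn : 3 ≤ n) (hv : ConvexIndependent ℝ v) {A B : Set (ℂ × ℂ)}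
    (hA : MeasurableSet A) (hB : MeasurableSet B)
    (hconeA : ∀ x w : ℂ, ∀ c : ℝ, 0 < c → ((x, w) ∈ A ↔ (x, (c : ℂ) * w) ∈ A))
    (hconeB : ∀ x w : ℂ, ∀ c : ℝ, 0 < c → ((x, w) ∈ B ↔ (x, (c : ℂ) * w) ∈ B))
    (HA : ∀ᵐ p ∂(volume : Measure (ℂ × ℂ)), HypAt v A p)
    (HB : ∀ᵐ p ∂(volume : Measure (ℂ × ℂ)), HypAt v B p) (X : Set ℂ) {a b a' b' : Fin n}
    (ha : IsSide v a a') (hb : IsSide v b b') (hab : a ≠ b)
    (hirr : ∀ m : ℕ, 0 < m → (((v a' - v a) / (v b' - v b)) ^ m).im ≠ 0)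
    (hSD : sarg (v a' - v a) - sarg (v b' - v b) ∈ SD)
    (hc : ∀ i j, IsSide v i j → i ≠ a → i ≠ b → ∃ (φ : ℝ → ℝ) (α C : ℝ), Differentiable ℝ φ ∧
      1 / 2 < α ∧ α ≤ 1 ∧ (∀ x y : ℝ, |deriv φ x - deriv φ y| ≤ C * |x - y| ^ α) ∧
      GoodSide v A B i j φ) :
    volume ({p : ℂ × ℂ | ¬ (p ∈ A ↔ p ∈ B)} ∩ (PP v ×ˢ X)) = 0 ∨
    (volume (A ∩ (PP v ×ˢ X)) = 0 ∧ volume ((PP v ×ˢ X) \ B) = 0) ∨
    (volume ((PP v ×ˢ X) \ A) = 0 ∧ volume (B ∩ (PP v ×ˢ X)) = 0) := by
  have hna : nxt hn hv a = a' := next_unique (nxt_side hn hv a) ha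
  have hnb : nxt hn hv b = b' := next_unique (nxt_side hn hv b) hb
  have hea : ed hn hv a = v a' - v a := by unfold ed; rw [hna]
  have heb : ed hn hv b = v b' - v b := by unfold ed; rw [hnb]
  have hne : ∀ i, ed hn hv i ≠ 0 := fun i => v_sub_ne hv (nxt_side hn hv i).ne
  refine conclude hn hv hA hB hconeA hconeB HA HB X (fun F hF hhom hs hgs => ?_)
  refine sum_case3 hn hv hF hhom hs hab ?_ (fun i hia hib => ?_)
  · rw [hea, heb]
    exact im_ne_of_irr (by rw [← hea]; exact hne a) (by rw [← heb]; exact hne b) hirr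
  · obtain ⟨φ, α, C, hd, hα, hα1, hC, hg⟩ := hc i (nxt hn hv i) (nxt_side hn hv i) hia hib
    obtain ⟨hL, C', hC', hdec⟩ := decay_holder hd (by linarith) hα1 hC
    have h1 := hgs i φ hg
    have h2 : ∀ k, ‖cN (Mf F (v i) (ed hn hv i)) k‖ = ‖ed hn hv i‖ * ‖cm (m0 φ) k‖ := by
      intro k
      rw [cN_congr (Mf_hom1 hF hhom _ _) (Nf_hom1 _ hL) h1 k, cN_Nf (hne i)]
    rw [hea, heb]
    simp_rw [h2]
    refine ((summable_sd hSD hα hdec).mul_left (‖ed hn hv i‖ ^ 2)).congr (fun k => ?_)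
    ring

end Pool.Agent.Lib.BilS
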