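import Pool.Agent.Lib.MP_7bc51d_an_smooth.Cycle
import Mathlib.Analysis.Fourier.AddCircle

set_option autoImplicit false

namespace Pool.Agent.Lib.BilS

open Complex MeasureTheory Set Filter AddCircle
open scoped ComplexConjugate Topology ENNReal
open Pool.Agent.Lib.Bil Pool.Agent.Lib.BilM

instance instTwoPi : Fact (0 < 2 * Real.pi) := ⟨Real.two_pi_pos⟩

/-- The circle of rotation angles. -/
abbrev TT : Type := AddCircle (2 * Real.pi)

/-- The unit complex number of angle `t`. -/
noncomputable def rho (t : TT) : ℂ := (toCircle t : ℂ)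

theorem norm_rho (t : TT) : ‖rho t‖ = 1 := Circle.norm_coe _

theorem rho_add (s t : TT) : rho (s + t) = rho s * rho t := by
  unfold rho; rw [toCircle_add, Circle.coe_mul]

theorem continuous_rho : Continuous rho :=
  continuous_subtype_val.comp continuous_toCircle

theorem rho_coe (x : ℝ) : rho (x : TT) = Complex.exp (x * I) := by
  unfold rho
  rw [toCircle_apply_mk, Circle.coe_exp]
  congr 2
  have : (2 * Real.pi) ≠ 0 := Real.two_pi_pos.ne'
  field_simp

theorem rho_ne (t : TT) : rho t ≠ 0 := by
  intro h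
  have := norm_rho t
  rw [h, norm_zero] at this
  exact zero_ne_one this

theorem rho_inj {s t : TT} (h : rho s = rho t) : s = t :=
  injective_toCircle Real.two_pi_pos.ne' (Circle.ext h)

/-- The angle of a complex number. -/
noncomputable def sarg (w : ℂ) : TT := ((Complex.arg w : ℝ) : TT)

theorem rho_sarg (w : ℂ) : (‖w‖ : ℂ) * rho (sarg w) = w := by
  unfold sarg
  rw [rho_coe]
  exact Complex.norm_mul_exp_arg_mul_I w

theorem sarg_rot (t : TT) {w : ℂ} (hw : w ≠ 0) : sarg (rho t * w) = t + sarg w := by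
  apply rho_inj
  have h1 := rho_sarg (rho t * w)
  rw [norm_mul, norm_rho, one_mul] at h1
  have h2 := rho_sarg w
  have h3 : (‖w‖ : ℂ) ≠ 0 := by exact_mod_cast norm_ne_zero_iff.2 hw
  apply mul_left_cancel₀ h3
  rw [h1, rho_add]
  calc rho t * w = rho t * ((‖w‖ : ℂ) * rho (sarg w)) := by rw [h2]
    _ = _ := by ring

theorem measurable_sarg : Measurable sarg := by
  have h1 : Continuous (fun x : ℝ => (x : TT)) := AddCircle.continuous_mk' _
  exact h1.measurable.comp Complex.measurable_arg

theorem fourier_add_pt (k : ℤ) (s t : TT) :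
    (fourier k (s + t) : ℂ) = fourier k s * fourier k t := by
  rw [fourier_apply, fourier_apply, fourier_apply, smul_add, toCircle_add, Circle.coe_mul]

theorem fourier_mul_neg (k : ℤ) (s : TT) : (fourier k s : ℂ) * fourier (-k) s = 1 := by
  rw [← fourier_add, add_neg_cancel, fourier_zero]

theorem norm_fourier_pt (k : ℤ) (s : TT) : ‖(fourier k s : ℂ)‖ = 1 := by
  rw [fourier_apply]; exact Circle.norm_coe _

/-- Measurable functions on the plane, positively homogeneous of degree one. -/
structure Hom1 (N : ℂ → ℝ) : Prop where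
  meas : Measurable N
  hom : ∀ r : ℝ, 0 < r → ∀ w, N ((r : ℂ) * w) = r * N w
  bd : ∃ C : ℝ, 0 ≤ C ∧ ∀ w, |N w| ≤ C * ‖w‖

/-- Fourier coefficients of a homogeneous function. -/
noncomputable def cN (N : ℂ → ℝ) (k : ℤ) : ℂ :=
  fourierCoeff (fun t : TT => ((N (rho t) : ℝ) : ℂ)) k

/-- The homogeneous harmonics. -/
noncomputable def ek (k : ℤ) (w : ℂ) : ℂ := (‖w‖ : ℂ) * fourier k (sarg w)

theorem measurable_ek (k : ℤ) : Measurable (ek k) := by
  unfold ek
  have h1 : Measurable (fun w : ℂ => ((‖w‖ : ℝ) : ℂ)) :=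
    Complex.measurable_ofReal.comp measurable_norm
  exact h1.mul ((map_continuous (fourier k)).measurable.comp measurable_sarg)

theorem norm_ek (k : ℤ) (w : ℂ) : ‖ek k w‖ = ‖w‖ := by
  unfold ek
  rw [norm_mul, norm_fourier_pt, mul_one, norm_real, norm_norm]

theorem ek_rot (k : ℤ) (t : TT) (w : ℂ) : ek k (rho t * w) = fourier k t * ek k w := by
  by_cases hw : w = 0
  · subst hw
    simp [ek]
  · unfold ek
    rw [norm_mul, norm_rho, one_mul, sarg_rot t hw, fourier_add_pt]
    ring

theorem ek_mul_neg (k : ℤ) (w : ℂ) : ek k w * ek (-k) w = (‖w‖ : ℂ) ^ 2 := by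
  unfold ek
  have := fourier_mul_neg k (sarg w)
  calc _ = (‖w‖ : ℂ) ^ 2 * (fourier k (sarg w) * fourier (-k) (sarg w)) := by ring
    _ = _ := by rw [this, mul_one]

/-- Rotation integral over the circle of a homogeneous function. -/
theorem inner_int {N : ℂ → ℝ} (hN : Hom1 N) (k : ℤ) (w : ℂ) :
    ∫ t : TT, fourier (-k) t * ((N (rho t * w) : ℝ) : ℂ) ∂haarAddCircle = ek k w * cN N k := by
  by_cases hw : w = 0
  · subst hw
    obtain ⟨C, hC, hb⟩ := hN.bd
    have h0 : N 0 = 0 := by
      have := hb 0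
      rw [norm_zero, mul_zero] at this
      exact abs_eq_zero.1 (le_antisymm this (abs_nonneg _))
    simp [h0, ek]
  · have hwn : 0 < ‖w‖ := norm_pos_iff.2 hw
    have h1 : ∀ t : TT, N (rho t * w) = ‖w‖ * N (rho (t + sarg w)) := by
      intro t
      rw [← hN.hom _ hwn, rho_add]
      congr 1
      calc rho t * w = rho t * ((‖w‖ : ℂ) * rho (sarg w)) := by rw [rho_sarg]
        _ = _ := by ring
    have h2 : ∀ t : TT, (fourier (-k) t : ℂ) * ((N (rho t * w) : ℝ) : ℂ) =
        ek k w * (fourier (-k) (t + sarg w) * ((N (rho (t + sarg w)) : ℝ) : ℂ)) := by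
      intro t
      rw [h1, fourier_add_pt, ek]
      have h3 := fourier_mul_neg k (sarg w)
      push_cast
      calc _ = (‖w‖ : ℂ) * (fourier (-k) t * (N (rho (t + sarg w)) : ℂ)) * 1 := by ring
        _ = (‖w‖ : ℂ) * (fourier (-k) t * (N (rho (t + sarg w)) : ℂ)) *
            (fourier k (sarg w) * fourier (-k) (sarg w)) := by rw [h3]
        _ = _ := by ring
    simp_rw [h2]
    rw [integral_const_mul]
    congr 1
    rw [integral_add_right_eq_self (μ := haarAddCircle)
      (fun t : TT => (fourier (-k) t : ℂ) * ((N (rho t) : ℝ) : ℂ))]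
    rfl

theorem int_prod {g : ℂ × TT → ℂ} (hg : Measurable g) {C : ℝ}
    (hb : ∀ w ∈ BV, ∀ t, ‖g (w, t)‖ ≤ C) :
    Integrable g ((volume.restrict BV).prod (haarAddCircle : Measure TT)) := by
  have : IsFiniteMeasure (volume.restrict BV : Measure ℂ) :=
    ⟨by rw [Measure.restrict_apply_univ]; exact measure_ball_lt_top⟩
  have h1 : Integrable (fun _ : ℂ × TT => C)
      ((volume.restrict BV).prod (haarAddCircle : Measure TT)) := integrable_const C
  refine Integrable.mono' h1 hg.aestronglyMeasurable ?_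
  have h2 : (volume.restrict BV).prod (haarAddCircle : Measure TT) =
      ((volume : Measure ℂ).prod haarAddCircle).restrict (BV ×ˢ univ) := by
    rw [← Measure.prod_restrict, Measure.restrict_univ]
  rw [h2, ae_restrict_iff' (measurableSet_ball.prod MeasurableSet.univ)]
  exact Eventually.of_forall (fun p hp => hb p.1 hp.1 p.2)

theorem measurable_rho : Measurable rho := continuous_rho.measurable

theorem meas_N_rot {N : ℂ → ℝ} (hN : Measurable N) :
    Measurable (fun p : ℂ × TT => ((N (rho p.2 * p.1) : ℝ) : ℂ)) :=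
  Complex.measurable_ofReal.comp
    (hN.comp ((measurable_rho.comp measurable_snd).mul measurable_fst))

theorem rot_integral_C {ρ : ℂ} (hρ : ‖ρ‖ = 1) (g : ℂ → ℂ) :
    ∫ w in BV, g (ρ * w) = ∫ w in BV, g w := by
  have h := (mp_mul hρ).restrict_preimage (s := BV) measurableSet_ball
  rw [rot_preimage_BV hρ] at h
  have hemb : MeasurableEmbedding (fun z : ℂ => ρ * z) :=
    (mulEquiv ρ hρ).toHomeomorph.measurableEmbedding
  exact h.integral_comp hemb g

/-- The normalisation constant. -/
noncomputable def kap : ℂ := ∫ w in BV, (‖w‖ : ℂ) ^ 2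

/-- Integral of a homogeneous function against a harmonic. -/
theorem ball_int {M : ℂ → ℝ} (hM : Hom1 M) (k : ℤ) :
    ∫ w in BV, ((M w : ℝ) : ℂ) * ek k w = kap * cN M (-k) := by
  obtain ⟨C, hC, hb⟩ := hM.bd
  set J : ℂ → TT → ℂ := fun w t => ek k w * (fourier k t * ((M (rho t * w) : ℝ) : ℂ)) with hJ
  have hJm : Measurable (Function.uncurry J) := by
    rw [hJ]
    exact ((measurable_ek k).comp measurable_fst).mul
      (((map_continuous (fourier k)).measurable.comp measurable_snd).mul (meas_N_rot hM.meas))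
  have hJi : Integrable (Function.uncurry J)
      ((volume.restrict BV).prod (haarAddCircle : Measure TT)) := by
    refine int_prod hJm (C := C) ?_
    intro w hw t
    have h1 := norm_lt_of_BV hw
    simp only [Function.uncurry, hJ]
    rw [norm_mul, norm_mul, norm_ek, norm_fourier_pt, one_mul, norm_real, Real.norm_eq_abs]
    have h2 := hb (rho t * w)
    rw [norm_mul, norm_rho, one_mul] at h2
    have h3 : ‖w‖ * |M (rho t * w)| ≤ 1 * (C * 1) := by
      gcongr
      exact h2.trans (by gcongr)
    linarith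
  have h1 : ∫ w in BV, (∫ t : TT, J w t ∂haarAddCircle) = kap * cN M (-k) := by
    have h2 : ∀ w : ℂ, ∫ t : TT, J w t ∂haarAddCircle = (‖w‖ : ℂ) ^ 2 * cN M (-k) := by
      intro w
      simp only [hJ]
      rw [integral_const_mul]
      have h3 := inner_int hM (-k) w
      rw [neg_neg] at h3
      rw [h3, ← mul_assoc, ek_mul_neg]
    simp_rw [h2]
    rw [integral_mul_const]
    rfl
  rw [← h1, integral_integral_swap hJi]
  have h4 : ∀ t : TT, ∫ w in BV, J w t = ∫ w in BV, ((M w : ℝ) : ℂ) * ek k w := by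
    intro t
    rw [← rot_integral_C (norm_rho t) (fun w => ((M w : ℝ) : ℂ) * ek k w)]
    apply integral_congr_ae
    refine Eventually.of_forall (fun w => ?_)
    simp only [hJ]
    rw [ek_rot]
    ring
  simp_rw [h4]
  simp

/-- Fourier coefficients of the rotation correlation. -/
theorem corr_coeff {M N : ℂ → ℝ} (hM : Hom1 M) (hN : Hom1 N) (k : ℤ) :
    fourierCoeff (fun t : TT => ((∫ w in BV, M w * N (rho t * w) : ℝ) : ℂ)) k =
      kap * (cN M (-k) * cN N k) := by
  obtain ⟨C, hC, hb⟩ := hM.bd
  obtain ⟨C', hC', hb'⟩ := hN.bd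
  set J : TT → ℂ → ℂ := fun t w => ((M w : ℝ) : ℂ) * (fourier (-k) t * ((N (rho t * w) : ℝ) : ℂ))
    with hJ
  have hJm : Measurable (fun p : ℂ × TT => J p.2 p.1) := by
    rw [hJ]
    exact (Complex.measurable_ofReal.comp (hM.meas.comp measurable_fst)).mul
      (((map_continuous (fourier (-k))).measurable.comp measurable_snd).mul (meas_N_rot hN.meas))
  have hJi : Integrable (fun p : ℂ × TT => J p.2 p.1)
      ((volume.restrict BV).prod (haarAddCircle : Measure TT)) := by
    refine int_prod hJm (C := C * C') ?_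
    intro w hw t
    have h1 := norm_lt_of_BV hw
    simp only [hJ]
    rw [norm_mul, norm_mul, norm_fourier_pt, one_mul, norm_real, norm_real, Real.norm_eq_abs,
      Real.norm_eq_abs]
    have h2 := hb' (rho t * w)
    rw [norm_mul, norm_rho, one_mul] at h2
    have h3 : |M w| * |N (rho t * w)| ≤ (C * 1) * (C' * 1) := by
      gcongr
      · exact (hb w).trans (by gcongr)
      · exact h2.trans (by gcongr)
    linarith
  have h1 : fourierCoeff (fun t : TT => ((∫ w in BV, M w * N (rho t * w) : ℝ) : ℂ)) k =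
      ∫ t : TT, (∫ w in BV, J t w) ∂haarAddCircle := by
    unfold fourierCoeff
    apply integral_congr_ae
    refine Eventually.of_forall (fun t => ?_)
    simp only [hJ]
    rw [← integral_complex_ofReal, smul_eq_mul, ← integral_const_mul]
    apply integral_congr_ae
    refine Eventually.of_forall (fun w => ?_)
    simp only
    push_cast
    ring
  rw [h1]
  have h2 := integral_integral_swap (μ := volume.restrict BV) (ν := (haarAddCircle : Measure TT))
    (f := fun w t => J t w) hJi
  rw [← h2]
  have h3 : ∀ w : ℂ, ∫ t : TT, J t w ∂haarAddCircle = ((M w : ℝ) : ℂ) * ek k w * cN N k := by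
    intro w
    simp only [hJ]
    rw [integral_const_mul, inner_int hN k w]
    ring
  simp_rw [h3]
  rw [integral_mul_const, ball_int hM k]
  ring

theorem cN_neg (M : ℂ → ℝ) (k : ℤ) : cN M (-k) = conj (cN M k) := by
  unfold cN fourierCoeff
  rw [← integral_conj]
  apply integral_congr_ae
  refine Eventually.of_forall (fun t => ?_)
  simp only [smul_eq_mul, map_mul, conj_ofReal, ← fourier_neg]

/-- Homogeneous functions that agree almost everywhere have the same Fourier coefficients. -/
theorem kap_ne : kap ≠ 0 := by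
  unfold kap
  have h1 : ∫ w in BV, (‖w‖ : ℂ) ^ 2 = ((∫ w in BV, ‖w‖ ^ 2 : ℝ) : ℂ) := by
    rw [← integral_complex_ofReal]
    apply integral_congr_ae
    refine Eventually.of_forall (fun w => ?_)
    push_cast
    rfl
  rw [h1]
  intro h
  have h2 : ∫ w in BV, ‖w‖ ^ 2 = 0 := by exact_mod_cast h
  have hint : IntegrableOn (fun w : ℂ => ‖w‖ ^ 2) BV := by
    refine intOn_ball (measurable_norm.pow_const 2) (C := 1) ?_
    intro w hw
    have := norm_lt_of_BV hw
    rw [abs_of_nonneg (by positivity)]
    have h0 := norm_nonneg w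
    nlinarith
  rw [setIntegral_eq_zero_iff_of_nonneg_ae
    (Eventually.of_forall (fun w => by positivity)) hint] at h2
  rw [EventuallyEq, ae_restrict_iff' measurableSet_ball] at h2
  have h3 : ∀ᵐ w : ℂ, w ≠ 0 := by
    rw [ae_iff]; simp
  have h4 : volume BV = 0 := by
    rw [measure_eq_zero_iff_ae_notMem]
    filter_upwards [h2, h3] with w k1 k2 hw
    have := k1 hw
    simp only [Pi.zero_apply] at this
    exact k2 (norm_eq_zero.1 (pow_eq_zero_iff two_ne_zero |>.1 this))
  exact (Metric.measure_ball_pos volume (0 : ℂ) one_pos).ne' h4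

theorem cN_congr {M N : ℂ → ℝ} (hM : Hom1 M) (hN : Hom1 N) (h : ∀ᵐ w, M w = N w) (k : ℤ) :
    cN M k = cN N k := by
  have h1 := ball_int hM (-k)
  have h2 := ball_int hN (-k)
  rw [neg_neg] at h1 h2
  have h3 : ∫ w in BV, ((M w : ℝ) : ℂ) * ek (-k) w = ∫ w in BV, ((N w : ℝ) : ℂ) * ek (-k) w := by
    apply integral_congr_ae
    apply ae_restrict_of_ae
    filter_upwards [h] with w hw
    rw [hw]
  rw [h1, h2] at h3
  exact mul_left_cancel₀ kap_ne h3

end Pool.Agent.Lib.BilS
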