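import Pool.Agent.Lib.MP_7bc51d_an_smooth.Circ

set_option autoImplicit false

namespace Pool.Agent.Lib.BilS

open Complex MeasureTheory Set Filter AddCircle
open scoped ComplexConjugate Topology ENNReal NNReal
open Pool.Agent.Lib.Bil Pool.Agent.Lib.BilM

/-- Parseval's inequality for bounded measurable functions on the circle. -/
theorem bessel {m : TT → ℝ} (hm : Measurable m) {B : ℝ} (hb : ∀ t, |m t| ≤ B) (S : Finset ℤ) :
    ∑ k ∈ S, ‖fourierCoeff (fun t : TT => ((m t : ℝ) : ℂ)) k‖ ^ 2 ≤ B ^ 2 := by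
  have hB : 0 ≤ B := (abs_nonneg _).trans (hb 0)
  have hmem : MemLp (fun t : TT => ((m t : ℝ) : ℂ)) 2 (haarAddCircle : Measure TT) := by
    refine MemLp.of_bound (C := B) (Complex.measurable_ofReal.comp hm).aestronglyMeasurable ?_
    refine Eventually.of_forall (fun t => ?_)
    rw [norm_real, Real.norm_eq_abs]
    exact hb t
  have h1 := hasSum_sq_fourierCoeff hmem.toLp
  have h2 : fourierCoeff (⇑hmem.toLp) = fourierCoeff (fun t : TT => ((m t : ℝ) : ℂ)) :=
    fourierCoeff_congr_ae hmem.coeFn_toLp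
  rw [h2] at h1
  have h3 : ∑ k ∈ S, ‖fourierCoeff (fun t : TT => ((m t : ℝ) : ℂ)) k‖ ^ 2 ≤
      ∫ t : TT, ‖(⇑hmem.toLp : TT → ℂ) t‖ ^ 2 ∂haarAddCircle := by
    have := h1.summable.sum_le_tsum S (fun k _ => by positivity)
    rwa [h1.tsum_eq] at this
  refine h3.trans ?_
  have h4 : ∫ t : TT, ‖(⇑hmem.toLp : TT → ℂ) t‖ ^ 2 ∂haarAddCircle ≤
      ∫ t : TT, B ^ 2 ∂haarAddCircle := by
    apply integral_mono_of_nonneg
    · exact Eventually.of_forall (fun t => by positivity)
    · exact integrable_const _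
    · filter_upwards [hmem.coeFn_toLp] with t ht
      rw [ht, norm_real, Real.norm_eq_abs]
      have := hb t
      have h0 := abs_nonneg (m t)
      nlinarith
  refine h4.trans ?_
  simp

theorem summable_sq {m : TT → ℝ} (hm : Measurable m) {B : ℝ} (hb : ∀ t, |m t| ≤ B) :
    Summable (fun k : ℤ => ‖fourierCoeff (fun t : TT => ((m t : ℝ) : ℂ)) k‖ ^ 2) :=
  summable_of_sum_le (fun k => by positivity) (bessel hm hb)

theorem coeff_shift (m : TT → ℝ) (s : TT) (k : ℤ) :
    fourierCoeff (fun t : TT => ((m (t + s) : ℝ) : ℂ)) k =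
      fourier k s * fourierCoeff (fun t : TT => ((m t : ℝ) : ℂ)) k := by
  unfold fourierCoeff
  rw [← integral_const_mul, ← integral_add_right_eq_self (μ := haarAddCircle)
    (fun t : TT => (fourier k s : ℂ) * ((fourier (-k) t : ℂ) • ((m t : ℝ) : ℂ))) s]
  apply integral_congr_ae
  refine Eventually.of_forall (fun t => ?_)
  simp only [smul_eq_mul]
  rw [fourier_add_pt]
  have h3 := fourier_mul_neg k s
  calc _ = (fourier (-k) t * (m (t + s) : ℂ)) * 1 := by ring
    _ = (fourier (-k) t * (m (t + s) : ℂ)) * (fourier k s * fourier (-k) s) := by rw [h3]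
    _ = _ := by ring

theorem integrable_bdd {m : TT → ℝ} (hm : Measurable m) {B : ℝ} (hb : ∀ t, |m t| ≤ B) :
    Integrable (fun t : TT => ((m t : ℝ) : ℂ)) haarAddCircle := by
  refine Integrable.mono' (integrable_const B)
    (Complex.measurable_ofReal.comp hm).aestronglyMeasurable ?_
  refine Eventually.of_forall (fun t => ?_)
  rw [norm_real, Real.norm_eq_abs]
  exact hb t

theorem fourier_real (k : ℤ) (h : ℝ) :
    (fourier k ((h : ℝ) : TT) : ℂ) = Complex.exp ((k : ℂ) * I * h) := by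
  rw [fourier_coe_apply]
  congr 1
  have : (Real.pi : ℂ) ≠ 0 := by exact_mod_cast Real.pi_ne_zero
  push_cast
  field_simp

/-- Lipschitz functions on the circle have square summable derivative coefficients. -/
theorem lip_summable {m : TT → ℝ} (hm : Measurable m) {B K : ℝ} (hb : ∀ t, |m t| ≤ B)
    (hK : ∀ (t : TT) (h : ℝ), |m (t + (h : TT)) - m t| ≤ K * |h|) :
    Summable (fun k : ℤ => (k : ℝ) ^ 2 *
      ‖fourierCoeff (fun t : TT => ((m t : ℝ) : ℂ)) k‖ ^ 2) := by
  set c : ℤ → ℂ := fourierCoeff (fun t : TT => ((m t : ℝ) : ℂ)) with hc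
  refine summable_of_sum_le (c := K ^ 2) (fun k => by positivity) (fun S => ?_)
  -- the inequality for finite differences
  have h1 : ∀ h : ℝ, 0 < h →
      ∑ k ∈ S, (‖(Complex.exp ((k : ℂ) * I * h) - 1)‖ / h) ^ 2 * ‖c k‖ ^ 2 ≤ K ^ 2 := by
    intro h hh
    have hd : Measurable (fun t : TT => m (t + (h : TT)) - m t) :=
      (hm.comp (measurable_add_const _)).sub hm
    have h2 := bessel hd (B := K * h) (fun t => by
      have := hK t h
      rwa [abs_of_pos hh] at this) S
    have h3 : ∀ k, fourierCoeff (fun t : TT => (((m (t + (h : TT)) - m t : ℝ)) : ℂ)) k =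
        (Complex.exp ((k : ℂ) * I * h) - 1) * c k := by
      intro k
      have e1 : (fun t : TT => (((m (t + (h : TT)) - m t : ℝ)) : ℂ)) =
          (fun t : TT => ((m (t + (h : TT)) : ℝ) : ℂ)) +
            (fun t : TT => ((-1 : ℂ) * ((m t : ℝ) : ℂ))) := by
        funext t
        simp only [Pi.add_apply]
        push_cast
        ring
      have i1 : Integrable (fun t : TT => ((m (t + (h : TT)) : ℝ) : ℂ)) haarAddCircle :=
        integrable_bdd (m := fun t => m (t + (h : TT))) (hm.comp (measurable_add_const (h : TT)))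
        (B := B) (fun t => hb _)
      have i2 := (integrable_bdd hm hb).const_mul (-1 : ℂ)
      rw [e1, fourierCoeff.add i1 i2, Pi.add_apply, fourierCoeff.const_mul]
      have e2 := coeff_shift m (h : TT) k
      have e3 : fourierCoeff (fun t : TT => ((m (t + (h : TT)) : ℝ) : ℂ)) k =
          fourier k (h : TT) * c k := e2
      rw [e3, fourier_real]
      ring
    simp_rw [h3] at h2
    have h4 : ∀ k : ℤ, (‖(Complex.exp ((k : ℂ) * I * h) - 1)‖ / h) ^ 2 * ‖c k‖ ^ 2 =
        (1 / h ^ 2) * ‖(Complex.exp ((k : ℂ) * I * h) - 1) * c k‖ ^ 2 := by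
      intro k
      rw [norm_mul]
      field_simp
    simp_rw [h4]
    rw [← Finset.mul_sum]
    calc (1 / h ^ 2) * ∑ k ∈ S, ‖(Complex.exp ((k : ℂ) * I * h) - 1) * c k‖ ^ 2
        ≤ (1 / h ^ 2) * (K * h) ^ 2 := by gcongr
      _ = K ^ 2 := by field_simp
  -- the limit
  have h5 : ∀ k : ℤ, Tendsto (fun h : ℝ => ‖(Complex.exp ((k : ℂ) * I * h) - 1)‖ / h) (𝓝[>] 0)
      (𝓝 |(k : ℝ)|) := by
    intro k
    have hd : HasDerivAt (fun h : ℝ => Complex.exp ((k : ℂ) * I * h)) ((k : ℂ) * I) 0 := by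
      have h6 : HasDerivAt (fun h : ℝ => (k : ℂ) * I * (h : ℂ)) ((k : ℂ) * I) 0 := by
        have := (Complex.ofRealCLM.hasDerivAt (x := (0 : ℝ))).const_mul ((k : ℂ) * I)
        simpa using this
      have := h6.cexp
      simpa using this
    have h7 := hd.tendsto_slope_zero_right
    have h8 := h7.norm
    have e5 : ‖(k : ℂ) * I‖ = |(k : ℝ)| := by
      rw [norm_mul, norm_I, mul_one]
      have : ((k : ℤ) : ℂ) = ((k : ℝ) : ℂ) := by push_cast; rfl
      rw [this, norm_real, Real.norm_eq_abs]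
    rw [e5] at h8
    refine h8.congr' ?_
    filter_upwards [self_mem_nhdsWithin] with h hh
    have hh' : 0 < h := hh
    simp only [zero_add, ofReal_zero, mul_zero, Complex.exp_zero]
    rw [norm_smul, norm_inv, Real.norm_eq_abs, abs_of_pos hh']
    field_simp
  have h9 : Tendsto (fun h : ℝ => ∑ k ∈ S,
      (‖(Complex.exp ((k : ℂ) * I * h) - 1)‖ / h) ^ 2 * ‖c k‖ ^ 2) (𝓝[>] 0)
      (𝓝 (∑ k ∈ S, |(k : ℝ)| ^ 2 * ‖c k‖ ^ 2)) := by
    apply tendsto_finsetSum
    intro k _
    exact ((h5 k).pow 2).mul_const _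
  have h10 := le_of_tendsto h9 (by
    filter_upwards [self_mem_nhdsWithin] with h hh
    exact h1 h hh)
  simpa [sq_abs] using h10

end Pool.Agent.Lib.BilS
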