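import Pool.Agent.Lib.MP_7bc51d_an_smooth.Main

set_option autoImplicit false

namespace Pool.Agent.Lib.BilS

open Complex MeasureTheory Set Filter AddCircle
open scoped ComplexConjugate Topology ENNReal NNReal
open Pool.Agent.Lib.Bil Pool.Agent.Lib.BilM

variable {n : ℕ} {v : Fin n → ℂ}

/-- The edge vectors. -/
noncomputable abbrev ed (hn : 3 ≤ n) (hv : ConvexIndependent ℝ v) (i : Fin n) : ℂ :=
  v (nxt hn hv i) - v i

theorem summable_sq_sum {ι : Type} (s : Finset ι) {f : ι → ℤ → ℝ} {c : ℤ → ℝ}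
    (hc : ∀ k, 0 ≤ c k) (h : ∀ i ∈ s, Summable (fun k : ℤ => c k * f i k ^ 2)) :
    Summable (fun k : ℤ => c k * (∑ i ∈ s, f i k) ^ 2) := by
  have h1 : Summable (fun k : ℤ => (s.card : ℝ) * ∑ i ∈ s, c k * f i k ^ 2) :=
    (summable_sum h).mul_left _
  refine Summable.of_nonneg_of_le (fun k => mul_nonneg (hc k) (sq_nonneg _)) (fun k => ?_) h1
  have h2 := sq_sum_le_card_mul_sum_sq (s := s) (f := fun i => f i k)
  rw [← Finset.mul_sum]
  calc c k * (∑ i ∈ s, f i k) ^ 2 ≤ c k * ((s.card : ℝ) * ∑ i ∈ s, f i k ^ 2) :=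
        mul_le_mul_of_nonneg_left h2 (hc k)
    _ = _ := by ring

theorem sum_case1 (hn : 3 ≤ n) (hv : ConvexIndependent ℝ v) {F : ℂ → ℝ → ℝ} (hF : LF F)
    (hhom : HomF F) {a b : Fin n} (hab : a ≠ b)
    (hgood : ∀ i, i ≠ a → i ≠ b →
      Summable (fun k : ℤ => (k : ℝ) ^ 4 * ‖cN (Mf F (v i) (ed hn hv i)) k‖ ^ 2)) :
    Summable (fun k : ℤ => (k : ℝ) ^ 2 * ‖Ar hn hv (fun i => cN (gam v F i) k)‖) := by
  classical
  obtain ⟨C, hC, hA⟩ := area_bound hn hv hab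
  set f : Fin n → ℤ → ℝ := fun i k => ‖cN (Mf F (v i) (ed hn hv i)) k‖ with hf
  set s : Finset (Fin n) := (Finset.univ.erase a).erase b with hs
  have hmem : ∀ i, i ∈ s ↔ i ≠ b ∧ i ≠ a := by
    intro i
    rw [hs, Finset.mem_erase, Finset.mem_erase]
    simp
  have s1 : Summable (fun k : ℤ => (k : ℝ) ^ 4 * (∑ i ∈ s, f i k) ^ 2) := by
    apply summable_sq_sum s (fun k => by positivity)
    intro i hi
    rw [hmem] at hi
    exact hgood i hi.2 hi.1
  have s2 : Summable (fun k : ℤ => (1 : ℝ) * (∑ i, f i k) ^ 2) := by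
    apply summable_sq_sum Finset.univ (fun k => zero_le_one)
    intro i _
    have := (Mf_hom1 hF hhom (v i) (ed hn hv i)).summable
    simpa [hf] using this
  have s3 := (s1.add s2).mul_left (C / 2)
  refine Summable.of_nonneg_of_le (fun k => by positivity) (fun k => ?_) s3
  have f0 : ∀ i, 0 ≤ f i k := fun i => norm_nonneg _
  have hμ : 0 ≤ ∑ i ∈ s, f i k := Finset.sum_nonneg (fun i _ => f0 i)
  have hμR : ∑ i ∈ s, f i k ≤ ∑ i, f i k :=
    Finset.sum_le_sum_of_subset_of_nonneg (Finset.subset_univ _) (fun i _ _ => f0 i)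
  have h1 := hA (fun i => cN (gam v F i) k) (∑ i ∈ s, f i k) (∑ i, f i k) hμ hμR ?_ ?_
  · have h2 : (k : ℝ) ^ 2 * ‖Ar hn hv (fun i => cN (gam v F i) k)‖ ≤
        (k : ℝ) ^ 2 * (C * ((∑ i ∈ s, f i k) * ∑ i, f i k)) := by gcongr
    refine h2.trans ?_
    have h3 : 2 * ((k : ℝ) ^ 2 * ∑ i ∈ s, f i k) * (∑ i, f i k) ≤
        ((k : ℝ) ^ 2 * ∑ i ∈ s, f i k) ^ 2 + (∑ i, f i k) ^ 2 := two_mul_le_add_sq _ _
    calc (k : ℝ) ^ 2 * (C * ((∑ i ∈ s, f i k) * ∑ i, f i k))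
        = C / 2 * (2 * ((k : ℝ) ^ 2 * ∑ i ∈ s, f i k) * (∑ i, f i k)) := by ring
      _ ≤ C / 2 * (((k : ℝ) ^ 2 * ∑ i ∈ s, f i k) ^ 2 + (∑ i, f i k) ^ 2) := by gcongr
      _ = _ := by ring
  · intro i hia hib
    rw [← cN_Mf hn hv hF hhom i k]
    exact Finset.single_le_sum (f := fun i => f i k) (fun i _ => f0 i) ((hmem i).2 ⟨hib, hia⟩)
  · intro i
    rw [← cN_Mf hn hv hF hhom i k]
    exact Finset.single_le_sum (f := fun i => f i k) (fun i _ => f0 i) (Finset.mem_univ i)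

theorem sum_case2 (hn : 3 ≤ n) (hv : ConvexIndependent ℝ v) {F : ℂ → ℝ → ℝ} (hF : LF F)
    (hhom : HomF F) {a : Fin n}
    (hgood : ∀ i, i ≠ a →
      Summable (fun k : ℤ => (k : ℝ) ^ 2 * ‖cN (Mf F (v i) (ed hn hv i)) k‖ ^ 2)) :
    Summable (fun k : ℤ => (k : ℝ) ^ 2 * ‖Ar hn hv (fun i => cN (gam v F i) k)‖) := by
  classical
  obtain ⟨C, hC, hA⟩ := area_bound2 hn hv
  set f : Fin n → ℤ → ℝ := fun i k => ‖cN (Mf F (v i) (ed hn hv i)) k‖ with hf
  set s : Finset (Fin n) := Finset.univ.erase a with hs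
  have s1 : Summable (fun k : ℤ => (k : ℝ) ^ 2 * (∑ i ∈ s, f i k) ^ 2) := by
    apply summable_sq_sum s (fun k => by positivity)
    intro i hi
    rw [hs, Finset.mem_erase] at hi
    exact hgood i hi.1
  refine Summable.of_nonneg_of_le (fun k => by positivity) (fun k => ?_) (s1.mul_left C)
  have f0 : ∀ i, 0 ≤ f i k := fun i => norm_nonneg _
  have hμ : 0 ≤ ∑ i ∈ s, f i k := Finset.sum_nonneg (fun i _ => f0 i)
  have hall : ∀ i, f i k ≤ ∑ i ∈ s, f i k := by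
    intro i
    by_cases hi : i = a
    · subst hi
      have h0 : ∑ j, cN (Mf F (v j) (ed hn hv j)) k = 0 := by
        simp_rw [cN_Mf hn hv hF hhom]
        rw [Finset.sum_sub_distrib, sum_nxt_C hn hv (fun j => cN (gam v F j) k), sub_self]
      rw [← Finset.add_sum_erase Finset.univ _ (Finset.mem_univ i)] at h0
      have h1 : cN (Mf F (v i) (ed hn hv i)) k =
          - ∑ j ∈ Finset.univ.erase i, cN (Mf F (v j) (ed hn hv j)) k := by
        linear_combination h0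
      change ‖cN (Mf F (v i) (ed hn hv i)) k‖ ≤ _
      rw [h1, norm_neg]
      exact norm_sum_le _ _
    · exact Finset.single_le_sum (f := fun i => f i k) (fun i _ => f0 i)
        (Finset.mem_erase.2 ⟨hi, Finset.mem_univ i⟩)
  have h1 := hA (fun i => cN (gam v F i) k) (∑ i ∈ s, f i k) hμ (fun i => by
    rw [← cN_Mf hn hv hF hhom i k]
    exact hall i)
  calc (k : ℝ) ^ 2 * ‖Ar hn hv (fun i => cN (gam v F i) k)‖
      ≤ (k : ℝ) ^ 2 * (C * ((∑ i ∈ s, f i k) * ∑ i ∈ s, f i k)) := by gcongr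
    _ = _ := by ring

/-- The hypothesis on a good side: the difference of the lit fractions is `φ` of the angle. -/
def GoodSide (v : Fin n → ℂ) (A B : Set (ℂ × ℂ)) (i j : Fin n) (φ : ℝ → ℝ) : Prop :=
  ∀ᵐ w : ℂ, 0 < cr (v j - v i) w →
    (volume (lit v A i j w)).toReal - (volume (lit v B i j w)).toReal =
      φ (Complex.arg (w / (v j - v i)))

theorem div_im (e w : ℂ) : (w / e).im * Complex.normSq e = cr e w := by
  by_cases he : e = 0
  · subst he; simp [cr]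
  have h : Complex.normSq e ≠ 0 := by rwa [ne_eq, Complex.normSq_eq_zero]
  rw [Complex.div_im]
  unfold cr
  field_simp

theorem flux_eq {F : ℂ → ℝ → ℝ} {a e : ℂ} (he : e ≠ 0) (hs : SymAt F a e) {φ : ℝ → ℝ}
    (h : ∀ᵐ w : ℂ, 0 < cr e w → Sm F a e 1 w = φ (Complex.arg (w / e))) :
    ∀ᵐ w : ℂ, Mf F a e w = Nf e φ w := by
  have hq : 0 < Complex.normSq e := Complex.normSq_pos.2 he
  have g1 := (mp_rl he).quasiMeasurePreserving.ae h
  filter_upwards [h, g1, Sm_symm hs, ae_not_mem_line e] with w k1 k2 k3 k4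
  have key : Sm F a e 1 w = φ (|Complex.arg (w / e)|) := by
    rcases lt_trichotomy (cr e w) 0 with h0 | h0 | h0
    · have h5 := cr_rl he e w
      rw [rl_self he] at h5
      have h6 := k2 (by rw [h5]; linarith)
      rw [k3 1 ⟨zero_le_one, le_rfl⟩] at h6
      rw [h6]
      congr 1
      have h7 : rl e w / e = conj (w / e) := by
        unfold rl
        rw [map_div₀]
        have hce : conj e ≠ 0 := by simpa using he
        field_simp
      have h8 : (w / e).im < 0 := by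
        have := div_im e w
        by_contra hcon
        push Not at hcon
        have := mul_nonneg hcon hq.le
        linarith
      have h9 : Complex.arg (w / e) < 0 := Complex.arg_neg_iff.2 h8
      rw [h7, Complex.arg_conj, if_neg (by have := Real.pi_pos; linarith), abs_of_neg h9]
    · exfalso
      apply k4
      obtain ⟨t, ht⟩ := (cr_eq_zero_iff he).1 h0
      rw [Submodule.mem_span_singleton]
      exact ⟨t, by rw [real_smul]; exact ht.symm⟩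
    · rw [k1 h0]
      congr 1
      have h8 : 0 ≤ (w / e).im := by
        have := div_im e w
        by_contra hcon
        push Not at hcon
        have := mul_neg_of_neg_of_pos hcon hq
        linarith
      rw [abs_of_nonneg (Complex.arg_nonneg_iff.2 h8)]
  unfold Mf Nf
  rw [key]
  ring

/-- The common part of the proofs: from the line functions to the conclusion. -/
theorem conclude (hn : 3 ≤ n) (hv : ConvexIndependent ℝ v) {A B : Set (ℂ × ℂ)}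
    (hA : MeasurableSet A) (hB : MeasurableSet B)
    (hconeA : ∀ x w : ℂ, ∀ c : ℝ, 0 < c → ((x, w) ∈ A ↔ (x, (c : ℂ) * w) ∈ A))
    (hconeB : ∀ x w : ℂ, ∀ c : ℝ, 0 < c → ((x, w) ∈ B ↔ (x, (c : ℂ) * w) ∈ B))
    (HA : ∀ᵐ p ∂(volume : Measure (ℂ × ℂ)), HypAt v A p)
    (HB : ∀ᵐ p ∂(volume : Measure (ℂ × ℂ)), HypAt v B p) (X : Set ℂ)
    (hsum : ∀ F : ℂ → ℝ → ℝ, LF F → HomF F →
      (∀ i, SymAt F (v i) (v (nxt hn hv i) - v i)) →
      (∀ i, ∀ φ : ℝ → ℝ, GoodSide v A B i (nxt hn hv i) φ →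
        ∀ᵐ w, Mf F (v i) (ed hn hv i) w = Nf (ed hn hv i) φ w) →
      Summable (fun k : ℤ => (k : ℝ) ^ 2 * ‖Ar hn hv (fun i => cN (gam v F i) k)‖)) :
    volume ({p : ℂ × ℂ | ¬ (p ∈ A ↔ p ∈ B)} ∩ (PP v ×ˢ X)) = 0 ∨
    (volume (A ∩ (PP v ×ˢ X)) = 0 ∧ volume ((PP v ×ˢ X) \ B) = 0) ∨
    (volume ((PP v ×ˢ X) \ A) = 0 ∧ volume (B ∩ (PP v ×ˢ X)) = 0) := by
  have hIA : Inv v A := inv_of_hyp hv HA
  have hIB : Inv v B := inv_of_hyp hv HB
  have hchA := chord_of_hyp (v := v) HA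
  have hchB := chord_of_hyp (v := v) HB
  have hFA := LF_FA (v := v) hA
  have hFB := LF_FA (v := v) hB
  have hne : ∀ i, v (nxt hn hv i) - v i ≠ 0 := fun i => v_sub_ne hv (nxt_side hn hv i).ne
  have hsA : ∀ i, SymAt (FA v A) (v i) (v (nxt hn hv i) - v i) := fun i =>
    symAt_FA hn hv hIA hchA (nxt_side hn hv i)
  have hsB : ∀ i, SymAt (FA v B) (v i) (v (nxt hn hv i) - v i) := fun i =>
    symAt_FA hn hv hIB hchB (nxt_side hn hv i)
  set F : ℂ → ℝ → ℝ := fun w Q => FA v A w Q - FA v B w Q with hFdef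
  have hF01 : ∀ (D : Set (ℂ × ℂ)) w Q, FA v D w Q = 0 ∨ FA v D w Q = 1 := by
    intro D w Q
    unfold FA
    by_cases h : (w, Q) ∈ Lset v D
    · rw [indicator_of_mem h]; right; rfl
    · rw [indicator_of_notMem h]; left; rfl
  have hint : ∀ w Q, F w Q = -1 ∨ F w Q = 0 ∨ F w Q = 1 := by
    intro w Q
    rw [hFdef]
    simp only
    rcases hF01 A w Q with h | h <;> rcases hF01 B w Q with h' | h' <;> rw [h, h'] <;> norm_num
  have hF : LF F := by
    constructor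
    · exact hFA.meas.sub hFB.meas
    · intro w Q
      rcases hint w Q with h | h | h <;> rw [h] <;> norm_num
  have hhom : HomF F := by
    intro r hr w Q
    rw [hFdef]
    simp only
    rw [FA_hom hconeA r hr, FA_hom hconeB r hr]
  have hs : ∀ i, SymAt F (v i) (v (nxt hn hv i) - v i) := by
    intro i
    filter_upwards [hsA i, hsB i] with w k1 k2
    filter_upwards [k1, k2] with τ k3 k4 hτ
    rw [hFdef]
    simp only
    rw [k3 hτ, k4 hτ]
  have hSm : ∀ i w, Sm F (v i) (v (nxt hn hv i) - v i) 1 w =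
      Sm (FA v A) (v i) (v (nxt hn hv i) - v i) 1 w -
        Sm (FA v B) (v i) (v (nxt hn hv i) - v i) 1 w := by
    intro i w
    unfold Sm
    have hii : ∀ {D : Set (ℂ × ℂ)}, LF (FA v D) → IntervalIntegrable
        (fun τ : ℝ => FA v D w (cr w (v i + (τ : ℂ) * (v (nxt hn hv i) - v i)))) volume 0 1 := by
      intro D hD
      have := ii_mul hD (v i) (v (nxt hn hv i) - v i) w (d := fun _ => 1) continuous_const
      simpa using this
    rw [← intervalIntegral.integral_sub (hii hFA) (hii hFB)]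
  have hgs : ∀ i, ∀ φ : ℝ → ℝ, GoodSide v A B i (nxt hn hv i) φ →
        ∀ᵐ w, Mf F (v i) (ed hn hv i) w = Nf (ed hn hv i) φ w := by
    intro i φ hφ
    apply flux_eq (hne i) (hs i)
    filter_upwards [hφ, frac_eq hn hv hA hchA (nxt_side hn hv i),
      frac_eq hn hv hB hchB (nxt_side hn hv i)] with w k1 k2 k3 hw
    rw [hSm, k2 hw, k3 hw]
    exact k1 hw
  have hrot := rot_of_summable hn hv hF hhom hs hint (hsum F hF hhom hs hgs)
  obtain ⟨c, hcc⟩ := const_of_rot hn hv hF hhom (fun ρ _ => hrot ρ)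
  exact ind_diff_cases (ind_of_F hA hB hchA hchB hF (fun _ _ => rfl) hcc) X

theorem lipI_of_lip {φ : ℝ → ℝ} {K : ℝ≥0} (h : LipschitzWith K φ) : LipI φ := by
  refine ⟨h.continuous, K, K.2, fun a _ b _ => ?_⟩
  have := h.dist_le_mul a b
  rwa [Real.dist_eq, Real.dist_eq] at this

theorem lipI_of_deriv {φ : ℝ → ℝ} (hd : Differentiable ℝ φ) {K : ℝ≥0}
    (h : LipschitzWith K (deriv φ)) : LipI φ := by
  refine ⟨hd.continuous, |deriv φ 0| + K * Real.pi, by positivity, fun a ha b hb => ?_⟩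
  have hbd : ∀ x ∈ Icc (0 : ℝ) Real.pi, ‖deriv φ x‖ ≤ |deriv φ 0| + K * Real.pi := by
    intro x hx
    have h1 := h.dist_le_mul x 0
    rw [Real.dist_eq, Real.dist_eq, sub_zero, abs_of_nonneg hx.1] at h1
    have h2 := abs_add_le (deriv φ x - deriv φ 0) (deriv φ 0)
    rw [sub_add_cancel] at h2
    have h3 : (K : ℝ) * x ≤ K * Real.pi := by
      gcongr
      exact hx.2
    rw [Real.norm_eq_abs]
    linarith
  have h4 := (convex_Icc (0 : ℝ) Real.pi).norm_image_sub_le_of_norm_deriv_le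
    (fun x _ => hd x) hbd hb ha
  rwa [Real.norm_eq_abs, Real.norm_eq_abs] at h4

/-- Two exceptional sides. -/
theorem two_sides_case (hn : 3 ≤ n) (hv : ConvexIndependent ℝ v) {A B : Set (ℂ × ℂ)}
    (hA : MeasurableSet A) (hB : MeasurableSet B)
    (hconeA : ∀ x w : ℂ, ∀ c : ℝ, 0 < c → ((x, w) ∈ A ↔ (x, (c : ℂ) * w) ∈ A))
    (hconeB : ∀ x w : ℂ, ∀ c : ℝ, 0 < c → ((x, w) ∈ B ↔ (x, (c : ℂ) * w) ∈ B))
    (HA : ∀ᵐ p ∂(volume : Measure (ℂ × ℂ)), HypAt v A p)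
    (HB : ∀ᵐ p ∂(volume : Measure (ℂ × ℂ)), HypAt v B p) (X : Set ℂ) (a b : Fin n)
    (hc : ∀ i j, IsSide v i j → i ≠ a → i ≠ b → ∃ φ : ℝ → ℝ, Differentiable ℝ φ ∧
      (∃ K : ℝ≥0, LipschitzWith K (deriv φ)) ∧ GoodSide v A B i j φ) :
    volume ({p : ℂ × ℂ | ¬ (p ∈ A ↔ p ∈ B)} ∩ (PP v ×ˢ X)) = 0 ∨
    (volume (A ∩ (PP v ×ˢ X)) = 0 ∧ volume ((PP v ×ˢ X) \ B) = 0) ∨
    (volume ((PP v ×ˢ X) \ A) = 0 ∧ volume (B ∩ (PP v ×ˢ X)) = 0) := by
  -- it is enough to treat distinct exceptional sides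
  obtain ⟨b', hab, hc'⟩ : ∃ b' : Fin n, a ≠ b' ∧ ∀ i j, IsSide v i j → i ≠ a → i ≠ b' →
      ∃ φ : ℝ → ℝ, Differentiable ℝ φ ∧
      (∃ K : ℝ≥0, LipschitzWith K (deriv φ)) ∧ GoodSide v A B i j φ := by
    by_cases hab : a = b
    · have : Nontrivial (Fin n) := Fin.nontrivial_iff_two_le.2 (by omega)
      obtain ⟨b', hb'⟩ := exists_ne a
      exact ⟨b', hb'.symm, fun i j hij hia _ => hc i j hij hia (by rw [← hab]; exact hia)⟩
    · exact ⟨b, hab, hc⟩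
  refine conclude hn hv hA hB hconeA hconeB HA HB X (fun F hF hhom _ hgs => ?_)
  refine sum_case1 hn hv hF hhom hab (fun i hia hib => ?_)
  obtain ⟨φ, hd, ⟨K, hK⟩, hg⟩ := hc' i (nxt hn hv i) (nxt_side hn hv i) hia hib
  have hL := lipI_of_deriv hd hK
  have hL' := lipI_of_lip hK
  have hne : ed hn hv i ≠ 0 := v_sub_ne hv (nxt_side hn hv i).ne
  have h1 := hgs i φ hg
  have h2 : ∀ k, ‖cN (Mf F (v i) (ed hn hv i)) k‖ = ‖ed hn hv i‖ * ‖cm (m0 φ) k‖ := by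
    intro k
    rw [cN_congr (Mf_hom1 hF hhom _ _) (Nf_hom1 _ hL) h1 k, cN_Nf hne]
  simp_rw [h2]
  refine ((summable_four hL hL' hd).mul_left (‖ed hn hv i‖ ^ 2)).congr (fun k => ?_)
  ring

/-- One exceptional side. -/
theorem one_side_case (hn : 3 ≤ n) (hv : ConvexIndependent ℝ v) {A B : Set (ℂ × ℂ)}
    (hA : MeasurableSet A) (hB : MeasurableSet B)
    (hconeA : ∀ x w : ℂ, ∀ c : ℝ, 0 < c → ((x, w) ∈ A ↔ (x, (c : ℂ) * w) ∈ A))
    (hconeB : ∀ x w : ℂ, ∀ c : ℝ, 0 < c → ((x, w) ∈ B ↔ (x, (c : ℂ) * w) ∈ B))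
    (HA : ∀ᵐ p ∂(volume : Measure (ℂ × ℂ)), HypAt v A p)
    (HB : ∀ᵐ p ∂(volume : Measure (ℂ × ℂ)), HypAt v B p) (X : Set ℂ) (a : Fin n)
    (hc : ∀ i j, IsSide v i j → i ≠ a → ∃ φ : ℝ → ℝ,
      (∃ K : ℝ≥0, LipschitzWith K φ) ∧ GoodSide v A B i j φ) :
    volume ({p : ℂ × ℂ | ¬ (p ∈ A ↔ p ∈ B)} ∩ (PP v ×ˢ X)) = 0 ∨
    (volume (A ∩ (PP v ×ˢ X)) = 0 ∧ volume ((PP v ×ˢ X) \ B) = 0) ∨
    (volume ((PP v ×ˢ X) \ A) = 0 ∧ volume (B ∩ (PP v ×ˢ X)) = 0) := by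
  refine conclude hn hv hA hB hconeA hconeB HA HB X (fun F hF hhom _ hgs => ?_)
  refine sum_case2 hn hv hF hhom (a := a) (fun i hia => ?_)
  obtain ⟨φ, ⟨K, hK⟩, hg⟩ := hc i (nxt hn hv i) (nxt_side hn hv i) hia
  have hL := lipI_of_lip hK
  have hne : ed hn hv i ≠ 0 := v_sub_ne hv (nxt_side hn hv i).ne
  have h1 := hgs i φ hg
  have h2 : ∀ k, ‖cN (Mf F (v i) (ed hn hv i)) k‖ = ‖ed hn hv i‖ * ‖cm (m0 φ) k‖ := by
    intro k
    rw [cN_congr (Mf_hom1 hF hhom _ _) (Nf_hom1 _ hL) h1 k, cN_Nf hne]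
  simp_rw [h2]
  refine ((m0_BL hL).summable.mul_left (‖ed hn hv i‖ ^ 2)).congr (fun k => ?_)
  ring

end Pool.Agent.Lib.BilS
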