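import Pool.Agent.Lib.MP_7bc51d_an_smooth.Decay

set_option autoImplicit false

namespace Pool.Agent.Lib.BilS

open Complex MeasureTheory Set Filter AddCircle
open scoped ComplexConjugate Topology ENNReal NNReal
open Pool.Agent.Lib.Bil Pool.Agent.Lib.BilM

/-- Bounded measurable Lipschitz functions on the circle. -/
structure BL (f : TT → ℝ) : Prop where
  meas : Measurable f
  bd : ∃ B : ℝ, 0 ≤ B ∧ ∀ t, |f t| ≤ B
  lip : ∃ K : ℝ, 0 ≤ K ∧ ∀ (t : TT) (h : ℝ), |f (t + (h : TT)) - f t| ≤ K * |h|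

theorem BL.mul {f g : TT → ℝ} (hf : BL f) (hg : BL g) : BL (fun t => f t * g t) := by
  obtain ⟨B, hB, hb⟩ := hf.bd
  obtain ⟨B', hB', hb'⟩ := hg.bd
  obtain ⟨K, hK, hk⟩ := hf.lip
  obtain ⟨K', hK', hk'⟩ := hg.lip
  refine ⟨hf.meas.mul hg.meas, ⟨B * B', by positivity, fun t => ?_⟩,
    ⟨K * B' + B * K', by positivity, fun t h => ?_⟩⟩
  · rw [abs_mul]
    exact mul_le_mul (hb t) (hb' t) (abs_nonneg _) hB
  · have e : f (t + (h : TT)) * g (t + (h : TT)) - f t * g t =
        (f (t + (h : TT)) - f t) * g (t + (h : TT)) + f t * (g (t + (h : TT)) - g t) := by ring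
    rw [e]
    refine (abs_add_le _ _).trans ?_
    rw [abs_mul, abs_mul]
    have h1 := mul_le_mul (hk t h) (hb' (t + (h : TT))) (abs_nonneg _) (by positivity)
    have h2 := mul_le_mul (hb t) (hk' t h) (abs_nonneg _) hB
    calc _ ≤ K * |h| * B' + B * (K' * |h|) := add_le_add h1 h2
      _ = _ := by ring

theorem BL.add {f g : TT → ℝ} (hf : BL f) (hg : BL g) : BL (fun t => f t + g t) := by
  obtain ⟨B, hB, hb⟩ := hf.bd
  obtain ⟨B', hB', hb'⟩ := hg.bd
  obtain ⟨K, hK, hk⟩ := hf.lip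
  obtain ⟨K', hK', hk'⟩ := hg.lip
  refine ⟨hf.meas.add hg.meas, ⟨B + B', by positivity, fun t => ?_⟩,
    ⟨K + K', by positivity, fun t h => ?_⟩⟩
  · exact (abs_add_le _ _).trans (add_le_add (hb t) (hb' t))
  · have e : f (t + (h : TT)) + g (t + (h : TT)) - (f t + g t) =
        (f (t + (h : TT)) - f t) + (g (t + (h : TT)) - g t) := by ring
    rw [e]
    refine (abs_add_le _ _).trans ?_
    calc _ ≤ K * |h| + K' * |h| := add_le_add (hk t h) (hk' t h)
      _ = _ := by ring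

theorem BL.abs {f : TT → ℝ} (hf : BL f) : BL (fun t => |f t|) := by
  obtain ⟨B, hB, hb⟩ := hf.bd
  obtain ⟨K, hK, hk⟩ := hf.lip
  refine ⟨hf.meas.abs, ⟨B, hB, fun t => ?_⟩, ⟨K, hK, fun t h => ?_⟩⟩
  · rw [abs_abs]; exact hb t
  · exact (abs_abs_sub_abs_le_abs_sub _ _).trans (hk t h)

theorem norm_coe_le_abs (h : ℝ) : ‖(h : TT)‖ ≤ |h| := by
  have := QuotientAddGroup.norm_mk_le_norm (S := AddSubgroup.zmultiples (2 * Real.pi)) (m := h)
  rwa [Real.norm_eq_abs] at this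

theorem norm_rho_sub (t : TT) (h : ℝ) : ‖rho (t + (h : TT)) - rho t‖ ≤ |h| := by
  have e : rho (t + (h : TT)) - rho t = rho t * (Complex.exp (I * h) - 1) := by
    rw [rho_add, rho_coe, mul_comm (h : ℂ) I]; ring
  rw [e, norm_mul, norm_rho, one_mul, ← Real.norm_eq_abs]
  exact Real.norm_exp_I_mul_ofReal_sub_one_le

theorem BL_im : BL (fun t => (rho t).im) := by
  refine ⟨Complex.measurable_im.comp measurable_rho, ⟨1, zero_le_one, fun t => ?_⟩,
    ⟨1, zero_le_one, fun t h => ?_⟩⟩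
  · exact (Complex.abs_im_le_norm _).trans (norm_rho t).le
  · rw [← Complex.sub_im, one_mul]
    exact (Complex.abs_im_le_norm _).trans (norm_rho_sub t h)

theorem BL_re : BL (fun t => (rho t).re) := by
  refine ⟨Complex.measurable_re.comp measurable_rho, ⟨1, zero_le_one, fun t => ?_⟩,
    ⟨1, zero_le_one, fun t h => ?_⟩⟩
  · exact (Complex.abs_re_le_norm _).trans (norm_rho t).le
  · rw [← Complex.sub_re, one_mul]
    exact (Complex.abs_re_le_norm _).trans (norm_rho_sub t h)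

theorem norm_mem_Icc (t : TT) : ‖t‖ ∈ Icc (0 : ℝ) Real.pi := by
  refine ⟨norm_nonneg _, ?_⟩
  have h := AddCircle.norm_le_half_period (2 * Real.pi) (x := t) Real.two_pi_pos.ne'
  rw [abs_of_pos Real.two_pi_pos] at h
  linarith

/-- Continuous functions that are Lipschitz on `[0, π]`. -/
def LipI (φ : ℝ → ℝ) : Prop :=
  Continuous φ ∧ ∃ K : ℝ, 0 ≤ K ∧ ∀ a ∈ Icc (0 : ℝ) Real.pi, ∀ b ∈ Icc (0 : ℝ) Real.pi,
    |φ a - φ b| ≤ K * |a - b|

theorem BL_norm {φ : ℝ → ℝ} (hφ : LipI φ) : BL (fun t => φ ‖t‖) := by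
  obtain ⟨hc, K, hK, hk⟩ := hφ
  refine ⟨hc.measurable.comp measurable_norm, ⟨|φ 0| + K * Real.pi, by positivity, fun t => ?_⟩,
    ⟨K, hK, fun t h => ?_⟩⟩
  · have h1 := hk ‖t‖ (norm_mem_Icc t) 0 ⟨le_rfl, Real.pi_pos.le⟩
    rw [sub_zero, abs_of_nonneg (norm_nonneg t)] at h1
    have h2 := (norm_mem_Icc t).2
    have h3 : |φ ‖t‖| ≤ |φ ‖t‖ - φ 0| + |φ 0| := by
      have := abs_add_le (φ ‖t‖ - φ 0) (φ 0)
      rwa [sub_add_cancel] at this
    have h4 : K * ‖t‖ ≤ K * Real.pi := by gcongr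
    linarith
  · refine (hk _ (norm_mem_Icc _) _ (norm_mem_Icc _)).trans ?_
    have h1 : |‖t + (h : TT)‖ - ‖t‖| ≤ |h| := by
      refine (abs_norm_sub_norm_le (t + (h : TT)) t).trans ?_
      rw [add_sub_cancel_left]
      exact norm_coe_le_abs h
    exact mul_le_mul_of_nonneg_left h1 hK

/-- Flux profile of a side with lit fraction `φ`. -/
noncomputable def m0 (φ : ℝ → ℝ) (t : TT) : ℝ := (rho t).im * φ ‖t‖

/-- The derivative of the flux profile. -/
noncomputable def m1 (φ : ℝ → ℝ) (t : TT) : ℝ :=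
  (rho t).re * φ ‖t‖ + |(rho t).im| * deriv φ ‖t‖

theorem m0_BL {φ : ℝ → ℝ} (hφ : LipI φ) : BL (m0 φ) := BL_im.mul (BL_norm hφ)

theorem m1_BL {φ : ℝ → ℝ} (hφ : LipI φ) (hφ' : LipI (deriv φ)) : BL (m1 φ) :=
  (BL_re.mul (BL_norm hφ)).add (BL_im.abs.mul (BL_norm hφ'))

/-- Fourier coefficients of a profile. -/
noncomputable def cm (m : TT → ℝ) (k : ℤ) : ℂ := fourierCoeff (fun t : TT => ((m t : ℝ) : ℂ)) k

theorem BL.summable {m : TT → ℝ} (hm : BL m) :
    Summable (fun k : ℤ => (k : ℝ) ^ 2 * ‖cm m k‖ ^ 2) := by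
  obtain ⟨B, hB, hb⟩ := hm.bd
  obtain ⟨K, hK, hk⟩ := hm.lip
  exact lip_summable hm.meas hb hk

theorem norm_coe_left {x : ℝ} (hx : x ∈ Icc (0 : ℝ) Real.pi) : ‖(x : TT)‖ = x := by
  have h := (AddCircle.norm_coe_eq_abs_iff (2 * Real.pi) (x := x) Real.two_pi_pos.ne').2 (by
    rw [abs_of_pos Real.two_pi_pos, abs_of_nonneg hx.1]
    linarith [hx.2])
  rw [h, abs_of_nonneg hx.1]

theorem norm_coe_right {x : ℝ} (hx : x ∈ Icc Real.pi (2 * Real.pi)) :
    ‖(x : TT)‖ = 2 * Real.pi - x := by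
  have e : (x : TT) = ((x - 2 * Real.pi : ℝ) : TT) := by
    rw [AddCircle.coe_sub, AddCircle.coe_period, sub_zero]
  have h := (AddCircle.norm_coe_eq_abs_iff (2 * Real.pi) (x := x - 2 * Real.pi)
    Real.two_pi_pos.ne').2 (by
    rw [abs_of_pos Real.two_pi_pos, abs_of_nonpos (by linarith [hx.2])]
    linarith [hx.1])
  rw [e, h, abs_of_nonpos (by linarith [hx.2])]
  ring

theorem rho_coe_im (x : ℝ) : (rho (x : TT)).im = Real.sin x := by
  rw [rho_coe, Complex.exp_ofReal_mul_I_im]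

theorem rho_coe_re (x : ℝ) : (rho (x : TT)).re = Real.cos x := by
  rw [rho_coe, Complex.exp_ofReal_mul_I_re]

theorem BL.continuous {f : TT → ℝ} (hf : BL f) : Continuous (fun x : ℝ => f (x : TT)) := by
  obtain ⟨K, hK, hk⟩ := hf.lip
  have h : LipschitzWith ⟨K, hK⟩ (fun x : ℝ => f (x : TT)) := by
    apply LipschitzWith.of_dist_le_mul
    intro x y
    have := hk (y : TT) (x - y)
    rw [← AddCircle.coe_add, add_sub_cancel] at this
    rw [Real.dist_eq, Real.dist_eq]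
    exact this
  exact h.continuous

theorem fourier_cast (k : ℤ) (x : ℝ) :
    (fourier k (x : AddCircle (2 * Real.pi - 0)) : ℂ) = fourier k (x : TT) := by
  rw [fourier_coe_apply, fourier_coe_apply, sub_zero]

theorem cm_eq (m : TT → ℝ) (k : ℤ) :
    cm m k = fourierCoeffOn Real.two_pi_pos (fun x : ℝ => ((m (x : TT) : ℝ) : ℂ)) k := by
  rw [fourierCoeffOn_eq_integral, cm, fourierCoeff_eq_intervalIntegral _ _ 0, sub_zero, zero_add]

/-- Integration by parts for the flux profile. -/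
theorem cm_deriv {φ : ℝ → ℝ} (hφ : LipI φ) (hφ' : Continuous (deriv φ))
    (hd : Differentiable ℝ φ) (k : ℤ) : |(k : ℝ)| * ‖cm (m0 φ) k‖ ≤ ‖cm (m1 φ) k‖ := by
  by_cases hk : k = 0
  · subst hk; simp
  have h0 := m0_BL hφ
  have h1 : Continuous (fun x : ℝ => m1 φ (x : TT)) := by
    have hc : Continuous (fun x : ℝ => (x : TT)) := AddCircle.continuous_mk' _
    have hn : Continuous (fun x : ℝ => ‖(x : TT)‖) := continuous_norm.comp hc
    have hr : Continuous (fun x : ℝ => rho (x : TT)) := continuous_rho.comp hc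
    unfold m1
    exact ((Complex.continuous_re.comp hr).mul (hφ.1.comp hn)).add
      ((Complex.continuous_im.comp hr).abs.mul (hφ'.comp hn))
  have key := fourierCoeffOn_of_hasDeriv_right Real.two_pi_pos hk
    (f := fun x : ℝ => ((m0 φ (x : TT) : ℝ) : ℂ)) (f' := fun x : ℝ => ((m1 φ (x : TT) : ℝ) : ℂ))
    (Complex.continuous_ofReal.comp h0.continuous).continuousOn ?_
    ((Complex.continuous_ofReal.comp h1).intervalIntegrable _ _)
  · rw [← cm_eq, ← cm_eq] at key
    have e1 : m0 φ ((2 * Real.pi : ℝ) : TT) = 0 := by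
      unfold m0; rw [rho_coe_im, Real.sin_two_pi, zero_mul]
    have e2 : m0 φ ((0 : ℝ) : TT) = 0 := by
      unfold m0; rw [rho_coe_im, Real.sin_zero, zero_mul]
    rw [e1, e2] at key
    rw [key]
    simp only [ofReal_zero, sub_self, mul_zero, zero_sub, sub_zero]
    rw [norm_mul, norm_neg, norm_mul, norm_div, norm_one]
    rw [norm_mul, norm_mul, norm_mul, norm_neg, norm_I]
    have e3 : ‖(k : ℂ)‖ = |(k : ℝ)| := by
      have : ((k : ℤ) : ℂ) = ((k : ℝ) : ℂ) := by push_cast; rfl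
      rw [this, norm_real, Real.norm_eq_abs]
    have e4 : ‖((2 * Real.pi : ℝ) : ℂ)‖ = 2 * Real.pi := by
      rw [norm_real, Real.norm_eq_abs, abs_of_pos Real.two_pi_pos]
    have e5 : ‖(Real.pi : ℂ)‖ = Real.pi := by
      rw [norm_real, Real.norm_eq_abs, abs_of_pos Real.pi_pos]
    have e6 : ‖(2 : ℂ)‖ = 2 := by simp
    rw [e3, e4, e5, e6]
    have hk' : 0 < |(k : ℝ)| := abs_pos.2 (by exact_mod_cast hk)
    have hpi := Real.pi_pos
    apply le_of_eq
    field_simp
  · intro x hx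
    rw [min_eq_left Real.two_pi_pos.le, max_eq_right Real.two_pi_pos.le] at hx
    have hcast : ∀ {g : ℝ → ℝ} {g' : ℝ} {s : Set ℝ} {x : ℝ}, HasDerivWithinAt g g' s x →
        HasDerivWithinAt (fun y : ℝ => ((g y : ℝ) : ℂ)) ((g' : ℝ) : ℂ) s x := by
      intro g g' s x h
      exact h.ofReal_comp
    apply hcast
    rcases lt_or_ge x Real.pi with hxp | hxp
    · -- left half
      have hder : HasDerivAt (fun y : ℝ => Real.sin y * φ y)
          (Real.cos x * φ x + Real.sin x * deriv φ x) x :=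
        (Real.hasDerivAt_sin x).mul (hd x).hasDerivAt
      have e : m1 φ (x : TT) = Real.cos x * φ x + Real.sin x * deriv φ x := by
        unfold m1
        rw [rho_coe_im, rho_coe_re, norm_coe_left ⟨hx.1.le, hxp.le⟩,
          abs_of_pos (Real.sin_pos_of_pos_of_lt_pi hx.1 hxp)]
      rw [e]
      refine (hder.congr_of_eventuallyEq ?_).hasDerivWithinAt
      filter_upwards [Ioo_mem_nhds hx.1 hxp] with y hy
      unfold m0
      rw [rho_coe_im, norm_coe_left ⟨hy.1.le, hy.2.le⟩]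
    · have hder : HasDerivAt (fun y : ℝ => Real.sin y * φ (2 * Real.pi - y))
          (Real.cos x * φ (2 * Real.pi - x) + Real.sin x * (deriv φ (2 * Real.pi - x) * (-1))) x := by
        have h2 : HasDerivAt (fun y : ℝ => 2 * Real.pi - y) (-1) x := by
          simpa using (hasDerivAt_id x).const_sub (2 * Real.pi)
        have h3 : HasDerivAt φ (deriv φ (2 * Real.pi - x)) (2 * Real.pi - x) := (hd _).hasDerivAt
        exact (Real.hasDerivAt_sin x).mul (h3.comp x h2)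
      have hsin : Real.sin x ≤ 0 := by
        have h4 : Real.sin (x - Real.pi) = - Real.sin x := Real.sin_sub_pi x
        have h5 : 0 ≤ Real.sin (x - Real.pi) :=
          Real.sin_nonneg_of_nonneg_of_le_pi (by linarith) (by linarith [hx.2])
        linarith
      have e : m1 φ (x : TT) = Real.cos x * φ (2 * Real.pi - x) +
          Real.sin x * (deriv φ (2 * Real.pi - x) * (-1)) := by
        unfold m1
        rw [rho_coe_im, rho_coe_re, norm_coe_right ⟨hxp, hx.2.le⟩, abs_of_nonpos hsin]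
        ring
      rw [e]
      have hw := hder.hasDerivWithinAt (s := Ioi x)
      refine hw.congr_of_eventuallyEq ?_ ?_
      · have h6 : Ioo x (2 * Real.pi) ∈ 𝓝[>] x := Ioo_mem_nhdsGT hx.2
        filter_upwards [h6] with y hy
        unfold m0
        rw [rho_coe_im, norm_coe_right ⟨hxp.trans hy.1.le, hy.2.le⟩]
      · unfold m0
        rw [rho_coe_im, norm_coe_right ⟨hxp, hx.2.le⟩]

theorem summable_four {φ : ℝ → ℝ} (hφ : LipI φ) (hφ' : LipI (deriv φ))
    (hd : Differentiable ℝ φ) :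
    Summable (fun k : ℤ => (k : ℝ) ^ 4 * ‖cm (m0 φ) k‖ ^ 2) := by
  refine Summable.of_nonneg_of_le (fun k => by positivity) (fun k => ?_)
    (m1_BL hφ hφ').summable
  have h := cm_deriv hφ hφ'.1 hd k
  have h2 : (|(k : ℝ)| * ‖cm (m0 φ) k‖) ^ 2 ≤ ‖cm (m1 φ) k‖ ^ 2 := by
    gcongr
  rw [mul_pow, sq_abs] at h2
  calc (k : ℝ) ^ 4 * ‖cm (m0 φ) k‖ ^ 2 = (k : ℝ) ^ 2 * ((k : ℝ) ^ 2 * ‖cm (m0 φ) k‖ ^ 2) := by
        ring
    _ ≤ _ := by gcongr

/-- The flux of a side with lit fraction `φ`. -/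
noncomputable def Nf (e : ℂ) (φ : ℝ → ℝ) (w : ℂ) : ℝ := cr w e * φ |Complex.arg (w / e)|

theorem Nf_hom1 (e : ℂ) {φ : ℝ → ℝ} (hφ : LipI φ) : Hom1 (Nf e φ) := by
  obtain ⟨hc, K, hK, hk⟩ := hφ
  refine ⟨?_, ?_, ?_⟩
  · unfold Nf
    refine (meas_crl e).mul (hc.measurable.comp ?_)
    exact (Complex.measurable_arg.comp (measurable_id.div_const e)).abs
  · intro r hr w
    unfold Nf
    rw [cr_smul_left, mul_div_assoc, Complex.arg_real_mul _ hr]
    ring
  · refine ⟨‖e‖ * (|φ 0| + K * Real.pi), by positivity, fun w => ?_⟩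
    unfold Nf
    rw [abs_mul]
    have h1 := abs_cr_le w e
    have h2 := hk |Complex.arg (w / e)| ⟨abs_nonneg _, abs_arg_le_pi _⟩ 0
      ⟨le_rfl, Real.pi_pos.le⟩
    rw [sub_zero, abs_abs] at h2
    have h3 : |φ (|Complex.arg (w / e)|)| ≤ |φ 0| + K * Real.pi := by
      have h4 := abs_add_le (φ (|Complex.arg (w / e)|) - φ 0) (φ 0)
      rw [sub_add_cancel] at h4
      have h5 : K * |Complex.arg (w / e)| ≤ K * Real.pi := by
        gcongr
        exact abs_arg_le_pi _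
      linarith
    calc |cr w e| * |φ (|Complex.arg (w / e)|)| ≤ (‖w‖ * ‖e‖) * (|φ 0| + K * Real.pi) := by
          gcongr
      _ = _ := by ring

theorem Nf_rho {e : ℂ} (he : e ≠ 0) (φ : ℝ → ℝ) (t : TT) :
    Nf e φ (rho t) = -‖e‖ * m0 φ (t + (-sarg e)) := by
  have hen : (‖e‖ : ℂ) ≠ 0 := by exact_mod_cast norm_ne_zero_iff.2 he
  have h1 := rho_sarg e
  have h2 : rho (t + -sarg e) = rho t * conj (rho (sarg e)) := by
    rw [rho_add]
    congr 1
    have h3 : rho (-sarg e) * rho (sarg e) = 1 := by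
      rw [← rho_add, neg_add_cancel]
      unfold rho
      rw [toCircle_zero, Circle.coe_one]
    have h4 : conj (rho (sarg e)) * rho (sarg e) = 1 := conj_mul_self' (norm_rho _)
    exact mul_right_cancel₀ (rho_ne (sarg e)) (h3.trans h4.symm)
  have h5 : rho t / e = ((‖e‖⁻¹ : ℝ) : ℂ) * rho (t + -sarg e) := by
    have h6 : conj (rho (sarg e)) * rho (sarg e) = 1 := conj_mul_self' (norm_rho _)
    rw [h2]
    push_cast
    rw [div_eq_iff he]
    calc rho t = rho t * ((‖e‖ : ℂ)⁻¹ * ‖e‖) * (conj (rho (sarg e)) * rho (sarg e)) := by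
          rw [h6, inv_mul_cancel₀ hen, mul_one, mul_one]
      _ = (‖e‖ : ℂ)⁻¹ * (rho t * conj (rho (sarg e))) * ((‖e‖ : ℂ) * rho (sarg e)) := by ring
      _ = _ := by rw [h1]
  have h7 : |Complex.arg (rho t / e)| = ‖t + -sarg e‖ := by
    rw [h5, Complex.arg_real_mul _ (inv_pos.2 (norm_pos_iff.2 he))]
    have h8 : sarg (rho (t + -sarg e)) = t + -sarg e := by
      apply rho_inj
      have := rho_sarg (rho (t + -sarg e))
      rwa [norm_rho, ofReal_one, one_mul] at this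
    have h9 : ‖sarg (rho (t + -sarg e))‖ = |Complex.arg (rho (t + -sarg e))| := by
      unfold sarg
      rw [AddCircle.norm_coe_eq_abs_iff (2 * Real.pi) Real.two_pi_pos.ne',
        abs_of_pos Real.two_pi_pos]
      have := abs_arg_le_pi (rho (t + -((Complex.arg e : ℝ) : TT)))
      linarith
    rw [← h9, h8]
  have h10 : cr (rho t) e = -‖e‖ * (rho (t + -sarg e)).im := by
    rw [h2]
    conv_lhs => rw [← h1]
    rw [cr_smul_right]
    unfold cr
    simp only [mul_im, conj_re, conj_im]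
    ring
  unfold Nf m0
  rw [h7, h10]
  ring

theorem cN_Nf {e : ℂ} (he : e ≠ 0) (φ : ℝ → ℝ) (k : ℤ) :
    ‖cN (Nf e φ) k‖ = ‖e‖ * ‖cm (m0 φ) k‖ := by
  have h1 : cN (Nf e φ) k = -(‖e‖ : ℂ) * (fourier k (-sarg e) * cm (m0 φ) k) := by
    unfold cN cm
    rw [← coeff_shift (m0 φ) (-sarg e) k, ← fourierCoeff.const_mul]
    congr 1
    funext t
    rw [Nf_rho he]
    push_cast
    ring
  rw [h1, norm_mul, norm_mul, norm_fourier_pt, one_mul, norm_neg, norm_real, norm_norm]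

/-- Square summability of the Fourier coefficients. -/
theorem Hom1.summable {N : ℂ → ℝ} (hN : Hom1 N) : Summable (fun k : ℤ => ‖cN N k‖ ^ 2) := by
  obtain ⟨C, hC, hb⟩ := hN.bd
  refine summable_sq (m := fun t => N (rho t)) (hN.meas.comp measurable_rho) (B := C) ?_
  intro t
  have := hb (rho t)
  rwa [norm_rho, mul_one] at this

end Pool.Agent.Lib.BilS
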