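import Pool.Agent.Lib.MP_7bc51d_an_smooth.RotInv

set_option autoImplicit false

namespace Pool.Agent.Lib.BilS

open Complex MeasureTheory Set Filter AddCircle
open scoped ComplexConjugate Topology ENNReal NNReal
open Pool.Agent.Lib.Bil Pool.Agent.Lib.BilM

variable {n : ℕ} {v : Fin n → ℂ}

theorem Gp_hom {F : ℂ → ℝ → ℝ} (hhom : HomF F) {r : ℝ} (hr : 0 < r) (w : ℂ) (Q : ℝ) :
    Gp F ((r : ℂ) * w) (r * Q) = r * Gp F w Q := by
  unfold Gp
  have h : ∀ t : ℝ, F ((r : ℂ) * w) (r * Q * t) = F w (Q * t) := by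
    intro t
    rw [mul_assoc]
    exact hhom r hr w (Q * t)
  simp_rw [h]
  ring

/-- The potential at a vertex. -/
noncomputable def gam (v : Fin n → ℂ) (F : ℂ → ℝ → ℝ) (i : Fin n) (w : ℂ) : ℝ :=
  Gp F w (cr w (v i))

theorem gam_hom1 {F : ℂ → ℝ → ℝ} (hF : LF F) (hhom : HomF F) (i : Fin n) :
    Hom1 (gam v F i) := by
  refine ⟨Gp_meas_x hF (v i), fun r hr w => ?_, ⟨‖v i‖, norm_nonneg _, fun w => ?_⟩⟩
  · unfold gam
    rw [cr_smul_left]
    exact Gp_hom hhom hr w _
  · unfold gam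
    refine (Gp_abs hF _ _).trans ((abs_cr_le w (v i)).trans ?_)
    rw [mul_comm]

theorem Mf_hom1 {F : ℂ → ℝ → ℝ} (hF : LF F) (hhom : HomF F) (a e : ℂ) : Hom1 (Mf F a e) := by
  refine ⟨Mf_meas hF a e, fun r hr w => Mf_hom hhom a e hr w, ⟨‖e‖, norm_nonneg _, fun w => ?_⟩⟩
  unfold Mf
  rw [abs_mul]
  have h1 := Sm_abs hF a e w (t := 1) ⟨zero_le_one, le_rfl⟩
  have h2 := abs_cr_le w e
  calc _ ≤ 1 * (‖w‖ * ‖e‖) := by gcongr
    _ = _ := by ring

theorem Hom1.add {M N : ℂ → ℝ} (hM : Hom1 M) (hN : Hom1 N) : Hom1 (fun w => M w + N w) := by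
  obtain ⟨C, hC, hb⟩ := hM.bd
  obtain ⟨C', hC', hb'⟩ := hN.bd
  refine ⟨hM.meas.add hN.meas, fun r hr w => ?_, ⟨C + C', by positivity, fun w => ?_⟩⟩
  · rw [hM.hom r hr, hN.hom r hr]; ring
  · refine (abs_add_le _ _).trans ?_
    calc _ ≤ C * ‖w‖ + C' * ‖w‖ := add_le_add (hb w) (hb' w)
      _ = _ := by ring

theorem Hom1.smul {M : ℂ → ℝ} (hM : Hom1 M) (c : ℝ) : Hom1 (fun w => c * M w) := by
  obtain ⟨C, hC, hb⟩ := hM.bd
  refine ⟨hM.meas.const_mul c, fun r hr w => ?_, ⟨|c| * C, by positivity, fun w => ?_⟩⟩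
  · rw [hM.hom r hr]; ring
  · rw [abs_mul, mul_assoc]
    exact mul_le_mul_of_nonneg_left (hb w) (abs_nonneg _)

theorem Hom1.integrable {M : ℂ → ℝ} (hM : Hom1 M) :
    Integrable (fun t : TT => ((M (rho t) : ℝ) : ℂ)) haarAddCircle := by
  obtain ⟨C, hC, hb⟩ := hM.bd
  refine integrable_bdd (m := fun t => M (rho t)) (hM.meas.comp measurable_rho) (B := C) ?_
  intro t
  have := hb (rho t)
  rwa [norm_rho, mul_one] at this

theorem cN_add {M N : ℂ → ℝ} (hM : Hom1 M) (hN : Hom1 N) (k : ℤ) :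
    cN (fun w => M w + N w) k = cN M k + cN N k := by
  have h := congrFun (fourierCoeff.add hM.integrable hN.integrable) k
  rw [Pi.add_apply] at h
  unfold cN
  rw [← h]
  congr 1
  funext t
  simp

theorem cN_smul (M : ℂ → ℝ) (c : ℝ) (k : ℤ) :
    cN (fun w => c * M w) k = c * cN M k := by
  unfold cN
  rw [← fourierCoeff.const_mul]
  congr 1
  funext t
  push_cast
  rfl

theorem Mf_eq_gam (hn : 3 ≤ n) (hv : ConvexIndependent ℝ v) {F : ℂ → ℝ → ℝ} (hF : LF F)
    (i : Fin n) (w : ℂ) :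
    Mf F (v i) (v (nxt hn hv i) - v i) w = gam v F (nxt hn hv i) w - gam v F i w := by
  have := Gp_side hF (v i) (v (nxt hn hv i) - v i) w 1
  rw [ofReal_one, one_mul, add_sub_cancel] at this
  unfold gam
  rw [this, Mf]

theorem cN_Mf (hn : 3 ≤ n) (hv : ConvexIndependent ℝ v) {F : ℂ → ℝ → ℝ} (hF : LF F)
    (hhom : HomF F) (i : Fin n) (k : ℤ) :
    cN (Mf F (v i) (v (nxt hn hv i) - v i)) k =
      cN (gam v F (nxt hn hv i)) k - cN (gam v F i) k := by
  have h1 : (Mf F (v i) (v (nxt hn hv i) - v i)) =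
      fun w => gam v F (nxt hn hv i) w + (-1) * gam v F i w := by
    funext w
    rw [Mf_eq_gam hn hv hF]
    ring
  rw [h1, cN_add (gam_hom1 hF hhom _) ((gam_hom1 hF hhom _).smul (-1)), cN_smul]
  push_cast
  ring

theorem corr_bdd {M N : ℂ → ℝ} (hM : Hom1 M) (hN : Hom1 N) :
    Integrable (fun t : TT => ((∫ w in BV, M w * N (rho t * w) : ℝ) : ℂ)) haarAddCircle := by
  obtain ⟨C, hC, hb⟩ := hM.bd
  obtain ⟨C', hC', hb'⟩ := hN.bd
  have hmeas : Measurable (fun t : TT => ∫ w in BV, M w * N (rho t * w)) := by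
    have h1 : Measurable (fun p : TT × ℂ => M p.2 * N (rho p.1 * p.2)) :=
      (hM.meas.comp measurable_snd).mul
        (hN.meas.comp ((measurable_rho.comp measurable_fst).mul measurable_snd))
    have h2 : StronglyMeasurable (Function.uncurry (fun (t : TT) (w : ℂ) =>
      M w * N (rho t * w))) := h1.stronglyMeasurable
    exact h2.integral_prod_right.measurable
  refine integrable_bdd hmeas (B := C * C' * (volume BV).toReal) ?_
  intro t
  rw [← Real.norm_eq_abs]
  refine norm_setIntegral_le_of_norm_le_const measure_ball_lt_top (fun w hw => ?_)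
  rw [norm_mul, Real.norm_eq_abs, Real.norm_eq_abs]
  have h1 := norm_lt_of_BV hw
  have h2 := hb' (rho t * w)
  rw [norm_mul, norm_rho, one_mul] at h2
  have h3 : |M w| * |N (rho t * w)| ≤ (C * 1) * (C' * 1) := by
    gcongr
    · exact (hb w).trans (by gcongr)
    · exact h2.trans (by gcongr)
  linarith

/-- The correlation identity in terms of the potentials. -/
theorem corr_gam (hn : 3 ≤ n) (hv : ConvexIndependent ℝ v) {F : ℂ → ℝ → ℝ} (hF : LF F)
    (hhom : HomF F) (hs : ∀ i, SymAt F (v i) (v (nxt hn hv i) - v i)) (t : TT) :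
    - (rho t).im * Cr v F t = ∑ i, ∫ w in BV, Mf F (v i) (v (nxt hn hv i) - v i) w *
      ((1 / 2) * (gam v F i (rho t * w) + gam v F (nxt hn hv i) (rho t * w))) := by
  have hne : ∀ i, v (nxt hn hv i) - v i ≠ 0 := fun i => v_sub_ne hv (nxt_side hn hv i).ne
  have hρ := norm_rho t
  have h1 := corr_green hn hv hF hρ
  have h2 : ∫ w in BV, ∫ x in PP v, F w (cr w x) *
      (F (rho t * w) (cr (rho t * w) x) * cr (rho t * w) w) = - (rho t).im * Cr v F t := by
    unfold Cr
    rw [show rho t = ((toCircle t : Circle) : ℂ) from rfl, Gw_corr hF (toCircle t),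
      ← integral_const_mul]
    apply integral_congr_ae
    refine Eventually.of_forall (fun w => ?_)
    simp only
    rw [← integral_const_mul]
    apply integral_congr_ae
    refine Eventually.of_forall (fun x => ?_)
    simp only
    rw [cr_rot_self]
    ring
  rw [← h2, h1]
  apply Finset.sum_congr rfl
  intro i _
  rw [side_corr hF (hne i) (hs i) hρ]
  have hM := Mf_hom1 hF hhom (v i) (v (nxt hn hv i) - v i)
  obtain ⟨C, hC, hb⟩ := hM.bd
  have hii : ∀ N : ℂ → ℝ, Hom1 N → IntegrableOn (fun w =>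
      Mf F (v i) (v (nxt hn hv i) - v i) w * N (rho t * w)) BV := by
    intro N hN
    obtain ⟨C', hC', hb'⟩ := hN.bd
    refine intOn_ball (hM.meas.mul (hN.meas.comp (measurable_id.const_mul (rho t))))
      (C := C * C') ?_
    intro w hw
    rw [abs_mul]
    have h1 := norm_lt_of_BV hw
    have h2 := hb' (rho t * w)
    rw [norm_mul, norm_rho, one_mul] at h2
    have h3 : |Mf F (v i) (v (nxt hn hv i) - v i) w| * |N (rho t * w)| ≤ (C * 1) * (C' * 1) := by
      gcongr
      · exact (hb w).trans (by gcongr)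
      · exact h2.trans (by gcongr)
    linarith
  have hG : ∫ w in BV, Mf F (v i) (v (nxt hn hv i) - v i) w *
      Gp F (rho t * w) (cr (rho t * w) (v i)) =
      ∫ w in BV, Mf F (v i) (v (nxt hn hv i) - v i) w * gam v F i (rho t * w) := rfl
  rw [hG, ← integral_const_mul, ← integral_add (hii _ (gam_hom1 (v := v) hF hhom i))
    ((hii _ hM).const_mul _)]
  apply integral_congr_ae
  refine Eventually.of_forall (fun w => ?_)
  simp only
  rw [Mf_eq_gam hn hv hF i (rho t * w)]
  unfold gam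
  ring

/-- Fourier coefficients of the correlation: areas of the closed polygons. -/
theorem coeff_area (hn : 3 ≤ n) (hv : ConvexIndependent ℝ v) {F : ℂ → ℝ → ℝ} (hF : LF F)
    (hhom : HomF F) (hs : ∀ i, SymAt F (v i) (v (nxt hn hv i) - v i)) (k : ℤ) :
    fourierCoeff (fun t : TT => (((- (rho t).im * Cr v F t : ℝ)) : ℂ)) k =
      (kap / 2) * Ar hn hv (fun i => cN (gam v F i) k) := by
  have h1 : (fun t : TT => (((- (rho t).im * Cr v F t : ℝ)) : ℂ)) =
      ∑ i, (fun t : TT => ((∫ w in BV, Mf F (v i) (v (nxt hn hv i) - v i) w *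
      ((1 / 2) * (gam v F i (rho t * w) + gam v F (nxt hn hv i) (rho t * w))) : ℝ) : ℂ)) := by
    funext t
    rw [corr_gam hn hv hF hhom hs t, Finset.sum_apply]
    push_cast
    rfl
  have hN : ∀ i, Hom1 (fun w => (1 / 2) * (gam v F i w + gam v F (nxt hn hv i) w)) := fun i =>
    ((gam_hom1 hF hhom i).add (gam_hom1 hF hhom (nxt hn hv i))).smul (1 / 2)
  rw [h1, fourierCoeff.sum _ _ (fun i _ =>
    corr_bdd (Mf_hom1 hF hhom (v i) (v (nxt hn hv i) - v i)) (hN i)), Finset.sum_apply]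
  unfold Ar
  rw [Finset.mul_sum]
  apply Finset.sum_congr rfl
  intro i _
  rw [corr_coeff (Mf_hom1 hF hhom (v i) (v (nxt hn hv i) - v i)) (hN i) k, cN_neg,
    cN_Mf hn hv hF hhom i k, cN_smul, cN_add (gam_hom1 hF hhom i) (gam_hom1 hF hhom _)]
  push_cast
  ring

theorem Cr_neg {F : ℂ → ℝ → ℝ} (t : TT) : Cr v F (-t) = Cr v F t := by
  unfold Cr
  have h := rotC_integral (toCircle t) (fun p : ℂ × ℂ => Gw v F p * Gw v F (rho (-t) * p.1, p.2))
  rw [← h]
  apply integral_congr_ae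
  refine Eventually.of_forall (fun p => ?_)
  simp only
  have e : rho (-t) * ((toCircle t : ℂ) * p.1) = p.1 := by
    rw [← mul_assoc]
    have : rho (-t) * (toCircle t : ℂ) = rho (-t + t) := by rw [rho_add]; rfl
    rw [this, neg_add_cancel]
    unfold rho
    rw [toCircle_zero, Circle.coe_one, one_mul]
  rw [e, mul_comm]
  rfl

theorem rho_neg_im (t : TT) : (rho (-t)).im = - (rho t).im := by
  unfold rho
  rw [toCircle_neg, Circle.coe_inv_eq_conj, conj_im]

theorem Cr_cont {F : ℂ → ℝ → ℝ} (hF : LF F) : Continuous (Cr v F) := by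
  have h := (corr_cont (Gw_memLp (v := v) hF)).comp (continuous_toCircle (T := 2 * Real.pi))
  exact h

/-- The main analytic statement: summability of the weighted areas forces rotation invariance. -/
theorem rot_of_summable (hn : 3 ≤ n) (hv : ConvexIndependent ℝ v) {F : ℂ → ℝ → ℝ} (hF : LF F)
    (hhom : HomF F) (hs : ∀ i, SymAt F (v i) (v (nxt hn hv i) - v i))
    (hint : ∀ w Q, F w Q = -1 ∨ F w Q = 0 ∨ F w Q = 1)
    (hsum : Summable (fun k : ℤ => (k : ℝ) ^ 2 * ‖Ar hn hv (fun i => cN (gam v F i) k)‖)) :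
    ∀ ρ : Circle, ∀ᵐ p : ℂ × ℂ, Gw v F ((ρ : ℂ) * p.1, p.2) = Gw v F p := by
  apply rot_inv hF hint
  set B : C(TT, ℂ) := ⟨fun t => (((- (rho t).im * Cr v F t : ℝ)) : ℂ), by
    have h1 : Continuous (fun t : TT => - (rho t).im * Cr v F t) :=
      ((Complex.continuous_im.comp continuous_rho).neg).mul (Cr_cont hF)
    exact Complex.continuous_ofReal.comp h1⟩ with hB
  set b : ℤ → ℂ := fourierCoeff B with hb
  have hbk : ∀ k, b k = (kap / 2) * Ar hn hv (fun i => cN (gam v F i) k) := fun k =>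
    coeff_area hn hv hF hhom hs k
  have hs2 : Summable (fun k : ℤ => (k : ℝ) ^ 2 * ‖b k‖) := by
    have h1 := hsum.mul_left ‖kap / 2‖
    refine h1.congr (fun k => ?_)
    rw [hbk, norm_mul]
    ring
  have hs0 : Summable b := by
    rw [← summable_norm_iff]
    have h2 : Summable (fun k : ℤ => if k = 0 then ‖b 0‖ else (0 : ℝ)) :=
      summable_of_ne_finset_zero (s := {0}) (fun k hk => by
        simp only [Finset.mem_singleton] at hk
        simp [hk])
    refine Summable.of_nonneg_of_le (fun k => norm_nonneg _) (fun k => ?_) (hs2.add h2)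
    by_cases hk : k = 0
    · subst hk; simp
    · simp only [hk, if_false, add_zero]
      have h3 : (1 : ℝ) ≤ (k : ℝ) ^ 2 := by
        have h4 : (1 : ℤ) ≤ |k| := Int.one_le_abs hk
        have h5 : (1 : ℝ) ≤ |(k : ℝ)| := by exact_mod_cast h4
        rw [← sq_abs]; nlinarith
      have := norm_nonneg (b k)
      nlinarith
  have hpt : ∀ t : TT, HasSum (fun k : ℤ => b k * (fourier k t : ℂ)) (B t) := fun t =>
    has_pointwise_sum_fourier_series_of_summable hs0 t
  set g : ℝ → ℝ := fun x => - Real.sin x * Cr v F (x : TT) with hg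
  have hBg : ∀ x : ℝ, B (x : TT) = ((g x : ℝ) : ℂ) := by
    intro x
    change (((- (rho (x : TT)).im * Cr v F (x : TT) : ℝ)) : ℂ) = _
    rw [rho_coe_im]
  have hgneg : ∀ x, g (-x) = - g x := by
    intro x
    simp only [hg]
    rw [Real.sin_neg, AddCircle.coe_neg, Cr_neg]
    ring
  refine defect_small (C := fun x : ℝ => Cr v F (x : TT)) (g := g) (r := fun k => - (b k).im)
    ?_ (fun x => rfl) ?_ ?_
  · exact ((Cr_cont hF).comp (AddCircle.continuous_mk' _)).continuousAt
  · intro x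
    have h1 := hpt (x : TT)
    have h2 := hpt ((-x : ℝ) : TT)
    rw [hBg] at h1 h2
    rw [hgneg] at h2
    have h3 := (h1.sub h2).div_const 2
    have h4 : ((g x : ℂ) - ((-g x : ℝ) : ℂ)) / 2 = ((g x : ℝ) : ℂ) := by push_cast; ring
    rw [h4] at h3
    have h5 := Complex.reCLM.hasSum h3
    simp only [Complex.reCLM_apply, ofReal_re] at h5
    refine h5.congr_fun ?_
    intro k
    have e1 : (fourier k (x : TT) : ℂ) = Complex.exp ((k : ℂ) * I * x) := fourier_real k x
    have e2 : (fourier k ((-x : ℝ) : TT) : ℂ) = Complex.exp ((k : ℂ) * I * ((-x : ℝ) : ℂ)) :=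
      fourier_real k (-x)
    rw [e1, e2]
    have e3 : (k : ℂ) * I * x = (((k : ℝ) * x : ℝ) : ℂ) * I := by push_cast; ring
    have e4 : (k : ℂ) * I * ((-x : ℝ) : ℂ) = ((-((k : ℝ) * x) : ℝ) : ℂ) * I := by push_cast; ring
    rw [e3, e4]
    have e5 : (b k * Complex.exp ((((k : ℝ) * x : ℝ) : ℂ) * I) -
        b k * Complex.exp (((-((k : ℝ) * x) : ℝ) : ℂ) * I)) / 2 =
        b k * ((Complex.exp ((((k : ℝ) * x : ℝ) : ℂ) * I) -
          Complex.exp (((-((k : ℝ) * x) : ℝ) : ℂ) * I)) * ((1 / 2 : ℝ) : ℂ)) := by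
      push_cast; ring
    rw [e5, mul_re, mul_re, mul_im]
    simp only [sub_re, sub_im, Complex.exp_ofReal_mul_I_re, Complex.exp_ofReal_mul_I_im,
      ofReal_re, ofReal_im, Real.cos_neg, Real.sin_neg]
    ring
  · refine Summable.of_nonneg_of_le (fun k => by positivity) (fun k => ?_) hs2
    rw [abs_neg]
    have := Complex.abs_im_le_norm (b k)
    gcongr

end Pool.Agent.Lib.BilS
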