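import Pool.Agent.Lib.MP_7bc51d_an_smooth.Series

set_option autoImplicit false

namespace Pool.Agent.Lib.BilS

open Complex MeasureTheory Set Filter AddCircle
open scoped ComplexConjugate Topology ENNReal NNReal
open Pool.Agent.Lib.Bil Pool.Agent.Lib.BilM

variable {n : ℕ} {v : Fin n → ℂ}

theorem memLp_rot {G : ℂ × ℂ → ℝ} (hG : MemLp G 2 (volume : Measure (ℂ × ℂ))) (ρ : Circle) :
    MemLp (fun p : ℂ × ℂ => G ((ρ : ℂ) * p.1, p.2)) 2 (volume : Measure (ℂ × ℂ)) :=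
  hG.comp_measurePreserving (rotC_mp ρ)

theorem rotC_emb (ρ : Circle) : MeasurableEmbedding (rotC ρ) := by
  have h1 : MeasurableEmbedding (fun z : ℂ => (ρ : ℂ) * z) :=
    (mulEquiv (ρ : ℂ) (Circle.norm_coe ρ)).toHomeomorph.measurableEmbedding
  exact h1.prodMap MeasurableEmbedding.id

theorem rotC_integral (ρ : Circle) (g : ℂ × ℂ → ℝ) :
    ∫ p : ℂ × ℂ, g ((ρ : ℂ) * p.1, p.2) = ∫ p : ℂ × ℂ, g p :=
  (rotC_mp ρ).integral_comp (rotC_emb ρ) g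

theorem defect_eq {G : ℂ × ℂ → ℝ} (hG : MemLp G 2 (volume : Measure (ℂ × ℂ))) (ρ : Circle) :
    ∫ p : ℂ × ℂ, (G ((ρ : ℂ) * p.1, p.2) - G p) ^ 2 =
      2 * ((∫ p : ℂ × ℂ, G p * G p) - ∫ p : ℂ × ℂ, G p * G ((ρ : ℂ) * p.1, p.2)) := by
  have hR := memLp_rot hG ρ
  have i1 : Integrable (fun p : ℂ × ℂ => G p * G p) := hG.integrable_mul hG
  have i2 : Integrable (fun p : ℂ × ℂ => G p * G ((ρ : ℂ) * p.1, p.2)) := hG.integrable_mul hR
  have i3 : Integrable (fun p : ℂ × ℂ => G ((ρ : ℂ) * p.1, p.2) * G ((ρ : ℂ) * p.1, p.2)) :=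
    hR.integrable_mul hR
  have e : ∀ p : ℂ × ℂ, (G ((ρ : ℂ) * p.1, p.2) - G p) ^ 2 =
      (G ((ρ : ℂ) * p.1, p.2) * G ((ρ : ℂ) * p.1, p.2) + G p * G p) -
        2 * (G p * G ((ρ : ℂ) * p.1, p.2)) := by
    intro p; ring
  simp_rw [e]
  have i13 : Integrable (fun p : ℂ × ℂ => G ((ρ : ℂ) * p.1, p.2) * G ((ρ : ℂ) * p.1, p.2) +
      G p * G p) := i3.add i1
  rw [integral_sub i13 (i2.const_mul 2), integral_add i3 i1, integral_const_mul,
    rotC_integral ρ (fun p => G p * G p)]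
  ring

/-- The weighted `L¹` distance of `F` to its rotation. -/
noncomputable def Xd (v : Fin n → ℂ) (F : ℂ → ℝ → ℝ) (ρ : ℂ) (p : ℂ × ℂ) : ℝ :=
  (BV ×ˢ PP v).indicator
    (fun p => ‖p.1‖ ^ 2 * |F (ρ * p.1) (cr (ρ * p.1) p.2) - F p.1 (cr p.1 p.2)|) p

theorem Xd_meas {F : ℂ → ℝ → ℝ} (hF : LF F) (ρ : ℂ) : Measurable (Xd v F ρ) := by
  unfold Xd
  exact ((measurable_fst.norm.pow_const 2).mul
    ((meas_F_comp hF ρ).sub (meas_F_comp1 hF)).abs).indicator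
    (measurableSet_ball.prod isOpen_PP.measurableSet)

theorem Xd_nonneg (F : ℂ → ℝ → ℝ) (ρ : ℂ) (p : ℂ × ℂ) : 0 ≤ Xd v F ρ p := by
  unfold Xd
  apply indicator_nonneg
  intro p _
  positivity

theorem Xd_int {F : ℂ → ℝ → ℝ} (hF : LF F) (ρ : ℂ) : Integrable (Xd v F ρ) := by
  have hfin : (volume : Measure (ℂ × ℂ)) (BV ×ˢ PP v) ≠ ⊤ := by
    rw [Measure.volume_eq_prod, Measure.prod_prod]
    exact ENNReal.mul_ne_top measure_ball_lt_top.ne isBounded_PP.measure_lt_top.ne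
  have h1 : Integrable ((BV ×ˢ PP v).indicator (fun _ : ℂ × ℂ => (2 : ℝ))) := by
    rw [integrable_indicator_iff (measurableSet_ball.prod isOpen_PP.measurableSet)]
    exact integrableOn_const hfin
  refine h1.mono (Xd_meas hF ρ).aestronglyMeasurable (Eventually.of_forall (fun p => ?_))
  unfold Xd
  by_cases hp : p ∈ BV ×ˢ PP v
  · rw [indicator_of_mem hp, indicator_of_mem hp, norm_mul, norm_pow, norm_norm,
      Real.norm_eq_abs, abs_abs, Real.norm_eq_abs, abs_of_pos (show (0 : ℝ) < 2 by norm_num)]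
    have h2 := (norm_lt_of_BV hp.1).le
    have h3 := hF.bd p.1 (cr p.1 p.2)
    have h4 := hF.bd (ρ * p.1) (cr (ρ * p.1) p.2)
    have h5 : |F (ρ * p.1) (cr (ρ * p.1) p.2) - F p.1 (cr p.1 p.2)| ≤ 1 + 1 :=
      (abs_sub _ _).trans (add_le_add h4 h3)
    have h6 : ‖p.1‖ ^ 2 ≤ 1 := by
      have h0 := norm_nonneg p.1
      nlinarith
    calc _ ≤ (1 : ℝ) * (1 + 1) := mul_le_mul h6 h5 (abs_nonneg _) zero_le_one
      _ = 2 := by norm_num
  · rw [indicator_of_notMem hp, indicator_of_notMem hp]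

/-- Integer values: the `L¹` distance is at most the `L²` distance. -/
theorem Xd_le {F : ℂ → ℝ → ℝ} (hint : ∀ w Q, F w Q = -1 ∨ F w Q = 0 ∨ F w Q = 1)
    {ρ : ℂ} (hρ : ‖ρ‖ = 1) (p : ℂ × ℂ) :
    Xd v F ρ p ≤ (Gw v F (ρ * p.1, p.2) - Gw v F p) ^ 2 := by
  unfold Xd Gw
  by_cases hp : p ∈ BV ×ˢ PP v
  · have hp2 : (ρ * p.1, p.2) ∈ BV ×ˢ PP v := ⟨mem_BV_rot hρ hp.1, hp.2⟩
    rw [indicator_of_mem hp, indicator_of_mem hp2, indicator_of_mem hp]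
    simp only [norm_mul, hρ, one_mul]
    rw [← mul_sub, mul_pow]
    apply mul_le_mul_of_nonneg_left _ (by positivity)
    rcases hint p.1 (cr p.1 p.2) with h | h | h <;>
      rcases hint (ρ * p.1) (cr (ρ * p.1) p.2) with h' | h' | h' <;> rw [h, h'] <;> norm_num
  · rw [indicator_of_notMem hp]
    positivity

theorem Xd_sub (F : ℂ → ℝ → ℝ) (ρ : ℂ) {σ : ℂ} (hσ : ‖σ‖ = 1) (p : ℂ × ℂ) :
    Xd v F (ρ * σ) p ≤ Xd v F ρ (σ * p.1, p.2) + Xd v F σ p := by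
  unfold Xd
  by_cases hp : p ∈ BV ×ˢ PP v
  · have hp2 : (σ * p.1, p.2) ∈ BV ×ˢ PP v := ⟨mem_BV_rot hσ hp.1, hp.2⟩
    rw [indicator_of_mem hp, indicator_of_mem hp2, indicator_of_mem hp]
    simp only [norm_mul, hσ, one_mul]
    rw [← mul_add, mul_assoc]
    apply mul_le_mul_of_nonneg_left _ (by positivity)
    exact abs_sub_le _ _ _
  · have hp2 : (σ * p.1, p.2) ∉ BV ×ˢ PP v := by
      intro h
      apply hp
      refine ⟨?_, h.2⟩
      have h1 := h.1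
      simp only [mem_ball_zero_iff, norm_mul, hσ, one_mul] at h1 ⊢
      exact h1
    rw [indicator_of_notMem hp, indicator_of_notMem hp2, indicator_of_notMem hp]
    norm_num

/-- The total weighted distance. -/
noncomputable def Ld (v : Fin n → ℂ) (F : ℂ → ℝ → ℝ) (ρ : ℂ) : ℝ := ∫ p : ℂ × ℂ, Xd v F ρ p

theorem Ld_nonneg (F : ℂ → ℝ → ℝ) (ρ : ℂ) : 0 ≤ Ld v F ρ :=
  integral_nonneg (Xd_nonneg F ρ)

theorem Ld_sub {F : ℂ → ℝ → ℝ} (hF : LF F) (ρ : ℂ) (σ : Circle) :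
    Ld v F (ρ * σ) ≤ Ld v F ρ + Ld v F σ := by
  unfold Ld
  have hσ : ‖(σ : ℂ)‖ = 1 := Circle.norm_coe σ
  have i1 := Xd_int (v := v) hF ρ
  have i2 : Integrable (fun p : ℂ × ℂ => Xd v F ρ ((σ : ℂ) * p.1, p.2)) :=
    ((rotC_mp σ).integrable_comp_emb (rotC_emb σ)).2 i1
  rw [← rotC_integral σ (Xd v F ρ), ← integral_add i2 (Xd_int hF _)]
  exact integral_mono (Xd_int hF _) (i2.add (Xd_int hF _)) (fun p => Xd_sub F ρ hσ p)

theorem rho_mul_nat (x : ℝ) (m : ℕ) : rho ((((m : ℝ) + 1) * x : ℝ) : TT) =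
    rho (((m : ℝ) * x : ℝ) : TT) * rho (x : TT) := by
  rw [← rho_add, ← AddCircle.coe_add]
  congr 2
  ring

theorem Ld_nat {F : ℂ → ℝ → ℝ} (hF : LF F) (x : ℝ) (m : ℕ) :
    Ld v F (rho (((m : ℝ) * x : ℝ) : TT)) ≤ m * Ld v F (rho (x : TT)) := by
  induction m with
  | zero =>
    simp only [Nat.cast_zero, zero_mul]
    have : rho ((0 : ℝ) : TT) = 1 := by
      rw [rho_coe]; simp
    rw [this]
    unfold Ld
    have h0 : ∀ p : ℂ × ℂ, Xd v F 1 p = 0 := by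
      intro p
      unfold Xd
      by_cases hp : p ∈ BV ×ˢ PP v
      · rw [indicator_of_mem hp]; simp
      · rw [indicator_of_notMem hp]
    simp [h0]
  | succ m ih =>
    push_cast
    rw [rho_mul_nat]
    have h := Ld_sub (v := v) hF (rho (((m : ℝ) * x : ℝ) : TT)) (toCircle (x : TT))
    change Ld v F (rho (((m : ℝ) * x : ℝ) : TT) * rho (x : TT)) ≤
      Ld v F (rho (((m : ℝ) * x : ℝ) : TT)) + Ld v F (rho (x : TT)) at h
    linarith

/-- The rotation correlation as a function of the angle. -/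
noncomputable def Cr (v : Fin n → ℂ) (F : ℂ → ℝ → ℝ) (t : TT) : ℝ :=
  ∫ p : ℂ × ℂ, Gw v F p * Gw v F (rho t * p.1, p.2)

theorem Cr_zero (F : ℂ → ℝ → ℝ) : Cr v F ((0 : ℝ) : TT) = ∫ p : ℂ × ℂ, Gw v F p * Gw v F p := by
  unfold Cr
  have : rho ((0 : ℝ) : TT) = 1 := by
    rw [rho_coe]; simp
  rw [this]
  simp

theorem Ld_le {F : ℂ → ℝ → ℝ} (hF : LF F)
    (hint : ∀ w Q, F w Q = -1 ∨ F w Q = 0 ∨ F w Q = 1) (t : TT) :
    Ld v F (rho t) ≤ 2 * (Cr v F ((0 : ℝ) : TT) - Cr v F t) := by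
  rw [Cr_zero]
  have h1 := defect_eq (Gw_memLp (v := v) hF) (toCircle t)
  unfold Cr
  change Ld v F (rho t) ≤ 2 * ((∫ p : ℂ × ℂ, Gw v F p * Gw v F p) -
    ∫ p : ℂ × ℂ, Gw v F p * Gw v F (((toCircle t : Circle) : ℂ) * p.1, p.2))
  rw [← h1]
  unfold Ld
  apply integral_mono (Xd_int hF _)
  · have hG := Gw_memLp (v := v) hF
    exact ((memLp_rot hG (toCircle t)).sub hG).integrable_sq
  · intro p
    exact Xd_le hint (norm_rho t) p

/-- If the correlation defect is `o(x)` then the function is rotation invariant. -/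
theorem rot_inv {F : ℂ → ℝ → ℝ} (hF : LF F)
    (hint : ∀ w Q, F w Q = -1 ∨ F w Q = 0 ∨ F w Q = 1)
    (h : Tendsto (fun x : ℝ => (Cr v F ((0 : ℝ) : TT) - Cr v F (x : TT)) / x) (𝓝[>] 0) (𝓝 0)) :
    ∀ ρ : Circle, ∀ᵐ p : ℂ × ℂ, Gw v F ((ρ : ℂ) * p.1, p.2) = Gw v F p := by
  intro ρ
  obtain ⟨x, hx, hxρ⟩ : ∃ x : ℝ, 0 < x ∧ rho (x : TT) = (ρ : ℂ) := by
    refine ⟨Complex.arg (ρ : ℂ) + 2 * Real.pi, ?_, ?_⟩
    · have := Complex.neg_pi_lt_arg (ρ : ℂ)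
      have := Real.pi_pos
      linarith
    · rw [AddCircle.coe_add, AddCircle.coe_period, add_zero, rho_coe]
      have := Complex.norm_mul_exp_arg_mul_I (ρ : ℂ)
      rwa [Circle.norm_coe, ofReal_one, one_mul] at this
  have h1 : ∀ m : ℕ, Ld v F (rho (x : TT)) ≤
      2 * x * ((Cr v F ((0 : ℝ) : TT) - Cr v F ((x / ((m : ℝ) + 1) : ℝ) : TT)) /
        (x / ((m : ℝ) + 1))) := by
    intro m
    have hm : (0 : ℝ) < (m : ℝ) + 1 := by positivity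
    have h2 := Ld_nat (v := v) hF (x / ((m : ℝ) + 1)) (m + 1)
    have h3 : (((m + 1 : ℕ) : ℝ) * (x / ((m : ℝ) + 1))) = x := by
      push_cast
      field_simp
    rw [h3] at h2
    have h4 := Ld_le (v := v) hF hint ((x / ((m : ℝ) + 1) : ℝ) : TT)
    push_cast at h2
    calc Ld v F (rho (x : TT)) ≤ ((m : ℝ) + 1) * Ld v F (rho ((x / ((m : ℝ) + 1) : ℝ) : TT)) := h2
      _ ≤ ((m : ℝ) + 1) *
          (2 * (Cr v F ((0 : ℝ) : TT) - Cr v F ((x / ((m : ℝ) + 1) : ℝ) : TT))) := by gcongr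
      _ = _ := by field_simp
  have h5 : Tendsto (fun m : ℕ => 2 * x * ((Cr v F ((0 : ℝ) : TT) -
      Cr v F ((x / ((m : ℝ) + 1) : ℝ) : TT)) / (x / ((m : ℝ) + 1)))) atTop (𝓝 (2 * x * 0)) := by
    apply Tendsto.const_mul
    have h6 : Tendsto (fun m : ℕ => x / ((m : ℝ) + 1)) atTop (𝓝[>] 0) := by
      rw [tendsto_nhdsWithin_iff]
      refine ⟨?_, Eventually.of_forall (fun m => ?_)⟩
      · have h7 : Tendsto (fun m : ℕ => x * (1 / ((m : ℝ) + 1))) atTop (𝓝 (x * 0)) :=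
          tendsto_one_div_add_atTop_nhds_zero_nat.const_mul x
        rw [mul_zero] at h7
        refine h7.congr (fun m => ?_)
        ring
      · have hm : (0 : ℝ) < (m : ℝ) + 1 := by positivity
        exact div_pos hx hm
    exact h.comp h6
  rw [mul_zero] at h5
  have h8 : Ld v F (rho (x : TT)) = 0 :=
    le_antisymm (ge_of_tendsto' h5 h1) (Ld_nonneg F _)
  unfold Ld at h8
  rw [integral_eq_zero_iff_of_nonneg (Xd_nonneg F _) (Xd_int hF _)] at h8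
  filter_upwards [h8] with p hp
  have hρn : ‖(ρ : ℂ)‖ = 1 := Circle.norm_coe ρ
  rw [hxρ, Pi.zero_apply] at hp
  unfold Xd at hp
  unfold Gw
  by_cases hpm : p ∈ BV ×ˢ PP v
  · have hp2 : ((ρ : ℂ) * p.1, p.2) ∈ BV ×ˢ PP v := ⟨mem_BV_rot hρn hpm.1, hpm.2⟩
    rw [indicator_of_mem hpm] at hp
    rw [indicator_of_mem hp2, indicator_of_mem hpm]
    simp only [norm_mul, hρn, one_mul]
    rcases mul_eq_zero.1 hp with h9 | h9
    · rw [pow_eq_zero_iff two_ne_zero] at h9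
      rw [h9, zero_mul, zero_mul]
    · rw [abs_eq_zero, sub_eq_zero] at h9
      rw [h9]
  · have hp2 : ((ρ : ℂ) * p.1, p.2) ∉ BV ×ˢ PP v := by
      intro h
      apply hpm
      refine ⟨?_, h.2⟩
      have h1 := h.1
      simp only [mem_ball_zero_iff, norm_mul, hρn, one_mul] at h1 ⊢
      exact h1
    rw [indicator_of_notMem hp2, indicator_of_notMem hpm]

end Pool.Agent.Lib.BilS
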