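import Pool.Agent.Lib.MP_7bc51d_an_smooth.Flux

set_option autoImplicit false

namespace Pool.Agent.Lib.BilS

open Complex MeasureTheory Set Filter AddCircle
open scoped ComplexConjugate Topology ENNReal NNReal
open Pool.Agent.Lib.Bil Pool.Agent.Lib.BilM

theorem abs_sin_sub_le (y : ℝ) : |Real.sin y - y| ≤ 2 * y ^ 2 := by
  rcases le_total |y| 1 with h | h
  · have h1 := Real.sin_bound h
    -- |sin y - (y - y^3/6)| ≤ |y|^4 * (5/96)
    have h2 : |Real.sin y - y| ≤ |Real.sin y - (y - y ^ 3 / 6)| + |y ^ 3 / 6| := by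
      have e : Real.sin y - y = (Real.sin y - (y - y ^ 3 / 6)) - y ^ 3 / 6 := by ring
      rw [e]
      exact abs_sub _ _
    have h3 : |y ^ 3 / 6| = |y| ^ 3 / 6 := by
      rw [abs_div, abs_pow]; norm_num
    have h4 : |y| ^ 2 = y ^ 2 := sq_abs y
    have h0 := abs_nonneg y
    have h5 : |y| ^ 4 ≤ |y| ^ 2 := pow_le_pow_of_le_one h0 h (by norm_num)
    have h6 : |y| ^ 3 ≤ |y| ^ 2 := pow_le_pow_of_le_one h0 h (by norm_num)
    rw [h3] at h2
    nlinarith
  · have h1 : |Real.sin y - y| ≤ 1 + |y| := by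
      refine (abs_sub _ _).trans ?_
      have := Real.abs_sin_le_one y
      linarith
    have h4 : |y| ^ 2 = y ^ 2 := sq_abs y
    nlinarith

theorem tendsto_sin_term (k : ℝ) :
    Tendsto (fun x : ℝ => (Real.sin (k * x) - k * x) / x ^ 2) (𝓝[>] 0) (𝓝 0) := by
  have h1 : ∀ᶠ x : ℝ in 𝓝[>] 0, ‖(Real.sin (k * x) - k * x) / x ^ 2‖ ≤ |k| ^ 3 * x := by
    have hd : ∀ᶠ x : ℝ in 𝓝[>] (0 : ℝ), |k * x| ≤ 1 := by
      have : Tendsto (fun x : ℝ => |k * x|) (𝓝[>] 0) (𝓝 0) := by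
        have h : Tendsto (fun x : ℝ => |k * x|) (𝓝 0) (𝓝 |k * 0|) :=
          (continuous_const.mul continuous_id).abs.tendsto 0
        rw [mul_zero, abs_zero] at h
        exact h.mono_left nhdsWithin_le_nhds
      exact (this.eventually (gt_mem_nhds (show (0 : ℝ) < 1 by norm_num))).mono
        (fun x hx => hx.le)
    filter_upwards [hd, self_mem_nhdsWithin] with x hx hx0
    have hx0' : 0 < x := hx0
    rw [norm_div, norm_pow, Real.norm_eq_abs, Real.norm_eq_abs, abs_of_pos hx0']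
    rw [div_le_iff₀ (by positivity)]
    have h1 := Real.sin_bound hx
    set y := k * x with hy
    have h2 : |Real.sin y - y| ≤ |Real.sin y - (y - y ^ 3 / 6)| + |y ^ 3 / 6| := by
      have e : Real.sin y - y = (Real.sin y - (y - y ^ 3 / 6)) - y ^ 3 / 6 := by ring
      rw [e]
      exact abs_sub _ _
    have h3 : |y ^ 3 / 6| = |y| ^ 3 / 6 := by
      rw [abs_div, abs_pow]; norm_num
    have h0 := abs_nonneg y
    have h5 : |y| ^ 5 ≤ |y| ^ 3 := pow_le_pow_of_le_one h0 hx (by norm_num)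
    rw [h3] at h2
    have h6 : |y| ^ 3 = |k| ^ 3 * x ^ 3 := by
      rw [hy, abs_mul, abs_of_pos hx0', mul_pow]
    have h7 : 0 ≤ |y| ^ 3 := by positivity
    calc |Real.sin y - y| ≤ |y| ^ 3 := by linarith
      _ = |k| ^ 3 * x * x ^ 2 := by rw [h6]; ring
  have h2 : Tendsto (fun x : ℝ => |k| ^ 3 * x) (𝓝[>] 0) (𝓝 0) := by
    have h : Tendsto (fun x : ℝ => |k| ^ 3 * x) (𝓝 0) (𝓝 (|k| ^ 3 * 0)) :=
      (continuous_const.mul continuous_id).tendsto 0
    rw [mul_zero] at h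
    exact h.mono_left nhdsWithin_le_nhds
  exact squeeze_zero_norm' h1 h2

/-- An odd trigonometric series with two summable derivatives is linear up to `o(x ^ 2)`. -/
theorem odd_series {g : ℝ → ℝ} {r : ℤ → ℝ}
    (hs : ∀ x : ℝ, HasSum (fun k : ℤ => r k * Real.sin (k * x)) (g x))
    (hr : Summable (fun k : ℤ => (k : ℝ) ^ 2 * |r k|)) :
    ∃ G : ℝ, Tendsto (fun x : ℝ => (g x - x * G) / x ^ 2) (𝓝[>] 0) (𝓝 0) := by
  have hr1 : Summable (fun k : ℤ => r k * k) := by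
    apply Summable.of_norm_bounded hr
    intro k
    rw [norm_mul, Real.norm_eq_abs, Real.norm_eq_abs]
    by_cases hk : k = 0
    · subst hk; simp
    · have h1 : 1 ≤ |(k : ℝ)| := by
        have : (1 : ℤ) ≤ |k| := Int.one_le_abs hk
        exact_mod_cast this
      have h2 : |(k : ℝ)| ≤ (k : ℝ) ^ 2 := by
        rw [← sq_abs]; nlinarith
      calc |r k| * |(k : ℝ)| = |(k : ℝ)| * |r k| := mul_comm _ _
        _ ≤ _ := by gcongr
  refine ⟨∑' k : ℤ, r k * k, ?_⟩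
  have h1 : ∀ x : ℝ, (g x - x * ∑' k : ℤ, r k * k) / x ^ 2 =
      ∑' k : ℤ, r k * ((Real.sin (k * x) - k * x) / x ^ 2) := by
    intro x
    have h2 := (hs x).sub ((hr1.hasSum).mul_left x)
    have h3 := h2.div_const (x ^ 2)
    rw [← h3.tsum_eq]
    congr 1
    funext k
    ring
  simp_rw [h1]
  have h4 : Tendsto (fun x : ℝ => ∑' k : ℤ, r k * ((Real.sin (k * x) - k * x) / x ^ 2)) (𝓝[>] 0)
      (𝓝 (∑' _k : ℤ, (0 : ℝ))) := by
    apply tendsto_tsum_of_dominated_convergence (bound := fun k : ℤ => 2 * ((k : ℝ) ^ 2 * |r k|))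
      (hr.mul_left 2)
    · intro k
      have := (tendsto_sin_term (k : ℝ)).const_mul (r k)
      rwa [mul_zero] at this
    · filter_upwards [self_mem_nhdsWithin] with x hx k
      have hx' : 0 < x := hx
      rw [norm_mul, norm_div, norm_pow, Real.norm_eq_abs, Real.norm_eq_abs, Real.norm_eq_abs,
        abs_of_pos hx']
      have h5 := abs_sin_sub_le (k * x)
      have h6 : |Real.sin (k * x) - k * x| / x ^ 2 ≤ 2 * (k : ℝ) ^ 2 := by
        rw [div_le_iff₀ (by positivity)]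
        calc _ ≤ 2 * ((k : ℝ) * x) ^ 2 := h5
          _ = _ := by ring
      calc |r k| * (|Real.sin (k * x) - k * x| / x ^ 2) ≤ |r k| * (2 * (k : ℝ) ^ 2) := by gcongr
        _ = _ := by ring
  rwa [tsum_zero] at h4

/-- The correlation defect is `o(x)`. -/
theorem defect_small {C g : ℝ → ℝ} (hC : ContinuousAt C 0)
    (hg : ∀ x, - Real.sin x * C x = g x) {r : ℤ → ℝ}
    (hs : ∀ x : ℝ, HasSum (fun k : ℤ => r k * Real.sin (k * x)) (g x))
    (hr : Summable (fun k : ℤ => (k : ℝ) ^ 2 * |r k|)) :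
    Tendsto (fun x : ℝ => (C 0 - C x) / x) (𝓝[>] 0) (𝓝 0) := by
  obtain ⟨G, hG⟩ := odd_series hs hr
  have hsin1 : Tendsto (fun x : ℝ => (Real.sin x - x) / x ^ 2) (𝓝[>] 0) (𝓝 0) := by
    have := tendsto_sin_term 1
    simpa using this
  have hsinc : Tendsto (fun x : ℝ => Real.sin x / x) (𝓝[>] 0) (𝓝 1) := by
    have h1 : Tendsto (fun x : ℝ => 1 + x * ((Real.sin x - x) / x ^ 2)) (𝓝[>] 0)
        (𝓝 (1 + 0 * 0)) := by
      have hx : Tendsto (fun x : ℝ => x) (𝓝[>] (0 : ℝ)) (𝓝 0) := nhdsWithin_le_nhds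
      exact tendsto_const_nhds.add (hx.mul hsin1)
    rw [mul_zero, add_zero] at h1
    refine h1.congr' ?_
    filter_upwards [self_mem_nhdsWithin] with x hx
    have hx' : (x : ℝ) ≠ 0 := (show (0 : ℝ) < x from hx).ne'
    field_simp
    ring
  have hCx : Tendsto C (𝓝[>] 0) (𝓝 (C 0)) := hC.tendsto.mono_left nhdsWithin_le_nhds
  -- the value at zero
  have hG1 : Tendsto (fun x : ℝ => g x / x) (𝓝[>] 0) (𝓝 G) := by
    have hx : Tendsto (fun x : ℝ => x) (𝓝[>] (0 : ℝ)) (𝓝 0) := nhdsWithin_le_nhds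
    have h1 : Tendsto (fun x : ℝ => G + x * ((g x - x * G) / x ^ 2)) (𝓝[>] 0)
        (𝓝 (G + 0 * 0)) := tendsto_const_nhds.add (hx.mul hG)
    rw [mul_zero, add_zero] at h1
    refine h1.congr' ?_
    filter_upwards [self_mem_nhdsWithin] with x hx
    have hx' : (x : ℝ) ≠ 0 := (show (0 : ℝ) < x from hx).ne'
    field_simp
    ring
  have hG2 : Tendsto (fun x : ℝ => g x / x) (𝓝[>] 0) (𝓝 (-(1 * C 0))) := by
    have h1 := (hsinc.mul hCx).neg
    refine h1.congr' ?_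
    filter_upwards [self_mem_nhdsWithin] with x hx
    rw [← hg x]
    ring
  have hGC : G = - C 0 := by
    have := tendsto_nhds_unique hG1 hG2
    linarith
  -- the defect
  have h2 : Tendsto (fun x : ℝ => ((g x - x * G) / x ^ 2 - G * ((Real.sin x - x) / x ^ 2)) /
      (Real.sin x / x)) (𝓝[>] 0) (𝓝 ((0 - G * 0) / 1)) :=
    (hG.sub (hsin1.const_mul G)).div hsinc one_ne_zero
  rw [mul_zero, sub_zero, zero_div] at h2
  refine h2.congr' ?_
  have hpi : ∀ᶠ x : ℝ in 𝓝[>] (0 : ℝ), x < Real.pi := by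
    have : Iio Real.pi ∈ 𝓝 (0 : ℝ) := Iio_mem_nhds Real.pi_pos
    exact nhdsWithin_le_nhds this
  filter_upwards [self_mem_nhdsWithin, hpi] with x hx hxp
  have hx' : (x : ℝ) ≠ 0 := (show (0 : ℝ) < x from hx).ne'
  have hsx : Real.sin x ≠ 0 := (Real.sin_pos_of_pos_of_lt_pi hx hxp).ne'
  rw [← hg x, hGC]
  field_simp
  ring

/-- The correlation is continuous in the rotation. -/
theorem corr_cont {G : ℂ × ℂ → ℝ} (hG : MemLp G 2 (volume : Measure (ℂ × ℂ))) :
    Continuous (fun ρ : Circle => ∫ p : ℂ × ℂ, G p * G ((ρ : ℂ) * p.1, p.2)) := by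
  set f : Lp ℝ 2 (volume : Measure (ℂ × ℂ)) := hG.toLp with hf
  set T : Circle → Lp ℝ 2 (volume : Measure (ℂ × ℂ)) :=
    fun ρ => Lp.compMeasurePreserving (rotC ρ) (rotC_mp ρ) f with hT
  have hTc : Continuous T :=
    (continuous_const (y := f)).compMeasurePreservingLp rotC_cont rotC_mp (by norm_num)
  have hfae : ⇑f =ᵐ[volume] G := hG.coeFn_toLp
  have hTae : ∀ ρ : Circle, ⇑(T ρ) =ᵐ[volume] fun p => G ((ρ : ℂ) * p.1, p.2) := by
    intro ρ
    have h1 := Lp.coeFn_compMeasurePreserving f (rotC_mp ρ)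
    refine h1.trans ?_
    have h2 := (rotC_mp ρ).quasiMeasurePreserving.ae hfae
    filter_upwards [h2] with p hp
    exact hp
  have hin : ∀ ρ : Circle, inner ℝ f (T ρ) = ∫ p : ℂ × ℂ, G p * G ((ρ : ℂ) * p.1, p.2) := by
    intro ρ
    rw [L2.inner_def]
    apply integral_congr_ae
    filter_upwards [hfae, hTae ρ] with p h1 h2
    rw [h1, h2]
    simp [mul_comm]
  have hcont : Continuous (fun ρ => (inner ℝ f (T ρ) : ℝ)) := continuous_const.inner hTc
  exact hcont.congr hin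

end Pool.Agent.Lib.BilS
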